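import Pool.Agent.Q47.TV.Inv

/-!
# Comparison of the log discrepancies at nearby closed points
-/

set_option autoImplicit false
set_option linter.unusedSectionVars false

namespace Q47.TV

open Pool.Agent.H436R3.Fol Pool.Agent.H436R3.KT Pool.Agent.W497.Mld Pool.Agent.TH165.ACC Q47.QM

variable {n : ℕ} {K : Type} [Field K] [Algebra ℂ K]
  [Algebra (MvPolynomial (Fin n) ℂ) K] [IsFractionRing (MvPolynomial (Fin n) ℂ) K]
  [IsScalarTower ℂ (MvPolynomial (Fin n) ℂ) K]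

variable {g : TorAff n K} {B : EffDiv g.X} {vE : Fin g.N → DVal K} {Φ : (Fin n → ℤ) → ℝ}

/-- averages of the rays -/
theorem avg_ray {x : Pt g.X} (hΦ : LDX vE B x Φ) {W : (Fin n → ℤ) →+ (Fin n → ℤ)}
    (hcone : ∀ u, FC x u → FC x (adj W u))
    (hinv : ∀ u, FC x u → Φ (adj W u) = Φ u) {u : Fin n → ℤ} (hu : FC x u) (t : ℕ) :
    FC x (avg (adjH W) t u) ∧ Φ (avg (adjH W) t u) = t * Φ u := by
  have hQs : ∀ t : ℕ, FC x ((adjH W)^[t] u) ∧ Φ ((adjH W)^[t] u) = Φ u := by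
    intro t
    induction t with
    | zero => exact ⟨hu, rfl⟩
    | succ t ih =>
      rw [Function.iterate_succ_apply', adjH_apply]
      exact ⟨hcone _ ih.1, (hinv _ ih.1).trans ih.2⟩
  induction t with
  | zero =>
    rw [avg, Finset.sum_range_zero]
    exact ⟨FC_zero x, by rw [hΦ.zero]; simp⟩
  | succ t ih =>
    have h1 : avg (adjH W) (t + 1) u = avg (adjH W) t u + (adjH W)^[t] u := by
      rw [avg, Finset.sum_range_succ, avg]
    rw [h1]
    refine ⟨ih.1.add (hQs t).1, ?_⟩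
    rw [hΦ.add ih.1 (hQs t).1, ih.2, (hQs t).2]
    push_cast
    ring

theorem phi_sum {x : Pt g.X} (hΦ : LDX vE B x Φ) {ι : Type} (S : Finset ι) (f : ι → Fin n → ℤ)
    (h : ∀ i ∈ S, FC x (f i)) : FC x (∑ i ∈ S, f i) ∧ Φ (∑ i ∈ S, f i) = ∑ i ∈ S, Φ (f i) := by
  classical
  induction S using Finset.induction_on with
  | empty => rw [Finset.sum_empty, Finset.sum_empty]; exact ⟨FC_zero x, hΦ.zero⟩
  | insert a S ha ih =>
    obtain ⟨h1, h2⟩ := ih fun i hi => h i (Finset.mem_insert_of_mem hi)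
    rw [Finset.sum_insert ha, Finset.sum_insert ha]
    exact ⟨(h a (Finset.mem_insert_self _ _)).add h1, by
      rw [hΦ.add (h a (Finset.mem_insert_self _ _)) h1, h2]⟩

theorem lsc_one {R : ℕ} (hR : 0 < R) (hn : 0 < n)
    (hvE : ∀ i, IsMonomial n (vE i))
    (htE : ∀ i, (tv (vE i) : Fin n → ℤ) = g.E i)
    (hβ : ∀ i, 0 ≤ B.mult (vE i))
    (htor : ∀ v : DVal K, (∀ i : Fin n, v.ord (cv K i) = 0) → B.mult v = 0)
    {G : Subgroup (K ≃ₐ[ℂ] K)} [Finite G] {x1 x' : Pt g.X} (hΦ : LDX vE B x1 Φ)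
    (e1 : LocEq B x1) (e' : LocEq B x')
    {v' : DVal K} {b' : ℝ} (hov' : IsOverGerm x' v') (hb' : IsLogDisc e' v' b')
    {σ : K ≃ₐ[ℂ] K} {r : ℕ} (hr : 0 < r) (hσG : σ ∈ G) (hI : InI v' σ) (hσr : σ ^ r = 1)
    (hch : Ch v' σ (ee (1 / r))) {W : (Fin n → ℤ) →+ (Fin n → ℤ)} {l : (Fin n → ℤ) → ℂ}
    (hmo : Mo σ W l) (hWR : ∀ m, W^[R] m = m)
    (hcone : ∀ u, g.InCone u → g.InCone (adj W u))
    (hinv : ∀ u, FC x1 u → Φ (adj W u) = Φ u)
    (hxx : ∀ m ∈ Fx x1, m ∈ Fx x') (hfix : Fixes x1 W l)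
    (hchar : ∀ m1 ∈ Fx x1, ∀ m2 ∈ Fx x1, ∀ m', W m' - m' = m1 - m2 →
      yx x' m1 * yx x1 m2 = yx x' m2 * yx x1 m1)
    {m : ℝ} (hm0 : 0 ≤ m) (hm : ∀ v b, IsOverGerm x1 v → IsLogDisc e1 v b →
      m ≤ b / Nat.card (G ⊓ Ig v : Subgroup (K ≃ₐ[ℂ] K))) :
    m ≤ b' / r := by
  classical
  have hWr := hmo.iter_eq hσr
  have hprim : IsPrimitiveRoot (ee (1 / r)) r := by
    rw [← ee_root]; exact Complex.isPrimitiveRoot_exp r hr.ne'
  have hr' : (r : ℝ) ≠ 0 := by exact_mod_cast hr.ne'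
  have hR' : (R : ℝ) ≠ 0 := by exact_mod_cast hR.ne'
  have hr0 : (0 : ℝ) < r := by exact_mod_cast hr
  have hR0 : (0 : ℝ) < R := by exact_mod_cast hR
  have hfix' : Fixes x' W l := fixes_of_InI hmo hcone hov' hI
  -- the valuation over the nearby point
  obtain ⟨a, ha, hba⟩ := (disc_point hΦ hvE htE htor hxx e' hov' b').1 hb'
  set c1 := Module.finrank ℂ (Submodule.span ℂ (cst '' {m | m ∈ Fx x1 ∧ W m = m})) with hc1
  obtain ⟨k, y, J, hEB⟩ := exists_eb2 hprim hr hWr (F := Fx x1)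
    (fun m hm => hfix.avg hcone hm r) hc1.symm
  obtain ⟨c', μ, hμF, hμli, hc'⟩ : ∃ (c' : ℕ) (μ : Fin c' → Fin n → ℤ),
      (∀ i, μ i ∈ {m | m ∈ Fx x' ∧ W m = m}) ∧ LinearIndependent ℂ (fun i => cst (μ i)) ∧
      Module.finrank ℂ (Submodule.span ℂ (cst '' {m | m ∈ Fx x' ∧ W m = m})) = c' := by
    obtain ⟨μ, hμF, hμli⟩ := exists_mu {m | m ∈ Fx x' ∧ W m = m}
    exact ⟨_, μ, hμF, hμli, rfl⟩
  have hlow := lower_fix g.e g.hT ha hI hr hσr hprim hch hmo hEB.eb μ hμli (fun i => (hμF i).2)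
    (z := fun i => yx x' (μ i)) (fun i => over_uc hov' (hμF i).1)
  -- the choice of rays
  obtain ⟨S, hST, hSF, hScard⟩ := greedy (E := g.E) (F := {m | m ∈ Fx x' ∧ W m = m})
    (F1 := Fx x1) (T := {i | InF x1 i}) (by
      rintro m ⟨hm, -⟩ hm1
      by_contra hcon
      push Not at hcon
      exact hm1 (mem_Fx hm.1 hcon)) _ ∅ (fun i hi => absurd hi (Finset.notMem_empty i)) le_rfl
  have hd0 : dF {m | m ∈ Fx x' ∧ W m = m} g.E ∅ = c' := by
    have hset : {m | m ∈ {m | m ∈ Fx x' ∧ W m = m} ∧ ∀ i ∈ (∅ : Finset (Fin g.N)),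
        pr m (g.E i) = 0} = {m | m ∈ Fx x' ∧ W m = m} := by
      ext m; simp
    rw [dF, hset, hc']
  have hdS : dF {m | m ∈ Fx x' ∧ W m = m} g.E S = c1 := by
    have hset : {m | m ∈ {m | m ∈ Fx x' ∧ W m = m} ∧ ∀ i ∈ S, pr m (g.E i) = 0} =
        {m | m ∈ Fx x1 ∧ W m = m} := by
      ext m
      constructor
      · rintro ⟨hm, h1⟩
        exact ⟨hSF m hm h1, hm.2⟩
      · rintro ⟨hm, h1⟩
        exact ⟨⟨hxx m hm, h1⟩, fun i hi => hST i hi m hm⟩
    rw [dF, hset]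
  rw [hd0, hdS, Finset.card_empty, zero_add] at hScard
  -- the vector
  have hAR := adj_iter hWR
  set U : Fin n → ℤ := (R : ℤ) • (tv v' : Fin n → ℤ) +
    (r : ℤ) • ∑ i ∈ S, avg (adjH W) R (g.E i) with hUd
  have hprU : ∀ m, pr m U = R * pr m (tv v' : Fin n → ℤ) +
      r * ∑ i ∈ S, pr (avg W R m) (g.E i) := by
    intro m
    rw [hUd, pr_add_right, pr_smul_right, pr_smul_right, pr_sum_right]
    congr 2
    exact Finset.sum_congr rfl fun i _ => pr_avg W R m _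
  have hUW : ∀ m, pr (W m) U = pr m U := by
    intro m
    have h1 : avg W R (W m) = avg W R m := by
      rw [avg, avg]
      have h3 := Finset.sum_range_succ (fun s => W^[s] m) R
      have h4 := Finset.sum_range_succ' (fun s => W^[s] m) R
      rw [h3, hWR] at h4
      exact (add_right_cancel h4).symm
    rw [hprU, hprU, h1, ← pr_adj, hmo.adj_tv hI]
  have hUF : ∀ m ∈ Fx x1, pr m U = 0 := by
    intro m hm
    rw [hprU, over_zero hov' (hxx m hm), mul_zero, zero_add, Finset.sum_eq_zero, mul_zero]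
    intro i hi
    exact hST i hi _ (hfix.avg hcone hm R)
  have hWC : ∀ (s : ℕ) (m : Fin n → ℤ), m ∈ Cn g.E → W^[s] m ∈ Cn g.E := by
    intro s m hm
    induction s with
    | zero => exact hm
    | succ s ih => rw [Function.iterate_succ_apply']; exact W_Cn hcone ih
  have havC : ∀ m ∈ Cn g.E, avg W R m ∈ Cn g.E := by
    intro m hm i
    rw [avg, pr_sum]
    exact Finset.sum_nonneg fun s _ => hWC s m hm i
  have hUC : ∀ m ∈ Cn g.E, m ∉ Fx x1 → 0 < pr m U := by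
    intro m hm hm1
    rw [hprU]
    have h1 : 0 ≤ ∑ i ∈ S, pr (avg W R m) (g.E i) := Finset.sum_nonneg fun i _ => havC m hm i
    have h2 : (0 : ℤ) < R := by exact_mod_cast hR
    have h3 : (0 : ℤ) < r := by exact_mod_cast hr
    by_cases hmx : m ∈ Fx x'
    · have h4 : 0 < ∑ i ∈ S, pr (avg W R m) (g.E i) := by
        have h5 : ∃ i ∈ S, pr (avg W R m) (g.E i) ≠ 0 := by
          by_contra hcon
          push Not at hcon
          have h6 := hSF (avg W R m) ⟨hfix'.avg hcone hmx R, avg_fix hWR m⟩ hcon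
          obtain ⟨m2, hm2, h7⟩ := avg_mem_Cn hcone hm hR
          rw [h7] at h6
          exact hm1 (Fx_face hm hm2 h6)
        obtain ⟨i, hi, hi0⟩ := h5
        exact Finset.sum_pos' (fun j _ => havC m hm j)
          ⟨i, hi, lt_of_le_of_ne (havC m hm i) (Ne.symm hi0)⟩
      rw [over_zero hov' hmx, mul_zero, zero_add]
      exact mul_pos h3 h4
    · have h4 := over_pos hov' hm hmx
      have h5 := mul_pos h2 h4
      have h6 := mul_nonneg h3.le h1
      linarith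
  -- the order and the root of unity
  set N : ℕ := R * r with hNd
  have hN : 0 < N := Nat.mul_pos hR hr
  have hN' : (N : ℝ) ≠ 0 := by exact_mod_cast hN.ne'
  set θ' : ℂ := ee (1 / N) with hθ'
  have hprim' : IsPrimitiveRoot θ' N := by
    rw [hθ', ← ee_root]; exact Complex.isPrimitiveRoot_exp N hN.ne'
  have hθR : θ' ^ R = ee (1 / r) := by
    rw [hθ', ee_pow]
    congr 1
    rw [hNd]
    push_cast
    field_simp
  obtain ⟨κ, hEG, hκ, hκJ⟩ := hEB.gen hr hR hθR hprim.pow_eq_one hUW hUF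
  -- the powers of the root of unity
  have hθU : ∀ m2 : Fin n → ℤ, (∀ i ∈ S, ∀ s, pr (W^[s] m2) (g.E i) = pr m2 (g.E i)) →
      θ' ^ pr m2 U = ee (1 / r) ^ pr m2 (tv v' : Fin n → ℤ) := by
    intro m2 hm2
    have h1 : ∀ i ∈ S, pr (avg W R m2) (g.E i) = R * pr m2 (g.E i) := by
      intro i hi
      rw [avg, pr_sum, Finset.sum_congr rfl fun s _ => hm2 i hi s, Finset.sum_const,
        Finset.card_range, nsmul_eq_mul]
    have h2 : pr m2 U = R * pr m2 (tv v' : Fin n → ℤ) + N * ∑ i ∈ S, pr m2 (g.E i) := by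
      rw [hprU, Finset.sum_congr rfl h1, ← Finset.mul_sum, hNd]
      push_cast
      ring
    rw [h2, zpow_add₀ (hprim'.ne_zero hN.ne'), zpow_mul, zpow_mul, zpow_natCast, zpow_natCast,
      hprim'.pow_eq_one, one_zpow, mul_one, hθR]
  have hcomp : ∀ m1 ∈ Fx x1, ∀ m2 ∈ Fx x1, ∀ m3, W m3 - m3 = m1 - m2 →
      θ' ^ pr m3 U / l m3 * yx x1 m2 = yx x1 m1 := by
    intro m1 hm1 m2 hm2 m3 h3
    have h1 : ∀ i ∈ S, ∀ s, pr (W^[s] m3) (g.E i) = pr m3 (g.E i) := by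
      intro i hi s
      induction s with
      | zero => rfl
      | succ s ih =>
        have h4 : W^[s + 1] m3 = W^[s] m3 + (W^[s] m1 - W^[s] m2) := by
          rw [Function.iterate_succ_apply, ← iterate_map_sub, ← h3, iterate_map_sub]
          abel
        rw [h4, pr_add, pr_sub, ih, hST i hi _ (hfix.iter hcone hm1 s),
          hST i hi _ (hfix.iter hcone hm2 s), sub_self, add_zero]
    rw [hθU m3 h1]
    have h2 := hch.2 _ (ym_ne (K := K) m3)
    rw [ord_ym] at h2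
    have h4 : σ (ym K m3) / ym K m3 = algebraMap ℂ K (l m3) * (ym K m1 / ym K m2) := by
      have h5 : ym K (W m3) = ym K m3 * (ym K m1 * ym K (-m2)) := by
        rw [← ym_add, ← ym_add]
        congr 1
        rw [← sub_eq_add_neg, ← h3]
        abel
      rw [hmo.2, h5, ym_neg]
      have := ym_ne (K := K) m3
      have := ym_ne (K := K) m2
      field_simp
    rw [h4] at h2
    have h5 := ((UC.const (v := v') (hmo.1 m3)).mul
      ((over_uc hov' (hxx m1 hm1)).div (over_uc hov' (hxx m2 hm2)))).uniq h2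
    have h6 := hchar m1 hm1 m2 hm2 m3 h3
    have e1 := hmo.1 m3
    have e2 := (hxx m2 hm2).2
    rw [← h5]
    field_simp
    linear_combination h6
  obtain ⟨ch, hch0, hchm, hchW, hchx⟩ := exists_char2 (hprim'.ne_zero hN.ne') hmo.1 hmo.add
    (F1 := Fx x1) Fx_zero (fun _ h _ h' => Fx_add h h') (χ := yx x1) (fun _ h => h.2)
    (fun _ h _ h' => yx_add x1 h.1 h'.1) hcomp
  -- nontriviality
  have hU0 : U ≠ 0 ∨ ∃ j, κ j ≠ 0 := mono_ne hn hEG hUC
  obtain ⟨c, v, a1, hc0, hov, ha1, hIv, hChv, hUc, hle⟩ := exists_val2 hmo hN hprim' hEG hUW hU0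
    hUF hUC hch0 hchm hchW hchx
  have hl1 : IsLogDisc e1 v (1 + a1 + Φ (tv v)) :=
    (disc_point hΦ hvE htE htor (fun m hm => hm) e1 hov _).2 ⟨a1, ha1, rfl⟩
  obtain ⟨hs0, -⟩ := exists_gen G v
  have hmle := hm v _ hov hl1
  set s := Nat.card (G ⊓ Ig v : Subgroup (K ≃ₐ[ℂ] K)) with hsd
  have hpow : σ ^ s = 1 := by
    have h1 : σ ∈ (G ⊓ Ig v : Subgroup (K ≃ₐ[ℂ] K)) := ⟨hσG, mem_Ig.2 hIv⟩
    have h2 : (⟨σ, h1⟩ : (G ⊓ Ig v : Subgroup (K ≃ₐ[ℂ] K))) ^ s = 1 :=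
      pow_card_eq_one'
    have h3 := congrArg Subtype.val h2
    simpa using h3
  have hdvd : N ∣ c * s := by
    have h1 := Ch.pow' hIv hChv s
    rw [hpow] at h1
    have h2 := h1.uniq Ch.one
    rw [← pow_mul] at h2
    exact (hprim'.pow_eq_one_iff_dvd _).1 h2
  have hNle : N ≤ c * s := Nat.le_of_dvd (Nat.mul_pos hc0 hs0) hdvd
  have hΦUc : Φ U = c * Φ (tv v) := by
    conv_lhs => rw [hUc]
    exact hΦ.smul c (over_FC hov)
  have hΦU : Φ U = R * Φ (tv v') + N * ∑ i ∈ S, (1 - B.mult (vE i)) := by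
    have hFCW : ∀ u, FC x1 u → FC x1 (adj W u) := fun u hu => hu.adj hcone hfix
    have hFCv : FC x1 (tv v') := (over_FC hov').mono hxx
    have h1 := phi_sum hΦ S (fun i => avg (adjH W) R (g.E i))
      fun i hi => (avg_ray hΦ hFCW hinv (FC_E (hST i hi)) R).1
    rw [hUd, hΦ.add (hFCv.smul R) (h1.1.smul r), hΦ.smul R hFCv, hΦ.smul r h1.1, h1.2]
    have h4 : ∀ i ∈ S, Φ (avg (adjH W) R (g.E i)) = R * (1 - B.mult (vE i)) := fun i hi => by
      rw [(avg_ray hΦ hFCW hinv (FC_E (hST i hi)) R).2, hΦ.ray (hST i hi)]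
    rw [Finset.sum_congr rfl h4, ← Finset.mul_sum, hNd]
    push_cast
    ring
  have hSle : ∑ i ∈ S, (1 - B.mult (vE i)) ≤ S.card := by
    calc ∑ i ∈ S, (1 - B.mult (vE i)) ≤ ∑ _i ∈ S, (1 : ℝ) :=
          Finset.sum_le_sum fun i _ => by linarith [hβ i]
      _ = S.card := by simp
  have hs0' : (0 : ℝ) < s := by exact_mod_cast hs0
  have hc0' : (0 : ℝ) < c := by exact_mod_cast hc0
  have hN0' : (0 : ℝ) < N := by exact_mod_cast hN
  rw [le_div_iff₀ hs0'] at hmle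
  have h5 : (N : ℝ) ≤ c * s := by exact_mod_cast hNle
  have h6 : (N : ℝ) * m ≤ c * (1 + a1 + Φ (tv v)) := by
    calc (N : ℝ) * m ≤ c * s * m := mul_le_mul_of_nonneg_right h5 hm0
      _ = c * (m * s) := by ring
      _ ≤ c * (1 + a1 + Φ (tv v)) := mul_le_mul_of_nonneg_left hmle hc0'.le
  have h7 : (c : ℝ) * (a1 + 1) ≤ ∑ j, (κ j : ℝ) := by exact_mod_cast hle
  have h8 : ∑ j, (κ j : ℝ) ≤ R * (∑ j, (k j : ℝ) + r * c1) := by exact_mod_cast hκ
  have h9 : (c : ℝ) * (1 + a1 + Φ (tv v)) ≤ R * (∑ j, (k j : ℝ) + r * c1) + R * Φ (tv v') +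
      N * S.card := by
    have h10 : (N : ℝ) * ∑ i ∈ S, (1 - B.mult (vE i)) ≤ N * S.card :=
      mul_le_mul_of_nonneg_left hSle hN0'.le
    have h11 : (c : ℝ) * (1 + a1 + Φ (tv v)) = c * (a1 + 1) + Φ U := by rw [hΦUc]; ring
    rw [h11, hΦU]
    linarith
  have h10 : (r : ℝ) * m ≤ ∑ j, (k j : ℝ) + r * (c1 + S.card) + Φ (tv v') := by
    have h11 : (N : ℝ) = R * r := by rw [hNd]; push_cast; ring
    rw [h11] at h6 h9
    have h12 : (R : ℝ) * (r * m) ≤ R * (∑ j, (k j : ℝ) + r * (c1 + S.card) + Φ (tv v')) := by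
      linarith
    exact le_of_mul_le_mul_left h12 hR0
  have h11 : (c1 + S.card : ℝ) ≤ c' := by
    have : ((S.card + c1 : ℕ) : ℝ) ≤ (c' : ℕ) := by exact_mod_cast hScard
    push_cast at this
    linarith
  have h12 : (∑ j, (k j : ℝ)) + r * c' ≤ a + 1 := by exact_mod_cast hlow
  rw [le_div_iff₀ hr0, hba]
  have h13 : (r : ℝ) * (c1 + S.card) ≤ r * c' := mul_le_mul_of_nonneg_left h11 hr0.le
  linarith

end Q47.TV
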