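import Pool.Agent.Q47.TV.Grp
import Pool.Agent.Q47.QM.Final

/-!
# Minimal log discrepancies of quotients at closed points with toric charts
-/

set_option autoImplicit false
set_option linter.unusedSectionVars false

namespace Q47.TV

open Pool.Agent.H436R3.Fol Pool.Agent.H436R3.KT Pool.Agent.W497.Mld Pool.Agent.TH165.ACC Q47.QM

variable {n : ℕ} {K : Type} [Field K] [Algebra ℂ K]
  [Algebra (MvPolynomial (Fin n) ℂ) K] [IsFractionRing (MvPolynomial (Fin n) ℂ) K]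
  [IsScalarTower ℂ (MvPolynomial (Fin n) ℂ) K]

/-- `σ` preserves the divisors over the germ and their log discrepancies. -/
def IsGermAut {X : AffVar K} {B : EffDiv X} {x : Pt X} (e : LocEq B x) (σ : K ≃ₐ[ℂ] K) : Prop :=
  ∀ (v : DVal K) (b : ℝ), IsOverGerm x v ∧ IsLogDisc e v b ↔
    IsOverGerm x (tw v σ) ∧ IsLogDisc e (tw v σ) b

/-- the minimal log discrepancy of the quotient of the germ by the finite group `G` -/
def IsQuotMldX {X : AffVar K} {B : EffDiv X} {x : Pt X} (e : LocEq B x)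
    (G : Subgroup (K ≃ₐ[ℂ] K)) (m : ℝ) : Prop :=
  IsLeast {a | ∃ (v : DVal K) (b : ℝ), IsOverGerm x v ∧ IsLogDisc e v b ∧
    a = b / Nat.card {σ : G // ∀ f, v.Reg f → v.Pos ((σ : K ≃ₐ[ℂ] K) f - f)}} m

/-- A toric chart at a closed point `x` for the automorphism `σ`: an affine toric variety with a torus
invariant boundary `B'` with coefficients in `Γ`, a closed point `y` of it, and an isomorphism `γ` of
function fields under which divisors over `x` and over `y` correspond and have the same log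
discrepancies, and which makes `σ` a monomial automorphism of the affine toric variety. -/
structure GermChart (n : ℕ) {K : Type} [Field K] [Algebra ℂ K]
    [Algebra (MvPolynomial (Fin n) ℂ) K] [IsFractionRing (MvPolynomial (Fin n) ℂ) K]
    [IsScalarTower ℂ (MvPolynomial (Fin n) ℂ) K] (Γ : Set ℝ) {X : AffVar K} {B : EffDiv X}
    {x : Pt X} (e : LocEq B x) (σ : K ≃ₐ[ℂ] K) where
  g : TorAff n K
  B' : EffDiv g.X
  coef : CoeffIn B' Γ
  htor : ∀ v : DVal K, (∀ i : Fin n, v.ord (cv K i) = 0) → B'.mult v = 0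
  y : Pt g.X
  e' : LocEq B' y
  γ : K ≃ₐ[ℂ] K
  disc : ∀ (v : DVal K) (b : ℝ), IsOverGerm x v ∧ IsLogDisc e v b ↔
    IsOverGerm y (tw v γ) ∧ IsLogDisc e' (tw v γ) b
  aut : ∀ c, (γ⁻¹ * σ * γ) c ∈ g.X.R ↔ c ∈ g.X.R
  mono : IsMono n (γ⁻¹ * σ * γ)

section

variable {X : AffVar K} {BX : EffDiv X} {x : Pt X} {e : LocEq BX x} {Γ : Set ℝ}

theorem GermChart.at_fix {σ : K ≃ₐ[ℂ] K} (C : GermChart n Γ e σ) (hσ : IsGermAut e σ)
    (v : DVal K) (b : ℝ) (h1 : IsOverGerm C.y v) (h2 : IsLogDisc C.e' v b) :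
    IsOverGerm C.y (tw v (C.γ⁻¹ * σ * C.γ)) ∧ IsLogDisc C.e' (tw v (C.γ⁻¹ * σ * C.γ)) b := by
  have h3 := C.disc (tw v C.γ⁻¹) b
  rw [tw_tw, inv_mul_cancel, tw_one] at h3
  have h4 := (hσ _ b).1 (h3.2 ⟨h1, h2⟩)
  have h5 := (C.disc _ b).1 h4
  rw [tw_tw, tw_tw, ← mul_assoc] at h5
  exact h5

theorem GermChart.back {σ : K ≃ₐ[ℂ] K} (C : GermChart n Γ e σ)
    (v : DVal K) (b : ℝ) (h1 : IsOverGerm C.y v) (h2 : IsLogDisc C.e' v b) :
    IsOverGerm x (tw v C.γ⁻¹) ∧ IsLogDisc e (tw v C.γ⁻¹) b := by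
  have h3 := C.disc (tw v C.γ⁻¹) b
  rw [tw_tw, inv_mul_cancel, tw_one] at h3
  exact h3.2 ⟨h1, h2⟩

end

theorem LDX.coord {g : TorAff n K} {B : EffDiv g.X} {vE : Fin g.N → DVal K} {x : Pt g.X}
    {Φ : (Fin n → ℤ) → ℝ} {d : ℕ} (h : LDX vE B x Φ) {Q : Fin d → Fin n → ℤ}
    (hQ : ∀ i, FC x (Q i)) {w : Fin d → ℝ} (hw : ∀ i, 0 ≤ w i) {u : Fin n → ℤ}
    (hc : Coord Q w u) : Φ u = ∑ i, w i * Φ (Q i) := by
  choose w' hw' hc' using fun i => exists_coord (hQ i).1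
  rw [h.lin (fun j => ∑ i, w i * w' i j) u (fun j => Finset.sum_nonneg fun i _ =>
    mul_nonneg (hw i) (hw' i j)) (fun j hj => Finset.sum_eq_zero fun i _ => by
      rw [coord_face (hQ i) (hw' i) (hc' i) hj, mul_zero]) (fun k => by
      simp only [Finset.sum_mul]
      rw [Finset.sum_comm, ← hc k]
      refine Finset.sum_congr rfl fun i _ => ?_
      rw [← hc' i k, Finset.mul_sum]
      exact Finset.sum_congr rfl fun j _ => by ring)]
  simp only [Finset.sum_mul]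
  rw [Finset.sum_comm]
  refine Finset.sum_congr rfl fun i _ => ?_
  rw [h.lin (w' i) (Q i) (hw' i) (fun j hj => coord_face (hQ i) (hw' i) (hc' i) hj) (hc' i),
    Finset.mul_sum]
  exact Finset.sum_congr rfl fun j _ => by ring

/-- residues of a power of the generator of the inertia group -/
theorem res_pow {g : TorAff n K} {y : Pt g.X} {v : DVal K} (hov : IsOverGerm y v)
    {σ : K ≃ₐ[ℂ] K} (hI : InI v σ) {z : ℂ} (hch : Ch v σ z) {W : (Fin n → ℤ) →+ (Fin n → ℤ)}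
    {l' : (Fin n → ℤ) → ℂ} {j : ℕ} (hmo : Mo (σ ^ j) W l') {m1 m2 m3 : Fin n → ℤ}
    (hm1 : m1 ∈ Fx y) (hm2 : m2 ∈ Fx y) (h3 : W m3 - m3 = m1 - m2) :
    l' m3 * yx y m1 = (z ^ j) ^ pr m3 (tv v) * yx y m2 := by
  have h2 := (hch.pow' hI j).2 _ (ym_ne (K := K) m3)
  rw [ord_ym] at h2
  have h4 : (σ ^ j) (ym K m3) / ym K m3 = algebraMap ℂ K (l' m3) * (ym K m1 / ym K m2) := by
    have h5 : ym K (W m3) = ym K m3 * (ym K m1 * ym K (-m2)) := by
      rw [← ym_add, ← ym_add]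
      congr 1
      rw [← sub_eq_add_neg, ← h3]
      abel
    rw [hmo.2, h5, ym_neg]
    have := ym_ne (K := K) m3
    have := ym_ne (K := K) m2
    field_simp
  rw [h4] at h2
  have h5 := ((UC.const (v := v) (hmo.1 m3)).mul
    ((over_uc hov hm1).div (over_uc hov hm2))).uniq h2
  rw [← h5]
  have := hm2.2
  field_simp

variable {Γ : Set ℝ}

theorem core3 {R : ℕ} (hR : 0 < R)
    (hRW : ∀ (W : (Fin n → ℤ) →+ (Fin n → ℤ)) (r : ℕ), 0 < r → (∀ m, W^[r] m = m) →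
      ∀ m, W^[R] m = m) (hn : 0 < n)
    {X : AffVar K} {BX : EffDiv X} {x : Pt X} {e : LocEq BX x}
    {G : Subgroup (K ≃ₐ[ℂ] K)} [Finite G] {m : ℝ} (hm0 : 0 ≤ m)
    (hG : ∀ σ ∈ G, IsGermAut e σ) (hx : ∀ σ ∈ G, Nonempty (GermChart n Γ e σ))
    (hm : IsQuotMldX e G m) :
    ∃ q ≤ n * R, ∃ c ≤ n, ∃ d ≤ n, ∃ a ∈ Val d R (insert 0 Γ),
      m = ((q : ℝ) / R + (c : ℝ)) + R * a := by
  classical
  obtain ⟨⟨v1, b0, hov1, hl1, hmb⟩, hleast⟩ := hm
  rw [card_inert] at hmb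
  obtain ⟨hr, σ1, hσ1, hI1, hσr, hch1⟩ := exists_gen G v1
  set r := Nat.card (G ⊓ Ig v1 : Subgroup (K ≃ₐ[ℂ] K)) with hrd
  have hprim : IsPrimitiveRoot (ee (1 / r)) r := by
    rw [← ee_root]; exact Complex.isPrimitiveRoot_exp r hr.ne'
  rw [ee_root] at hch1
  obtain ⟨C⟩ := hx σ1 hσ1
  set σ := C.γ⁻¹ * σ1 * C.γ with hσd
  have hσp : ∀ t : ℕ, σ ^ t = C.γ⁻¹ * σ1 ^ t * C.γ := by
    intro t
    have := conj_pow (i := t) (a := C.γ⁻¹) (b := σ1)
    rw [inv_inv] at this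
    exact this
  have hσr' : σ ^ r = 1 := by rw [hσp, hσr, mul_one, inv_mul_cancel]
  have hI : InI (tw v1 C.γ) σ := tw_InI hI1
  have hch : Ch (tw v1 C.γ) σ (ee (1 / r)) := tw_Ch hch1
  obtain ⟨W, l, hmo⟩ := exists_mo C.mono
  have hWr := hmo.iter_eq hσr'
  have hWR := hRW W r hr hWr
  have hcone : ∀ u, C.g.InCone u → C.g.InCone (adj W u) := cone_aut hmo C.aut
  obtain ⟨hov0, hl0⟩ := (C.disc v1 b0).1 ⟨hov1, hl1⟩
  have hfix : Fixes C.y W l := fixes_of_InI hmo hcone hov0 hI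
  obtain ⟨c, hc⟩ : ∃ c, Module.finrank ℂ (Submodule.span ℂ
    (cst '' {m | m ∈ Fx C.y ∧ W m = m})) = c := ⟨_, rfl⟩
  have hcn : c ≤ n := by
    rw [← hc]
    have h1 := Submodule.finrank_le (Submodule.span ℂ (cst '' {m | m ∈ Fx C.y ∧ W m = m}))
    rwa [Module.finrank_fin_fun] at h1
  obtain ⟨k, yy, J, hEB⟩ := exists_eb2 hprim hr hWr (F := Fx C.y)
    (fun m hm => hfix.avg hcone hm r) hc
  set U0 : Fin n → ℤ := tv (tw v1 C.γ) with hU0d
  have hU0 : ∀ m, pr (W m) U0 = pr m U0 := by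
    intro m
    rw [← pr_adj, hmo.adj_tv hI]
  have hr' : (r : ℝ) ≠ 0 := by exact_mod_cast hr.ne'
  have hR' : (R : ℝ) ≠ 0 := by exact_mod_cast hR.ne'
  have hr0 : (0 : ℝ) < r := by exact_mod_cast hr
  -- the character
  set lam0 : (Fin n → ℤ) → ℂ := fun m => ee ((pr m U0 : ℝ) / r) with hlam0
  have hlam1 : ∀ m, lam0 m ≠ 0 := fun m => ee_ne _
  set P : (Fin n → ℤ) → Prop := fun m => ∃ m1 ∈ Fx C.y, ∃ m2 ∈ Fx C.y, W m - m = m1 - m2 with hPd
  have hPfix : ∀ m, W m = m → P m := fun m hm =>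
    ⟨0, Fx_zero, 0, Fx_zero, by rw [hm, sub_self, sub_self]⟩
  have hlr : ∀ m, P m → lam0 m ^ r = 1 := by
    intro m _
    rw [hlam0]
    beta_reduce
    rw [ee_pow, mul_div_cancel₀ _ hr', ee_int]
  -- the log discrepancy function
  choose vE hvE htE using fun i => exists_mon (K := K) (C.g.prim i)
  obtain ⟨Φ, hΦ⟩ := exists_phi3 hvE htE C.htor C.e'
  have hinv : ∀ u, FC C.y u → Φ (adj W u) = Φ u := fun u hu =>
    phi_inv hvE htE C.htor hΦ C.e' hn hmo (C.at_fix (hG σ1 hσ1)) hcone hfix hr hWr hu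
  have hFCW : ∀ u, FC C.y u → FC C.y (adj W u) := fun u hu => hu.adj hcone hfix
  have hAR := adj_iter hWR
  have hWC : ∀ (s : ℕ) (m : Fin n → ℤ), m ∈ Cn C.g.E → W^[s] m ∈ Cn C.g.E := by
    intro s m hm
    induction s with
    | zero => exact hm
    | succ s ih => rw [Function.iterate_succ_apply']; exact W_Cn hcone ih
  obtain ⟨d, a, w, hw, hwc, D0, hD0⟩ := exists_simplex
    (E := fun i => avg (adjH W) R (C.g.E i)) (u := U0) (by
      intro m hm
      have h1 : avg W R m ∈ Cn C.g.E := by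
        intro i
        rw [← pr_avg]
        exact hm i
      have h2 := over_inCone hov0 _ h1
      rw [pr_avg_fix hU0] at h2
      exact nonneg_of_mul_nonneg_right h2 (by exact_mod_cast hR))
  set A : Fin d → Fin n → ℤ := fun i => avg (adjH W) R (C.g.E (a i)) with hAd
  have hcoord : Coord A w U0 := hwc
  have hprA : ∀ i m, pr m (A i) = ∑ s ∈ Finset.range R, pr (W^[s] m) (C.g.E (a i)) := by
    intro i m
    rw [hAd]
    beta_reduce
    rw [pr_avg, avg, pr_sum]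
  have hAnn : ∀ i, ∀ m ∈ Cn C.g.E, 0 ≤ pr m (A i) := by
    intro i m hm
    rw [hprA]
    exact Finset.sum_nonneg fun s _ => hWC s m hm (a i)
  have hAF0 : ∀ i, ∀ m ∈ Fx C.y, pr m (A i) = 0 := by
    intro i m hm
    have h1 := coord_pr hcoord m
    rw [over_zero hov0 hm, Int.cast_zero] at h1
    have h2 := (Finset.sum_eq_zero_iff_of_nonneg fun j _ =>
      mul_nonneg (hw j).le (by exact_mod_cast hAnn j m hm.1)).1 h1.symm i (Finset.mem_univ i)
    exact_mod_cast (mul_eq_zero.1 h2).resolve_left (hw i).ne'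
  have hAc : ∀ i, FC C.y (A i) := fun i => ⟨hAnn i, hAF0 i⟩
  have haF : ∀ i, InF C.y (a i) := by
    intro i m hm
    have h1 := hAF0 i m hm
    rw [hprA] at h1
    exact (Finset.sum_eq_zero_iff_of_nonneg fun s _ => hWC s m hm.1 (a i)).1 h1 0
      (Finset.mem_range.2 hR)
  have hAU : ∀ i m, pr (W m) (A i) = pr m (A i) := by
    intro i m
    rw [← pr_adj, ← adjH_apply]
    congr 1
    exact avg_fix hAR _
  obtain ⟨D, rfl⟩ : ∃ D : ℕ, D0 = D := ⟨D0.toNat, by have := hD0.1; omega⟩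
  have hD : 0 < D := by exact_mod_cast hD0.1
  have hA : ∀ i, ∃ m, P m ∧ ∀ j, pr m (A j) = if j = i then ((R * D : ℕ) : ℤ) else 0 := by
    intro i
    obtain ⟨P0, hP0⟩ := hD0.2 i
    refine ⟨avg W R P0, hPfix _ (avg_fix hWR P0), fun j => ?_⟩
    rw [pr_avg_fix (hAU j), hP0]
    split_ifs
    · push_cast; rfl
    · rw [mul_zero]
  set β : Fin d → ℝ := fun i => C.B'.mult (vE (a i)) with hβd
  have hβ : ∀ i, β i ∈ insert 0 Γ := by
    intro i
    by_cases h : β i = 0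
    · rw [h]; exact Set.mem_insert _ _
    · exact Set.mem_insert_of_mem _ (C.coef _ (TorAff.local_E (hvE (a i)) (htE (a i))) h)
  have hΦA : ∀ i, Φ (A i) = R * (1 - β i) := by
    intro i
    rw [(avg_ray hΦ hFCW hinv (FC_E (haF i)) R).2, hΦ.ray (haF i)]
  set H := HP R P lam0 hlam1 A with hHd
  have hUB : ∀ w' : Fin d → ℝ, (∀ i, 0 < w' i) → ext R w' ∈ H →
      m ≤ ((∑ j, (k j : ℝ)) / r + c) + R * ∑ i, (1 - β i) * w' i := by
    intro w' hw' hwH
    obtain ⟨j, z, hj, h3⟩ := ext_memP hR hwH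
    have hRD : 0 < R * D := Nat.mul_pos hR hD
    choose zz hz using HP_tors hlr hA h3
    set N : ℕ := R * D * r with hNd
    have hN : 0 < N := Nat.mul_pos hRD hr
    have hN' : (N : ℝ) ≠ 0 := by exact_mod_cast hN.ne'
    have hzN : ∀ i, (zz i : ℝ) = N * w' i := by
      intro i
      rw [← hz i, hNd, mul_comm r]
    have hzz : ∀ i, 0 < zz i := by
      intro i
      have h1 : (0 : ℝ) < zz i := by
        rw [hzN]
        exact mul_pos (by exact_mod_cast hN) (hw' i)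
      exact_mod_cast h1
    set U : Fin n → ℤ := ∑ i, zz i • A i with hUd
    have hprU : ∀ m, pr m U = ∑ i, zz i * pr m (A i) := by
      intro m
      rw [hUd, pr_sum_right]
      exact Finset.sum_congr rfl fun i _ => pr_smul_right _ _ _
    have hUW : ∀ m, pr (W m) U = pr m U := by
      intro m
      rw [hprU, hprU]
      exact Finset.sum_congr rfl fun i _ => by rw [hAU]
    have hUF : ∀ m ∈ Fx C.y, pr m U = 0 := by
      intro m hm
      rw [hprU]
      exact Finset.sum_eq_zero fun i _ => by rw [hAF0 i m hm, mul_zero]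
    have hUC : ∀ m ∈ Cn C.g.E, m ∉ Fx C.y → 0 < pr m U := by
      intro m hm hmx
      rw [hprU]
      obtain ⟨i, hi⟩ : ∃ i, pr m (A i) ≠ 0 := by
        by_contra h2
        push Not at h2
        have h3 := over_pos hov0 hm hmx
        have h4 : (pr m U0 : ℝ) = 0 := by
          rw [coord_pr hcoord]
          exact Finset.sum_eq_zero fun i _ => by rw [h2 i, Int.cast_zero, mul_zero]
        have h5 : pr m U0 = 0 := by exact_mod_cast h4
        rw [hU0d] at h5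
        omega
      exact Finset.sum_pos' (fun j _ => mul_nonneg (hzz j).le (hAnn j m hm))
        ⟨i, Finset.mem_univ i, mul_pos (hzz i) (lt_of_le_of_ne (hAnn i m hm) (Ne.symm hi))⟩
    -- a natural number congruent to `j`
    obtain ⟨j', s, hj's, hj'⟩ : ∃ j' s : ℕ, j' = 1 + s * R ∧ ∃ t : ℤ, (j' : ℤ) = j + r * t := by
      have h1 : (0 : ℤ) ≤ z + r * |z| := by
        have h2 : (1 : ℤ) ≤ r := by exact_mod_cast hr
        have h3 := neg_abs_le z
        have h4 := abs_nonneg z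
        nlinarith
      refine ⟨1 + (z + r * |z|).toNat * R, (z + r * |z|).toNat, rfl, |z| * R, ?_⟩
      rw [hj]
      push_cast
      rw [Int.toNat_of_nonneg h1]
      ring
    obtain ⟨t, hj't⟩ := hj'
    obtain ⟨l', hmo', -⟩ := mo_pow_fix hmo hWR hj's
    set θ' : ℂ := ee (1 / N) with hθ'
    have hprim' : IsPrimitiveRoot θ' N := by
      rw [hθ', ← ee_root]; exact Complex.isPrimitiveRoot_exp N hN.ne'
    have hRD' : ((R * D : ℕ) : ℝ) ≠ 0 := by exact_mod_cast hRD.ne'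
    obtain ⟨κ, hEG, hκ, -⟩ := hEB.gen hr hRD (θ' := θ') (by
      rw [hθ', ee_pow]
      congr 1
      rw [hNd]
      push_cast at hRD' ⊢
      field_simp) hprim.pow_eq_one hUW hUF
    have hcomp : ∀ m1 ∈ Fx C.y, ∀ m2 ∈ Fx C.y, ∀ m3, W m3 - m3 = m1 - m2 →
        θ' ^ pr m3 U / l' m3 * yx C.y m2 = yx C.y m1 := by
      intro m1 hm1 m2 hm2 m3 hm3
      have h4 := res_pow hov0 hI hch hmo' hm1 hm2 hm3
      have h5 : θ' ^ pr m3 U = (ee (1 / r) ^ j') ^ pr m3 (tv (tw v1 C.γ) : Fin n → ℤ) := by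
        have h6 : θ' ^ pr m3 U = lam0 m3 ^ j := by
          rw [h3 m3 ⟨m1, hm1, m2, hm2, hm3⟩, hθ', ee_zpow, hprU]
          congr 1
          push_cast
          rw [Finset.sum_mul]
          refine Finset.sum_congr rfl fun i _ => ?_
          rw [hzN]
          field_simp
        have h7 : lam0 m3 ^ j = lam0 m3 ^ (j' : ℤ) := by
          rw [hj't, zpow_add₀ (hlam1 m3), zpow_mul, zpow_natCast,
            hlr m3 ⟨m1, hm1, m2, hm2, hm3⟩, one_zpow, mul_one]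
        rw [h6, h7, hlam0]
        beta_reduce
        rw [ee_zpow, ee_pow, ee_zpow]
        congr 1
        push_cast
        ring
      rw [h5]
      have e1 := hmo'.1 m3
      field_simp
      linear_combination -h4
    obtain ⟨ch, hch0, hchm, hchW, hchx⟩ := exists_char2 (hprim'.ne_zero hN.ne') hmo'.1 hmo'.add
      (F1 := Fx C.y) Fx_zero (fun _ h _ h' => Fx_add h h') (χ := yx C.y) (fun _ h => h.2)
      (fun _ h _ h' => yx_add C.y h.1 h'.1) hcomp
    obtain ⟨c0, v, a1, hc0, hov, ha1, hIv, hChv, hUc, hle⟩ := exists_val2 hmo' hN hprim' hEG hUW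
      (mono_ne hn hEG hUC) hUF hUC hch0 hchm hchW hchx
    have hl : IsLogDisc C.e' v (1 + a1 + Φ (tv v)) :=
      (disc_point hΦ hvE htE C.htor (fun m hm => hm) C.e' hov _).2 ⟨a1, ha1, rfl⟩
    obtain ⟨hov', hl''⟩ := C.back v _ hov hl
    set v' := tw v C.γ⁻¹ with hv'
    have hτ : C.γ⁻¹⁻¹ * σ ^ j' * C.γ⁻¹ = σ1 ^ j' := by
      rw [hσp]
      group
    have hIv' : InI v' (σ1 ^ j') := by rw [← hτ]; exact tw_InI hIv
    have hChv' : Ch v' (σ1 ^ j') (θ' ^ c0) := by rw [← hτ]; exact tw_Ch hChv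
    obtain ⟨hs0, -⟩ := exists_gen G v'
    set s' := Nat.card (G ⊓ Ig v' : Subgroup (K ≃ₐ[ℂ] K)) with hs'
    have hmle : m ≤ (1 + a1 + Φ (tv v)) / s' := hleast ⟨v', _, hov', hl'', by rw [card_inert]⟩
    have hpow : (σ1 ^ j') ^ s' = 1 := by
      have h1 : σ1 ^ j' ∈ (G ⊓ Ig v' : Subgroup (K ≃ₐ[ℂ] K)) :=
        ⟨Subgroup.pow_mem _ hσ1 _, mem_Ig.2 hIv'⟩
      have h2 : (⟨σ1 ^ j', h1⟩ : (G ⊓ Ig v' : Subgroup (K ≃ₐ[ℂ] K))) ^ s' = 1 :=
        pow_card_eq_one'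
      have h3 := congrArg Subtype.val h2
      simpa using h3
    have hdvd : N ∣ c0 * s' := by
      have h1 := Ch.pow' hIv' hChv' s'
      rw [hpow] at h1
      have h2 := h1.uniq Ch.one
      rw [← pow_mul] at h2
      exact (hprim'.pow_eq_one_iff_dvd _).1 h2
    have hNle : N ≤ c0 * s' := Nat.le_of_dvd (Nat.mul_pos hc0 hs0) hdvd
    have hΦU : Φ U = N * (R * ∑ i, (1 - β i) * w' i) := by
      rw [hΦ.coord hAc (w := fun i => (zz i : ℝ)) (fun i => by exact_mod_cast (hzz i).le)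
        (u := U) (fun q => by
          rw [hUd, Finset.sum_apply]
          push_cast
          exact Finset.sum_congr rfl fun i _ => by
            rw [Pi.smul_apply, smul_eq_mul]; push_cast; rfl), Finset.mul_sum, Finset.mul_sum]
      refine Finset.sum_congr rfl fun i _ => ?_
      rw [hΦA, hzN]
      ring
    have hΦUc : Φ U = c0 * Φ (tv v) := by
      conv_lhs => rw [hUc]
      exact hΦ.smul c0 (over_FC hov)
    have hs0' : (0 : ℝ) < s' := by exact_mod_cast hs0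
    have hc0' : (0 : ℝ) < c0 := by exact_mod_cast hc0
    have hN0' : (0 : ℝ) < N := by exact_mod_cast hN
    rw [le_div_iff₀ hs0'] at hmle
    have h5 : (N : ℝ) ≤ c0 * s' := by exact_mod_cast hNle
    have h7 : (c0 : ℝ) * (a1 + 1) ≤ ∑ j, (κ j : ℝ) := by exact_mod_cast hle
    have h8 : ∑ j, (κ j : ℝ) ≤ (R * D : ℕ) * (∑ j, (k j : ℝ) + r * c) := by exact_mod_cast hκ
    have h9 : ((R * D : ℕ) : ℝ) * (∑ j, (k j : ℝ) + r * c) = N * ((∑ j, (k j : ℝ)) / r + c) := by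
      rw [hNd]
      push_cast
      field_simp
    have h6 : (N : ℝ) * m ≤ N * (((∑ j, (k j : ℝ)) / r + c) + R * ∑ i, (1 - β i) * w' i) := by
      calc (N : ℝ) * m ≤ c0 * s' * m := mul_le_mul_of_nonneg_right h5 hm0
        _ = c0 * (m * s') := by ring
        _ ≤ c0 * (1 + a1 + Φ (tv v)) := mul_le_mul_of_nonneg_left hmle hc0'.le
        _ = c0 * (a1 + 1) + Φ U := by rw [hΦUc]; ring
        _ ≤ N * ((∑ j, (k j : ℝ)) / r + c) + N * (R * ∑ i, (1 - β i) * w' i) := by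
          rw [hΦU]
          linarith
        _ = _ := by ring
    exact le_of_mul_le_mul_left h6 hN0'
  -- the lower bound
  obtain ⟨cc, hcc, hb0⟩ :=
    (disc_point hΦ hvE htE C.htor (fun m hm => hm) C.e' hov0 _).1 hl0
  obtain ⟨c2, μ, hμF, hμli, hc2⟩ : ∃ (c' : ℕ) (μ : Fin c' → Fin n → ℤ),
      (∀ i, μ i ∈ {m | m ∈ Fx C.y ∧ W m = m}) ∧ LinearIndependent ℂ (fun i => cst (μ i)) ∧
      Module.finrank ℂ (Submodule.span ℂ (cst '' {m | m ∈ Fx C.y ∧ W m = m})) = c' := by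
    obtain ⟨μ, hμF, hμli⟩ := exists_mu {m | m ∈ Fx C.y ∧ W m = m}
    exact ⟨_, μ, hμF, hμli, rfl⟩
  have hLB := lower_fix C.g.e C.g.hT hcc hI hr hσr' hprim hch hmo hEB.eb μ hμli
    (fun i => (hμF i).2) (z := fun i => yx C.y (μ i)) (fun i => over_uc hov0 (hμF i).1)
  rw [hc] at hc2
  rw [← hc2] at hLB
  have hΦU0 : Φ U0 = R * ∑ i, (1 - β i) * w i := by
    rw [hΦ.coord hAc (fun i => (hw i).le) hcoord, Finset.mul_sum]
    exact Finset.sum_congr rfl fun i _ => by rw [hΦA]; ring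
  set w0 : Fin d → ℝ := fun i => w i / r with hw0
  have hw0p : ∀ i, 0 < w0 i := fun i => div_pos (hw i) hr0
  have hw0H : ext R w0 ∈ H := by
    refine ext_memP' fun m hm => ?_
    rw [hlam0]
    beta_reduce
    rw [coord_pr hcoord, Finset.sum_div]
    congr 1
    exact Finset.sum_congr rfl fun i _ => by rw [hw0]; ring
  have hge : ((∑ j, (k j : ℝ)) / r + c) + R * ∑ i, (1 - β i) * w0 i ≤ m := by
    have h1 : R * ∑ i, (1 - β i) * w0 i = Φ U0 / r := by
      rw [hΦU0, mul_div_assoc, Finset.sum_div]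
      congr 1
      exact Finset.sum_congr rfl fun i _ => by rw [hw0]; ring
    have h2 : ∑ j, (k j : ℝ) + r * c ≤ cc + 1 := by exact_mod_cast hLB
    rw [h1, hmb, hb0, le_div_iff₀ hr0]
    have h3 : ((∑ j, (k j : ℝ)) / r + c + Φ U0 / r) * r = ∑ j, (k j : ℝ) + r * c + Φ U0 := by
      field_simp
    rw [h3]
    linarith
  have heq : m = ((∑ j, (k j : ℝ)) / r + c) + R * ∑ i, (1 - β i) * w0 i :=
    le_antisymm (hUB w0 hw0p hw0H) hge
  obtain ⟨q, hq, hqe⟩ := hEB.eb.q hprim hr hR hWR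
  refine ⟨q, hq, c, hcn, d, hD0.le, ∑ i, (1 - β i) * w0 i, ?_, by rw [← hqe]; exact heq⟩
  refine ⟨H, β, HP_finite hR hr (Nat.mul_pos hR hD) hlr hA, fun h hh => HP_last hR hh, hβ,
    IsLeast.isGLB ⟨⟨w0, hw0p, hw0H, rfl⟩, ?_⟩⟩
  rintro _ ⟨w', hw', hwH, rfl⟩
  have h1 := hUB w' hw' hwH
  rw [heq] at h1
  have h2 : (R : ℝ) * ∑ i, (1 - β i) * w0 i ≤ R * ∑ i, (1 - β i) * w' i := by linarith
  exact le_of_mul_le_mul_left h2 (by exact_mod_cast hR)

theorem quot_acc3 {Γ : Set ℝ} (hΓ : Pool.Agent.TH165.ACC.IsDCC Γ) :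
    IsACC {m : ℝ | 0 ≤ m ∧ ∃ (X : AffVar K) (B : EffDiv X) (x : Pt X) (e : LocEq B x)
      (G : Subgroup (K ≃ₐ[ℂ] K)), Finite G ∧ (∀ σ ∈ G, IsGermAut e σ) ∧
      (∀ σ ∈ G, Nonempty (GermChart n Γ e σ)) ∧ IsQuotMldX e G m} := by
  rcases Nat.eq_zero_or_pos n with hn | hn
  · subst hn
    intro u hu hmem
    obtain ⟨-, X, B, x, e, G, -, -, -, ⟨⟨v, -⟩, -⟩⟩ := hmem 0
    exact (no_dval v).elim
  obtain ⟨R, hR, hRW⟩ := exists_R n
  have hacc : IsACC {m : ℝ | ∃ q ≤ n * R, m ∈ {m : ℝ | ∃ c ≤ n, m ∈ {m : ℝ | ∃ d ≤ n,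
      m ∈ {m : ℝ | ∃ a ∈ Val d R (insert 0 Γ), m = ((q : ℝ) / R + (c : ℝ)) + R * a}}}} := by
    refine acc_union (N := n * R) fun q _ => acc_union (N := n) fun c _ =>
      acc_union (N := n) fun d _ => ?_
    exact acc_affine (acc_Val hR (dcc_insert hΓ)) _ (by exact_mod_cast hR)
  intro u hu hmem
  refine hacc u hu fun k => ?_
  obtain ⟨h0, X, B, x, e, G, hfin, hG, hx, hm⟩ := hmem k
  obtain ⟨q, hq, c, hc, d, hd, a, ha, hma⟩ := core3 hR hRW hn h0 hG hx hm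
  exact ⟨q, hq, c, hc, d, hd, a, ha, hma⟩

end Q47.TV
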