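import Pool.Agent.Q47.TV.Core

/-!
# Étale morphisms and divisors over closed points
-/

set_option autoImplicit false
set_option linter.unusedSectionVars false

namespace Q47.TV

open Pool.Agent.H436R3.Fol Pool.Agent.H436R3.KT Pool.Agent.W497.Mld Pool.Agent.TH165.ACC Q47.QM

section et

variable {L Ω : Type} [Field L] [Field Ω] [Algebra ℂ L] [Algebra ℂ Ω]

/-- `v` is the restriction of the valuation `w` to the subfield `L`. -/
def Restr (i : L →ₐ[ℂ] Ω) (w : DVal Ω) (v : DVal L) : Prop := ∀ f : L, v.ord f = w.ord (i f)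

/-- The properties of a morphism `p : U → X`, `i` the inclusion of the function fields, which is étale
at `u`, `x = p (u)`: functions on `X` are functions on `U` with the same values, restriction is a
bijection of the divisors over `u` and the divisors over `x`, and the residue fields agree. -/
structure IsEtale (i : L →ₐ[ℂ] Ω) {X : AffVar L} (x : Pt X) {U : AffVar Ω} (u : Pt U) : Prop where
  map : ∀ f : X.R, ∃ f' : U.R, (f' : Ω) = i f ∧ x f = u f'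
  restr : ∀ w : DVal Ω, IsOverGerm u w → ∃ v : DVal L, IsOverGerm x v ∧ Restr i w v
  lift : ∀ v : DVal L, IsOverGerm x v → ∃ w : DVal Ω, IsOverGerm u w ∧ Restr i w v
  uniq : ∀ (w w' : DVal Ω) (v : DVal L), IsOverGerm u w → IsOverGerm u w' → Restr i w v →
    Restr i w' v → ∀ f, f ≠ 0 → w.ord f = w'.ord f
  resid : ∀ w : DVal Ω, IsOverGerm u w → ∀ f, w.Reg f → ∃ f0 : L, w.Pos (f - i f0)

theorem dval_ext {v v' : DVal L} (h : ∀ f, v.ord f = v'.ord f) : v = v' := by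
  cases v
  cases v'
  simp only [DVal.mk.injEq]
  exact funext h

theorem i_ne (i : L →ₐ[ℂ] Ω) {f : L} (hf : f ≠ 0) : i f ≠ 0 := fun h =>
  hf (i.toRingHom.injective (by rw [map_zero]; exact h))

theorem pos_restr {i : L →ₐ[ℂ] Ω} {w : DVal Ω} {v : DVal L} (h : Restr i w v) {f : L} :
    v.Pos f ↔ w.Pos (i f) := by
  constructor
  · rintro (h1 | h1)
    · left; rw [h1, map_zero]
    · right; rw [← h]; exact h1
  · rintro (h1 | h1)
    · left
      by_contra h2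
      exact i_ne i h2 h1
    · right; rw [h]; exact h1

theorem reg_restr {i : L →ₐ[ℂ] Ω} {w : DVal Ω} {v : DVal L} (h : Restr i w v) {f : L} :
    v.Reg f ↔ w.Reg (i f) := by
  constructor
  · rintro (h1 | h1)
    · left; rw [h1, map_zero]
    · right; rw [← h]; exact h1
  · rintro (h1 | h1)
    · left
      by_contra h2
      exact i_ne i h2 h1
    · right; rw [h]; exact h1

theorem over_tw {U : AffVar Ω} {u : Pt U} {ρ : Ω ≃ₐ[ℂ] Ω} (hU : ∀ f, ρ f ∈ U.R ↔ f ∈ U.R)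
    (hu : FixesPt u ρ) {w : DVal Ω} (h : IsOverGerm u w) : IsOverGerm u (tw w ρ) := by
  obtain ⟨⟨S, hS, hUS, hSw⟩, hP⟩ := h
  refine ⟨⟨S.map (ρ.symm : Ω →ₐ[ℂ] Ω), hS.map _, ?_, ?_, ?_⟩, ?_⟩
  · intro f hf
    exact ⟨ρ f, hUS ((hU f).2 hf), ρ.symm_apply_apply f⟩
  · rintro _ ⟨f, hf, rfl⟩
    rw [tw_reg]
    have h1 : ρ ((ρ.symm : Ω →ₐ[ℂ] Ω) f) = f := ρ.apply_symm_apply f
    change w.Reg (ρ ((ρ.symm : Ω →ₐ[ℂ] Ω) f))
    rw [h1]
    exact hSw.1 f hf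
  · intro f hf
    rw [tw_reg] at hf
    obtain ⟨a, b, ha, hb, hb0, hob, hab⟩ := hSw.2 _ hf
    refine ⟨ρ.symm a, ρ.symm b, ⟨a, ha, rfl⟩, ⟨b, hb, rfl⟩, ?_, ?_, ?_⟩
    · intro h1
      apply hb0
      have h2 := congrArg ρ h1
      rwa [ρ.apply_symm_apply, map_zero] at h2
    · change w.ord (ρ (ρ.symm b)) = 0
      rw [ρ.apply_symm_apply, hob]
    · apply ρ.injective
      rw [map_mul, ρ.apply_symm_apply, ρ.apply_symm_apply, hab]
  · intro f
    rw [tw_pos, hP ⟨ρ f, (hU _).2 f.2⟩, ← hu f ⟨ρ f, (hU _).2 f.2⟩ rfl]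

variable {K : Type} [Field K] [Algebra ℂ K]

/-- Divisors over `x` with their inertia, and divisors over `y`, for `X ← U → Y` étale. -/
theorem transfer {i : L →ₐ[ℂ] Ω} {j : K →ₐ[ℂ] Ω} {X : AffVar L} {x : Pt X} {Y : AffVar K}
    {y : Pt Y} {U : AffVar Ω} {u : Pt U} (hi : IsEtale i x u) (hj : IsEtale j y u)
    {σ : L ≃ₐ[ℂ] L} {τ : K ≃ₐ[ℂ] K} {ρ : Ω ≃ₐ[ℂ] Ω} (h1 : ∀ f, ρ (i f) = i (σ f))
    (h2 : ∀ f, ρ (j f) = j (τ f)) (hU : ∀ f, ρ f ∈ U.R ↔ f ∈ U.R) (hu : FixesPt u ρ)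
    {v : DVal L} (hv : IsOverGerm x v) {z : ℂ} (hI : InI v σ) (hch : Ch v σ z) :
    ∃ (w : DVal Ω) (v' : DVal K), IsOverGerm u w ∧ Restr i w v ∧ IsOverGerm y v' ∧
      Restr j w v' ∧ InI v' τ ∧ Ch v' τ z := by
  obtain ⟨w, hw, hwv⟩ := hi.lift v hv
  have hwv2 : Restr i (tw w ρ) v := fun f => by
    change v.ord f = w.ord (ρ (i f))
    rw [h1, ← hwv]
    by_cases hf : f = 0
    · rw [hf, map_zero]
    · exact (hI.ord hf).symm
  have hord : ∀ f, f ≠ 0 → w.ord (ρ f) = w.ord f := fun f hf =>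
    hi.uniq (tw w ρ) w v (over_tw hU hu hw) hw hwv2 hwv f hf
  have hposr : ∀ f, w.Pos f → w.Pos (ρ f) := by
    intro f hf
    by_cases h0 : f = 0
    · left; rw [h0, map_zero]
    · right
      rw [hord f h0]
      exact hf.resolve_left h0
  have hIw : InI w ρ := by
    intro f hf
    obtain ⟨f0, hf0⟩ := hi.resid w hw f hf
    have h3 : w.Reg (i f0) := by
      have e1 : i f0 = f - (f - i f0) := by ring
      rw [e1]
      rcases hf0 with h4 | h4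
      · rw [h4, sub_zero]; exact hf
      · have h5 : w.Reg (f - i f0) := Or.inr h4.le
        have h6 := w.reg_add hf (w.reg_mul (w.reg_const (-1)) h5)
        rw [map_neg, map_one, neg_one_mul, ← sub_eq_add_neg] at h6
        exact h6
    have h6 := (pos_restr hwv).1 (hI f0 ((reg_restr hwv).2 h3))
    have e1 : ρ f - f = (ρ (f - i f0) + i (σ f0 - f0)) - (f - i f0) := by
      rw [map_sub, map_sub, h1]; ring
    rw [e1]
    exact pos_sub (w.pos_add (hposr _ hf0) h6) hf0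
  have hChw : Ch w ρ z := by
    obtain ⟨π, hπ, h1π⟩ := v.surj
    have h3 := hch.2 π hπ
    rw [h1π, zpow_one] at h3
    refine ch_of_pi hIw (π := i π) (i_ne i hπ) (by rw [← hwv, h1π]) ⟨h3.1, ?_⟩
    have h4 := (pos_restr hwv).1 h3.2
    rw [map_sub, map_div₀, AlgHom.commutes] at h4
    rw [h1]
    exact h4
  obtain ⟨v', hv', hwv'⟩ := hj.restr w hw
  refine ⟨w, v', hw, hwv, hv', hwv', fun f hf => ?_, hch.1, fun f hf => ⟨zpow_ne_zero _ hch.1, ?_⟩⟩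
  · rw [pos_restr hwv', map_sub, ← h2]
    exact hIw _ ((reg_restr hwv').1 hf)
  · rw [pos_restr hwv', map_sub, map_div₀, AlgHom.commutes, ← h2, hwv']
    exact (hChw.2 (j f) (i_ne j hf)).2

theorem at_fix_et {i : L →ₐ[ℂ] Ω} {j : K →ₐ[ℂ] Ω} {X : AffVar L} {B : EffDiv X} {x : Pt X}
    {e : LocEq B x} {Y : AffVar K} {B' : EffDiv Y} {y : Pt Y} {e' : LocEq B' y}
    {U : AffVar Ω} {u : Pt U} (hi : IsEtale i x u) (hj : IsEtale j y u)
    (hd : ∀ (w : DVal Ω) (v : DVal L) (v' : DVal K), IsOverGerm u w → Restr i w v →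
      Restr j w v' → ∀ b, IsLogDisc e v b ↔ IsLogDisc e' v' b)
    {σ : L ≃ₐ[ℂ] L} {τ : K ≃ₐ[ℂ] K} {ρ : Ω ≃ₐ[ℂ] Ω} (h1 : ∀ f, ρ (i f) = i (σ f))
    (h2 : ∀ f, ρ (j f) = j (τ f)) (hU : ∀ f, ρ f ∈ U.R ↔ f ∈ U.R) (hu : FixesPt u ρ)
    (hσ : IsGermAut e σ) (v' : DVal K) (b : ℝ) (hov : IsOverGerm y v')
    (hb : IsLogDisc e' v' b) : IsOverGerm y (tw v' τ) ∧ IsLogDisc e' (tw v' τ) b := by
  obtain ⟨w, hw, hwv'⟩ := hj.lift v' hov
  obtain ⟨v, hv, hwv⟩ := hi.restr w hw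
  have h3 := (hd w v v' hw hwv hwv' b).2 hb
  obtain ⟨h4, h5⟩ := (hσ v b).1 ⟨hv, h3⟩
  have hw2 := over_tw hU hu hw
  have hr2 : Restr i (tw w ρ) (tw v σ) := fun f => by
    change v.ord (σ f) = w.ord (ρ (i f))
    rw [h1, ← hwv]
  obtain ⟨v'', hv'', hwv''⟩ := hj.restr (tw w ρ) hw2
  have h6 : v'' = tw v' τ := dval_ext fun f => by
    rw [hwv'']
    change w.ord (ρ (j f)) = v'.ord (τ f)
    rw [h2, ← hwv']
  rw [← h6]
  exact ⟨hv'', (hd (tw w ρ) (tw v σ) v'' hw2 hr2 hwv'' b).1 h5⟩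

end et

end Q47.TV
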