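import Pool.Agent.Q47.TV.EtAcc
import Pool.Agent.Q47.TV.Bdd

/-!
# Divisors computing minimal log discrepancies of quotients, with bounded log discrepancy: étale charts
-/

set_option autoImplicit false
set_option linter.unusedSectionVars false

namespace Q47.TV

open Pool.Agent.H436R3.Fol Pool.Agent.H436R3.KT Pool.Agent.W497.Mld Pool.Agent.TH165.ACC Q47.QM

variable {n : ℕ} {K : Type} [Field K] [Algebra ℂ K]
  [Algebra (MvPolynomial (Fin n) ℂ) K] [IsFractionRing (MvPolynomial (Fin n) ℂ) K]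
  [IsScalarTower ℂ (MvPolynomial (Fin n) ℂ) K]

/-- An étale toric chart at the closed point `x` for the automorphism `σ`, compatible with the boundary
and with the empty boundary: an affine toric variety `g` with a torus invariant boundary `B'` with
coefficients at most `1`, a closed point `y` of it at which `K` and `K + B'` are `ℝ`-Cartier and a
monomial automorphism `τ`, and an affine variety `U` with function field `Ω`, an automorphism `ρ`, a
fixed point `u` and morphisms `U → X` and `U → g`, `u ↦ x` and `u ↦ y`, which are étale at `u`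
(`IsEtale`), such that `ρ` lies over `σ` and `τ` and the pull-backs of `K_X + B` and of the toric one, and
those of `K_X` and of the toric one, agree at `u` (`disc`, `disc0`). -/
structure EtGerm2 (n : ℕ) (K : Type) [Field K] [Algebra ℂ K]
    [Algebra (MvPolynomial (Fin n) ℂ) K] [IsFractionRing (MvPolynomial (Fin n) ℂ) K]
    [IsScalarTower ℂ (MvPolynomial (Fin n) ℂ) K] {L : Type} [Field L] [Algebra ℂ L]
    {X : AffVar L} {B : EffDiv X} {x : Pt X} (e : LocEq B x) (e0 : LocEq (zeroDiv X) x)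
    (σ : L ≃ₐ[ℂ] L) where
  g : TorAff n K
  B' : EffDiv g.X
  le_one : ∀ v : DVal K, B'.mult v ≤ 1
  htor : ∀ v : DVal K, (∀ i : Fin n, v.ord (cv K i) = 0) → B'.mult v = 0
  y : Pt g.X
  e' : LocEq B' y
  e0' : LocEq (zeroDiv g.X) y
  τ : K ≃ₐ[ℂ] K
  aut : ∀ c, τ c ∈ g.X.R ↔ c ∈ g.X.R
  mono : IsMono n τ
  ord : ∀ N : ℕ, σ ^ N = 1 → τ ^ N = 1
  Ω : Type
  [fΩ : Field Ω]
  [aΩ : Algebra ℂ Ω]
  U : AffVar Ω
  ρ : Ω ≃ₐ[ℂ] Ω
  autU : ∀ f, ρ f ∈ U.R ↔ f ∈ U.R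
  i : L →ₐ[ℂ] Ω
  j : K →ₐ[ℂ] Ω
  comX : ∀ f, ρ (i f) = i (σ f)
  comY : ∀ f, ρ (j f) = j (τ f)
  u : Pt U
  fixU : FixesPt u ρ
  etX : IsEtale i x u
  etY : IsEtale j y u
  disc : ∀ (w : DVal Ω) (v : DVal L) (v' : DVal K), IsOverGerm u w → Restr i w v →
    Restr j w v' → ∀ b, IsLogDisc e v b ↔ IsLogDisc e' v' b
  disc0 : ∀ (w : DVal Ω) (v : DVal L) (v' : DVal K), IsOverGerm u w → Restr i w v →
    Restr j w v' → ∀ b, IsLogDisc e0 v b ↔ IsLogDisc e0' v' b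

attribute [instance] EtGerm2.fΩ EtGerm2.aΩ

variable {L : Type} [Field L] [Algebra ℂ L]

theorem bdd_et {R : ℕ} (hR : 0 < R)
    (hRW : ∀ (W : (Fin n → ℤ) →+ (Fin n → ℤ)) (r : ℕ), 0 < r → (∀ m, W^[r] m = m) →
      ∀ m, W^[R] m = m) (hn : 0 < n)
    {X : AffVar L} {BX : EffDiv X} {x : Pt X} {e : LocEq BX x} {e0 : LocEq (zeroDiv X) x}
    {G : Subgroup (L ≃ₐ[ℂ] L)} [Finite G] {m : ℝ} (hm0 : 0 ≤ m)
    (hG : ∀ σ ∈ G, IsGermAut e σ) (hG0 : ∀ σ ∈ G, IsGermAut e0 σ)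
    (hx : ∀ σ ∈ G, Nonempty (EtGerm2 n K e e0 σ)) (hm : IsQuotMldX e G m) :
    ∃ (v : DVal L) (b b0 : ℝ), IsOverGerm x v ∧ IsLogDisc e v b ∧ IsLogDisc e0 v b0 ∧
      m = b / Nat.card {σ : G // ∀ f, v.Reg f → v.Pos ((σ : L ≃ₐ[ℂ] L) f - f)} ∧
      b0 / Nat.card {σ : G // ∀ f, v.Reg f → v.Pos ((σ : L ≃ₐ[ℂ] L) f - f)} ≤
        (R + 2) * n := by
  classical
  obtain ⟨⟨v1, b0, hov1, hl1, hmb⟩, hleast⟩ := hm
  rw [card_inert] at hmb
  obtain ⟨hr, σ1, hσ1, hI1, hσr, hch1⟩ := exists_gen G v1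
  set r := Nat.card (G ⊓ Ig v1 : Subgroup (L ≃ₐ[ℂ] L)) with hrd
  have hprim : IsPrimitiveRoot (ee (1 / r)) r := by
    rw [← ee_root]; exact Complex.isPrimitiveRoot_exp r hr.ne'
  rw [ee_root] at hch1
  obtain ⟨C⟩ := hx σ1 hσ1
  have hσr' : C.τ ^ r = 1 := C.ord r hσr
  obtain ⟨w1, v0, hw1, hr1, hov0, hr1', hI, hch⟩ :=
    transfer C.etX C.etY C.comX C.comY C.autU C.fixU hov1 hI1 hch1
  have hl0 : IsLogDisc C.e' v0 b0 := (C.disc w1 v1 v0 hw1 hr1 hr1' b0).1 hl1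
  obtain ⟨W, l, hmo⟩ := exists_mo C.mono
  have hWr := hmo.iter_eq hσr'
  have hWR := hRW W r hr hWr
  have hcone : ∀ u, C.g.InCone u → C.g.InCone (adj W u) := cone_aut hmo C.aut
  have hfix : Fixes C.y W l := fixes_of_InI hmo hcone hov0 hI
  obtain ⟨c, hc⟩ : ∃ c, Module.finrank ℂ (Submodule.span ℂ
    (cst '' {m | m ∈ Fx C.y ∧ W m = m})) = c := ⟨_, rfl⟩
  have hcn : c ≤ n := by
    rw [← hc]
    have h1 := Submodule.finrank_le (Submodule.span ℂ (cst '' {m | m ∈ Fx C.y ∧ W m = m}))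
    rwa [Module.finrank_fin_fun] at h1
  obtain ⟨k, yy, J, hEB⟩ := exists_eb2 hprim hr hWr (F := Fx C.y)
    (fun m hm => hfix.avg hcone hm r) hc
  set U0 : Fin n → ℤ := tv v0 with hU0d
  have hU0 : ∀ m, pr (W m) U0 = pr m U0 := by
    intro m
    rw [← pr_adj, hmo.adj_tv hI]
  have hr' : (r : ℝ) ≠ 0 := by exact_mod_cast hr.ne'
  have hR' : (R : ℝ) ≠ 0 := by exact_mod_cast hR.ne'
  have hr0 : (0 : ℝ) < r := by exact_mod_cast hr
  -- the character
  set lam0 : (Fin n → ℤ) → ℂ := fun m => ee ((pr m U0 : ℝ) / r) with hlam0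
  have hlam1 : ∀ m, lam0 m ≠ 0 := fun m => ee_ne _
  set P : (Fin n → ℤ) → Prop := fun m => ∃ m1 ∈ Fx C.y, ∃ m2 ∈ Fx C.y, W m - m = m1 - m2 with hPd
  have hPfix : ∀ m, W m = m → P m := fun m hm =>
    ⟨0, Fx_zero, 0, Fx_zero, by rw [hm, sub_self, sub_self]⟩
  have hlr : ∀ m, P m → lam0 m ^ r = 1 := by
    intro m _
    rw [hlam0]
    beta_reduce
    rw [ee_pow, mul_div_cancel₀ _ hr', ee_int]
  -- the log discrepancy function
  choose vE hvE htE using fun i => exists_mon (K := K) (C.g.prim i)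
  obtain ⟨Φ, hΦ⟩ := exists_phi3 hvE htE C.htor C.e'
  have hinv : ∀ u, FC C.y u → Φ (adj W u) = Φ u := fun u hu =>
    phi_inv hvE htE C.htor hΦ C.e' hn hmo (at_fix_et C.etX C.etY C.disc C.comX C.comY C.autU
      C.fixU (hG σ1 hσ1)) hcone hfix hr hWr hu
  have hFCW : ∀ u, FC C.y u → FC C.y (adj W u) := fun u hu => hu.adj hcone hfix
  have hAR := adj_iter hWR
  have hWC : ∀ (s : ℕ) (m : Fin n → ℤ), m ∈ Cn C.g.E → W^[s] m ∈ Cn C.g.E := by
    intro s m hm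
    induction s with
    | zero => exact hm
    | succ s ih => rw [Function.iterate_succ_apply']; exact W_Cn hcone ih
  obtain ⟨d, a, w, hw, hwc, D0, hD0⟩ := exists_simplex
    (E := fun i => avg (adjH W) R (C.g.E i)) (u := U0) (by
      intro m hm
      have h1 : avg W R m ∈ Cn C.g.E := by
        intro i
        rw [← pr_avg]
        exact hm i
      have h2 := over_inCone hov0 _ h1
      rw [pr_avg_fix hU0] at h2
      exact nonneg_of_mul_nonneg_right h2 (by exact_mod_cast hR))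
  set A : Fin d → Fin n → ℤ := fun i => avg (adjH W) R (C.g.E (a i)) with hAd
  have hcoord : Coord A w U0 := hwc
  have hprA : ∀ i m, pr m (A i) = ∑ s ∈ Finset.range R, pr (W^[s] m) (C.g.E (a i)) := by
    intro i m
    rw [hAd]
    beta_reduce
    rw [pr_avg, avg, pr_sum]
  have hAnn : ∀ i, ∀ m ∈ Cn C.g.E, 0 ≤ pr m (A i) := by
    intro i m hm
    rw [hprA]
    exact Finset.sum_nonneg fun s _ => hWC s m hm (a i)
  have hAF0 : ∀ i, ∀ m ∈ Fx C.y, pr m (A i) = 0 := by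
    intro i m hm
    have h1 := coord_pr hcoord m
    rw [over_zero hov0 hm, Int.cast_zero] at h1
    have h2 := (Finset.sum_eq_zero_iff_of_nonneg fun j _ =>
      mul_nonneg (hw j).le (by exact_mod_cast hAnn j m hm.1)).1 h1.symm i (Finset.mem_univ i)
    exact_mod_cast (mul_eq_zero.1 h2).resolve_left (hw i).ne'
  have hAc : ∀ i, FC C.y (A i) := fun i => ⟨hAnn i, hAF0 i⟩
  have haF : ∀ i, InF C.y (a i) := by
    intro i m hm
    have h1 := hAF0 i m hm
    rw [hprA] at h1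
    exact (Finset.sum_eq_zero_iff_of_nonneg fun s _ => hWC s m hm.1 (a i)).1 h1 0
      (Finset.mem_range.2 hR)
  have hAU : ∀ i m, pr (W m) (A i) = pr m (A i) := by
    intro i m
    rw [← pr_adj, ← adjH_apply]
    congr 1
    exact avg_fix hAR _
  obtain ⟨D, rfl⟩ : ∃ D : ℕ, D0 = D := ⟨D0.toNat, by have := hD0.1; omega⟩
  have hD : 0 < D := by exact_mod_cast hD0.1
  have hA : ∀ i, ∃ m, P m ∧ ∀ j, pr m (A j) = if j = i then ((R * D : ℕ) : ℤ) else 0 := by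
    intro i
    obtain ⟨P0, hP0⟩ := hD0.2 i
    refine ⟨avg W R P0, hPfix _ (avg_fix hWR P0), fun j => ?_⟩
    rw [pr_avg_fix (hAU j), hP0]
    split_ifs
    · push_cast; rfl
    · rw [mul_zero]
  set β : Fin d → ℝ := fun i => C.B'.mult (vE (a i)) with hβd
  have hΦA : ∀ i, Φ (A i) = R * (1 - β i) := by
    intro i
    rw [(avg_ray hΦ hFCW hinv (FC_E (haF i)) R).2, hΦ.ray (haF i)]
  -- the lower bound
  obtain ⟨cc, hcc, hb0⟩ :=
    (disc_point hΦ hvE htE C.htor (fun m hm => hm) C.e' hov0 _).1 hl0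
  obtain ⟨c2, μ, hμF, hμli, hc2⟩ : ∃ (c' : ℕ) (μ : Fin c' → Fin n → ℤ),
      (∀ i, μ i ∈ {m | m ∈ Fx C.y ∧ W m = m}) ∧ LinearIndependent ℂ (fun i => cst (μ i)) ∧
      Module.finrank ℂ (Submodule.span ℂ (cst '' {m | m ∈ Fx C.y ∧ W m = m})) = c' := by
    obtain ⟨μ, hμF, hμli⟩ := exists_mu {m | m ∈ Fx C.y ∧ W m = m}
    exact ⟨_, μ, hμF, hμli, rfl⟩
  have hLB := lower_fix C.g.e C.g.hT hcc hI hr hσr' hprim hch hmo hEB.eb μ hμli
    (fun i => (hμF i).2) (z := fun i => yx C.y (μ i)) (fun i => over_uc hov0 (hμF i).1)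
  rw [hc] at hc2
  rw [← hc2] at hLB
  have hΦU0 : Φ U0 = R * ∑ i, (1 - β i) * w i := by
    rw [hΦ.coord hAc (fun i => (hw i).le) hcoord, Finset.mul_sum]
    exact Finset.sum_congr rfl fun i _ => by rw [hΦA]; ring
  set w0 : Fin d → ℝ := fun i => w i / r with hw0
  have hw0p : ∀ i, 0 < w0 i := fun i => div_pos (hw i) hr0
  have hge : ((∑ j, (k j : ℝ)) / r + c) + R * ∑ i, (1 - β i) * w0 i ≤ m := by
    have h1 : R * ∑ i, (1 - β i) * w0 i = Φ U0 / r := by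
      rw [hΦU0, mul_div_assoc, Finset.sum_div]
      congr 1
      exact Finset.sum_congr rfl fun i _ => by rw [hw0]; ring
    have h2 : ∑ j, (k j : ℝ) + r * c ≤ cc + 1 := by exact_mod_cast hLB
    rw [h1, hmb, hb0, le_div_iff₀ hr0]
    have h3 : ((∑ j, (k j : ℝ)) / r + c + Φ U0 / r) * r = ∑ j, (k j : ℝ) + r * c + Φ U0 := by
      field_simp
    rw [h3]
    linarith
  -- the reduced coordinates
  set qq : Fin d → ℤ := fun i => ⌈w0 i⌉ - 1 with hqq
  have hqq0 : ∀ i, 0 ≤ qq i := fun i => by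
    have h1 : 0 < ⌈w0 i⌉ := Int.ceil_pos.2 (hw0p i)
    rw [hqq]
    beta_reduce
    omega
  set w' : Fin d → ℝ := fun i => w0 i - qq i with hw'd
  have hw' : ∀ i, 0 < w' i := fun i => by
    have h1 := Int.ceil_lt_add_one (w0 i)
    rw [hw'd, hqq]
    push_cast
    linarith
  have hw'1 : ∀ i, w' i ≤ 1 := fun i => by
    have h1 := Int.le_ceil (w0 i)
    rw [hw'd, hqq]
    push_cast
    linarith
  have hval : ∑ i, (1 - β i) * w' i ≤ ∑ i, (1 - β i) * w0 i := by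
    refine Finset.sum_le_sum fun i _ => mul_le_mul_of_nonneg_left ?_
      (sub_nonneg.2 (C.le_one _))
    have h1 : (0 : ℝ) ≤ qq i := by exact_mod_cast hqq0 i
    rw [hw'd]
    linarith
  have hRD : 0 < R * D := Nat.mul_pos hR hD
  set N : ℕ := R * D * r with hNd
  have hN : 0 < N := Nat.mul_pos hRD hr
  have hN' : (N : ℝ) ≠ 0 := by exact_mod_cast hN.ne'
  choose μd hμP hμA using hA
  set zz : Fin d → ℤ := fun i => pr (μd i) U0 - N * qq i with hzzd
  have hzN : ∀ i, (zz i : ℝ) = N * w' i := by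
    intro i
    have h1 := coord_pr hcoord (μd i)
    have h2 : ∑ j, w j * (pr (μd i) (A j) : ℝ) = w i * (R * D : ℕ) := by
      rw [Finset.sum_eq_single i]
      · rw [hμA, if_pos rfl]; push_cast; rfl
      · intro j _ hj
        rw [hμA, if_neg hj, Int.cast_zero, mul_zero]
      · intro h; exact absurd (Finset.mem_univ _) h
    rw [h2] at h1
    rw [hzzd, hw'd, hw0]
    push_cast at h1 ⊢
    rw [h1, hNd]
    push_cast
    field_simp
  have hzz : ∀ i, 0 < zz i := by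
    intro i
    have h1 : (0 : ℝ) < zz i := by
      rw [hzN]
      exact mul_pos (by exact_mod_cast hN) (hw' i)
    exact_mod_cast h1
  set U : Fin n → ℤ := ∑ i, zz i • A i with hUd
  have hprU : ∀ m, pr m U = ∑ i, zz i * pr m (A i) := by
    intro m
    rw [hUd, pr_sum_right]
    exact Finset.sum_congr rfl fun i _ => pr_smul_right _ _ _
  have hUW : ∀ m, pr (W m) U = pr m U := by
    intro m
    rw [hprU, hprU]
    exact Finset.sum_congr rfl fun i _ => by rw [hAU]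
  have hUF : ∀ m ∈ Fx C.y, pr m U = 0 := by
    intro m hm
    rw [hprU]
    exact Finset.sum_eq_zero fun i _ => by rw [hAF0 i m hm, mul_zero]
  have hUC : ∀ m ∈ Cn C.g.E, m ∉ Fx C.y → 0 < pr m U := by
    intro m hm hmx
    rw [hprU]
    obtain ⟨i, hi⟩ : ∃ i, pr m (A i) ≠ 0 := by
      by_contra h2
      push Not at h2
      have h3 := over_pos hov0 hm hmx
      have h4 : (pr m U0 : ℝ) = 0 := by
        rw [coord_pr hcoord]
        exact Finset.sum_eq_zero fun i _ => by rw [h2 i, Int.cast_zero, mul_zero]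
      have h5 : pr m U0 = 0 := by exact_mod_cast h4
      rw [hU0d] at h5
      omega
    exact Finset.sum_pos' (fun j _ => mul_nonneg (hzz j).le (hAnn j m hm))
      ⟨i, Finset.mem_univ i, mul_pos (hzz i) (lt_of_le_of_ne (hAnn i m hm) (Ne.symm hi))⟩
  set θ' : ℂ := ee (1 / N) with hθ'
  have hprim' : IsPrimitiveRoot θ' N := by
    rw [hθ', ← ee_root]; exact Complex.isPrimitiveRoot_exp N hN.ne'
  have hRD' : ((R * D : ℕ) : ℝ) ≠ 0 := by exact_mod_cast hRD.ne'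
  obtain ⟨κ, hEG, hκ, -⟩ := hEB.gen hr hRD (θ' := θ') (by
    rw [hθ', ee_pow]
    congr 1
    rw [hNd]
    push_cast at hRD' ⊢
    field_simp) hprim.pow_eq_one hUW hUF
  have hcomp : ∀ m1 ∈ Fx C.y, ∀ m2 ∈ Fx C.y, ∀ m3, W m3 - m3 = m1 - m2 →
      θ' ^ pr m3 U / l m3 * yx C.y m2 = yx C.y m1 := by
    intro m1 hm1 m2 hm2 m3 hm3
    have h4 := res_pow (j := 1) hov0 hI hch (by rw [pow_one]; exact hmo) hm1 hm2 hm3
    have h5 : θ' ^ pr m3 U = (ee (1 / r) ^ 1) ^ pr m3 (tv v0 : Fin n → ℤ) := by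
      rw [pow_one, hθ', ee_zpow, ee_zpow]
      have h6 : (pr m3 U : ℝ) * (1 / N) = (pr m3 U0 : ℝ) * (1 / r) +
          ((-∑ i, qq i * pr m3 (A i) : ℤ) : ℝ) := by
        rw [hprU, coord_pr hcoord]
        push_cast
        rw [Finset.sum_mul, Finset.sum_mul, ← Finset.sum_neg_distrib, ← Finset.sum_add_distrib]
        refine Finset.sum_congr rfl fun i _ => ?_
        rw [hzN, hw'd, hw0]
        field_simp
        ring
      rw [h6, ee_add, ee_int, mul_one]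
    rw [h5, div_mul_eq_mul_div, ← h4, mul_div_cancel_left₀ _ (hmo.1 m3)]
  obtain ⟨ch, hch0, hchm, hchW, hchx⟩ := exists_char2 (hprim'.ne_zero hN.ne') hmo.1 hmo.add
    (F1 := Fx C.y) Fx_zero (fun _ h _ h' => Fx_add h h') (χ := yx C.y) (fun _ h => h.2)
    (fun _ h _ h' => yx_add C.y h.1 h'.1) hcomp
  obtain ⟨c0, v, a1, hc0, hov, ha1, hIv, hChv, hUc, hle⟩ := exists_val2 hmo hN hprim' hEG hUW
    (mono_ne hn hEG hUC) hUF hUC hch0 hchm hchW hchx
  have hl : IsLogDisc C.e' v (1 + a1 + Φ (tv v)) :=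
    (disc_point hΦ hvE htE C.htor (fun m hm => hm) C.e' hov _).2 ⟨a1, ha1, rfl⟩
  obtain ⟨w2, v', hw2, hr2, hov', hr2', hIv', hChv'⟩ :=
    transfer C.etY C.etX C.comY C.comX C.autU C.fixU hov hIv hChv
  have hl'' := (C.disc w2 v' v hw2 hr2' hr2 _).2 hl
  obtain ⟨hs0, -⟩ := exists_gen G v'
  set s' := Nat.card (G ⊓ Ig v' : Subgroup (L ≃ₐ[ℂ] L)) with hs'
  have hmle : m ≤ (1 + a1 + Φ (tv v)) / s' := hleast ⟨v', _, hov', hl'', by rw [card_inert]⟩
  have hpow : σ1 ^ s' = 1 := by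
    have h1 : σ1 ∈ (G ⊓ Ig v' : Subgroup (L ≃ₐ[ℂ] L)) :=
      ⟨hσ1, mem_Ig.2 hIv'⟩
    have h2 : (⟨σ1, h1⟩ : (G ⊓ Ig v' : Subgroup (L ≃ₐ[ℂ] L))) ^ s' = 1 :=
      pow_card_eq_one'
    have h3 := congrArg Subtype.val h2
    simpa using h3
  have hdvd : N ∣ c0 * s' := by
    have h1 := Ch.pow' hIv' hChv' s'
    rw [hpow] at h1
    have h2 := h1.uniq Ch.one
    rw [← pow_mul] at h2
    exact (hprim'.pow_eq_one_iff_dvd _).1 h2
  have hNle : N ≤ c0 * s' := Nat.le_of_dvd (Nat.mul_pos hc0 hs0) hdvd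
  have hΦU : Φ U = N * (R * ∑ i, (1 - β i) * w' i) := by
    rw [hΦ.coord hAc (w := fun i => (zz i : ℝ)) (fun i => by exact_mod_cast (hzz i).le)
      (u := U) (fun q => by
        rw [hUd, Finset.sum_apply]
        push_cast
        exact Finset.sum_congr rfl fun i _ => by
          rw [Pi.smul_apply, smul_eq_mul]; push_cast; rfl), Finset.mul_sum, Finset.mul_sum]
    refine Finset.sum_congr rfl fun i _ => ?_
    rw [hΦA, hzN]
    ring
  have hΦUc : Φ U = c0 * Φ (tv v) := by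
    conv_lhs => rw [hUc]
    exact hΦ.smul c0 (over_FC hov)
  -- the log discrepancy function of the empty boundary
  have htor0 : ∀ v : DVal K, (∀ i : Fin n, v.ord (cv K i) = 0) → (zeroDiv C.g.X).mult v = 0 :=
    fun v _ => mult_zeroDiv v
  obtain ⟨Φ0, hΦ0⟩ := exists_phi3 (B := zeroDiv C.g.X) hvE htE htor0 C.e0'
  have hinv0 : ∀ u, FC C.y u → Φ0 (adj W u) = Φ0 u := fun u hu =>
    phi_inv hvE htE htor0 hΦ0 C.e0' hn hmo (at_fix_et C.etX C.etY C.disc0 C.comX C.comY C.autU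
      C.fixU (hG0 σ1 hσ1)) hcone hfix hr hWr hu
  have hΦ0A : ∀ i, Φ0 (A i) = R := by
    intro i
    rw [(avg_ray hΦ0 hFCW hinv0 (FC_E (haF i)) R).2, hΦ0.ray (haF i), mult_zeroDiv]
    ring
  have hΦ0U : Φ0 U ≤ N * (R * n) := by
    rw [hΦ0.coord hAc (w := fun i => (zz i : ℝ)) (fun i => by exact_mod_cast (hzz i).le)
      (u := U) (fun q => by
        rw [hUd, Finset.sum_apply]
        push_cast
        exact Finset.sum_congr rfl fun i _ => by
          rw [Pi.smul_apply, smul_eq_mul]; push_cast; rfl)]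
    have h1 : ∑ i, (zz i : ℝ) * Φ0 (A i) ≤ ∑ _i : Fin d, (N : ℝ) * R := by
      refine Finset.sum_le_sum fun i _ => ?_
      rw [hΦ0A, hzN]
      exact mul_le_mul_of_nonneg_right (mul_le_of_le_one_right (Nat.cast_nonneg N) (hw'1 i))
        (Nat.cast_nonneg R)
    refine h1.trans ?_
    rw [Finset.sum_const, Finset.card_univ, Fintype.card_fin, nsmul_eq_mul]
    have h2 : (d : ℝ) ≤ n := by exact_mod_cast hD0.le
    have h3 : (0 : ℝ) ≤ N * R := by positivity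
    calc (d : ℝ) * (N * R) ≤ n * (N * R) := mul_le_mul_of_nonneg_right h2 h3
      _ = N * (R * n) := by ring
  have hl0' : IsLogDisc C.e0' v (1 + a1 + Φ0 (tv v)) :=
    (disc_point hΦ0 hvE htE htor0 (fun m hm => hm) C.e0' hov _).2 ⟨a1, ha1, rfl⟩
  have hl0'' := (C.disc0 w2 v' v hw2 hr2' hr2 _).2 hl0'
  have hΦ0Uc : Φ0 U = c0 * Φ0 (tv v) := by
    conv_lhs => rw [hUc]
    exact hΦ0.smul c0 (over_FC hov)
  have hs0' : (0 : ℝ) < s' := by exact_mod_cast hs0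
  have hc0' : (0 : ℝ) < c0 := by exact_mod_cast hc0
  have hN0' : (0 : ℝ) < N := by exact_mod_cast hN
  have h5 : (N : ℝ) ≤ c0 * s' := by exact_mod_cast hNle
  have h7 : (c0 : ℝ) * (a1 + 1) ≤ ∑ j, (κ j : ℝ) := by exact_mod_cast hle
  have h8 : ∑ j, (κ j : ℝ) ≤ (R * D : ℕ) * (∑ j, (k j : ℝ) + r * c) := by exact_mod_cast hκ
  have h9 : ((R * D : ℕ) : ℝ) * (∑ j, (k j : ℝ) + r * c) = N * ((∑ j, (k j : ℝ)) / r + c) := by
    rw [hNd]
    push_cast
    field_simp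
  have hR0' : (0 : ℝ) < R := by exact_mod_cast hR
  refine ⟨v', _, _, hov', hl'', hl0'', ?_, ?_⟩
  · rw [card_inert]
    refine le_antisymm hmle ?_
    rw [div_le_iff₀ hs0']
    have h10 : (c0 : ℝ) * (1 + a1 + Φ (tv v)) ≤ N * m := by
      calc (c0 : ℝ) * (1 + a1 + Φ (tv v)) = c0 * (a1 + 1) + Φ U := by rw [hΦUc]; ring
        _ ≤ N * ((∑ j, (k j : ℝ)) / r + c) + N * (R * ∑ i, (1 - β i) * w' i) := by
          rw [hΦU]
          linarith
        _ = N * (((∑ j, (k j : ℝ)) / r + c) + R * ∑ i, (1 - β i) * w' i) := by ring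
        _ ≤ N * (((∑ j, (k j : ℝ)) / r + c) + R * ∑ i, (1 - β i) * w0 i) := by
          refine mul_le_mul_of_nonneg_left ?_ hN0'.le
          have := mul_le_mul_of_nonneg_left hval hR0'.le
          linarith
        _ ≤ N * m := mul_le_mul_of_nonneg_left hge hN0'.le
    have h11 : (c0 : ℝ) * (1 + a1 + Φ (tv v)) ≤ c0 * (m * s') := by
      calc (c0 : ℝ) * (1 + a1 + Φ (tv v)) ≤ N * m := h10
        _ ≤ c0 * s' * m := mul_le_mul_of_nonneg_right h5 hm0
        _ = c0 * (m * s') := by ring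
    exact le_of_mul_le_mul_left h11 hc0'
  · rw [card_inert, div_le_iff₀ hs0']
    have hkn : (∑ j, (k j : ℝ)) / r ≤ n := by
      rw [div_le_iff₀ hr0]
      calc ∑ j, (k j : ℝ) ≤ ∑ _j : Fin n, (r : ℝ) := Finset.sum_le_sum fun j _ => by
            exact_mod_cast (hEB.eb.lt j).le
        _ = n * r := by simp
    have hcn' : (c : ℝ) ≤ n := by exact_mod_cast hcn
    have h10 : (c0 : ℝ) * (1 + a1 + Φ0 (tv v)) ≤ N * ((R + 2) * n) := by
      calc (c0 : ℝ) * (1 + a1 + Φ0 (tv v)) = c0 * (a1 + 1) + Φ0 U := by rw [hΦ0Uc]; ring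
        _ ≤ N * ((∑ j, (k j : ℝ)) / r + c) + N * (R * n) := by linarith
        _ = N * ((∑ j, (k j : ℝ)) / r + c + R * n) := by ring
        _ ≤ N * ((R + 2) * n) := by
          refine mul_le_mul_of_nonneg_left ?_ hN0'.le
          linarith
    have h11 : (c0 : ℝ) * (1 + a1 + Φ0 (tv v)) ≤ c0 * ((R + 2) * n * s') := by
      calc (c0 : ℝ) * (1 + a1 + Φ0 (tv v)) ≤ N * ((R + 2) * n) := h10
        _ ≤ c0 * s' * ((R + 2) * n) := mul_le_mul_of_nonneg_right h5 (by positivity)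
        _ = c0 * ((R + 2) * n * s') := by ring
    exact le_of_mul_le_mul_left h11 hc0'

/-- Divisors computing the minimal log discrepancy with bounded log discrepancy. -/
theorem exists_bdd_et (n : ℕ) : ∃ l : ℝ, ∀ (L : Type) [Field L] [Algebra ℂ L] (X : AffVar L)
    (B : EffDiv X) (x : Pt X) (e : LocEq B x) (e0 : LocEq (zeroDiv X) x)
    (G : Subgroup (L ≃ₐ[ℂ] L)) (m : ℝ), Finite G → 0 ≤ m →
    (∀ σ ∈ G, IsGermAut e σ) → (∀ σ ∈ G, IsGermAut e0 σ) →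
    (∀ σ ∈ G, Nonempty (EtGerm2 n (FractionRing (MvPolynomial (Fin n) ℂ)) e e0 σ)) →
    IsQuotMldX e G m →
    ∃ (v : DVal L) (b b0 : ℝ), IsOverGerm x v ∧ IsLogDisc e v b ∧ IsLogDisc e0 v b0 ∧
      m = b / Nat.card {σ : G // ∀ f, v.Reg f → v.Pos (σ.1 f - f)} ∧
      b0 / Nat.card {σ : G // ∀ f, v.Reg f → v.Pos (σ.1 f - f)} ≤ l := by
  rcases Nat.eq_zero_or_pos n with hn | hn
  · subst hn
    refine ⟨0, fun L _ _ X B x e e0 G m _ _ _ _ hx hm => ?_⟩
    obtain ⟨⟨v, b, hov, -⟩, -⟩ := hm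
    obtain ⟨C⟩ := hx 1 G.one_mem
    obtain ⟨w, hw, -⟩ := C.etX.lift v hov
    obtain ⟨v', -, -⟩ := C.etY.restr w hw
    exact (no_dval v').elim
  obtain ⟨R, hR, hRW⟩ := exists_R n
  refine ⟨(R + 2) * n, fun L _ _ X B x e e0 G m hfin hm0 hG hG0 hx hm => ?_⟩
  exact bdd_et hR hRW hn hm0 hG hG0 hx hm

end Q47.TV
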