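import Pool.Agent.Q47.TV.Et

/-!
# Lower semicontinuity for étale charts
-/

set_option autoImplicit false
set_option linter.unusedSectionVars false

namespace Q47.TV

open Pool.Agent.H436R3.Fol Pool.Agent.H436R3.KT Pool.Agent.W497.Mld Pool.Agent.TH165.ACC Q47.QM

variable {n : ℕ} {K : Type} [Field K] [Algebra ℂ K]
  [Algebra (MvPolynomial (Fin n) ℂ) K] [IsFractionRing (MvPolynomial (Fin n) ℂ) K]
  [IsScalarTower ℂ (MvPolynomial (Fin n) ℂ) K]

section one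

variable {g : TorAff n K} {B : EffDiv g.X} {vE : Fin g.N → DVal K} {Φ : (Fin n → ℤ) → ℝ}

theorem lsc_one_et {R : ℕ} (hR : 0 < R) (hn : 0 < n)
    (hvE : ∀ i, IsMonomial n (vE i))
    (htE : ∀ i, (tv (vE i) : Fin n → ℤ) = g.E i)
    (hβ : ∀ i, 0 ≤ B.mult (vE i))
    (htor : ∀ v : DVal K, (∀ i : Fin n, v.ord (cv K i) = 0) → B.mult v = 0)
    {x1 x' : Pt g.X} (hΦ : LDX vE B x1 Φ)
    (e1 : LocEq B x1) (e' : LocEq B x')
    {v' : DVal K} {b' : ℝ} (hov' : IsOverGerm x' v') (hb' : IsLogDisc e' v' b')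
    {σ : K ≃ₐ[ℂ] K} {r : ℕ} (hr : 0 < r) (hI : InI v' σ) (hσr : σ ^ r = 1)
    (hch : Ch v' σ (ee (1 / r))) {W : (Fin n → ℤ) →+ (Fin n → ℤ)} {l : (Fin n → ℤ) → ℂ}
    (hmo : Mo σ W l) (hWR : ∀ m, W^[R] m = m)
    (hcone : ∀ u, g.InCone u → g.InCone (adj W u))
    (hinv : ∀ u, FC x1 u → Φ (adj W u) = Φ u)
    (hxx : ∀ m ∈ Fx x1, m ∈ Fx x') (hfix : Fixes x1 W l)
    (hchar : ∀ m1 ∈ Fx x1, ∀ m2 ∈ Fx x1, ∀ m', W m' - m' = m1 - m2 →
      yx x' m1 * yx x1 m2 = yx x' m2 * yx x1 m1)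
    {m : ℝ} (hm0 : 0 ≤ m) (hm : ∀ (v : DVal K) (b : ℝ) (z : ℂ), IsOverGerm x1 v →
      IsLogDisc e1 v b → InI v σ → Ch v σ z → ∃ s : ℕ, 0 < s ∧ z ^ s = 1 ∧ m ≤ b / s) :
    m ≤ b' / r := by
  classical
  have hWr := hmo.iter_eq hσr
  have hprim : IsPrimitiveRoot (ee (1 / r)) r := by
    rw [← ee_root]; exact Complex.isPrimitiveRoot_exp r hr.ne'
  have hr' : (r : ℝ) ≠ 0 := by exact_mod_cast hr.ne'
  have hR' : (R : ℝ) ≠ 0 := by exact_mod_cast hR.ne'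
  have hr0 : (0 : ℝ) < r := by exact_mod_cast hr
  have hR0 : (0 : ℝ) < R := by exact_mod_cast hR
  have hfix' : Fixes x' W l := fixes_of_InI hmo hcone hov' hI
  -- the valuation over the nearby point
  obtain ⟨a, ha, hba⟩ := (disc_point hΦ hvE htE htor hxx e' hov' b').1 hb'
  set c1 := Module.finrank ℂ (Submodule.span ℂ (cst '' {m | m ∈ Fx x1 ∧ W m = m})) with hc1
  obtain ⟨k, y, J, hEB⟩ := exists_eb2 hprim hr hWr (F := Fx x1)
    (fun m hm => hfix.avg hcone hm r) hc1.symm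
  obtain ⟨c', μ, hμF, hμli, hc'⟩ : ∃ (c' : ℕ) (μ : Fin c' → Fin n → ℤ),
      (∀ i, μ i ∈ {m | m ∈ Fx x' ∧ W m = m}) ∧ LinearIndependent ℂ (fun i => cst (μ i)) ∧
      Module.finrank ℂ (Submodule.span ℂ (cst '' {m | m ∈ Fx x' ∧ W m = m})) = c' := by
    obtain ⟨μ, hμF, hμli⟩ := exists_mu {m | m ∈ Fx x' ∧ W m = m}
    exact ⟨_, μ, hμF, hμli, rfl⟩
  have hlow := lower_fix g.e g.hT ha hI hr hσr hprim hch hmo hEB.eb μ hμli (fun i => (hμF i).2)
    (z := fun i => yx x' (μ i)) (fun i => over_uc hov' (hμF i).1)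
  -- the choice of rays
  obtain ⟨S, hST, hSF, hScard⟩ := greedy (E := g.E) (F := {m | m ∈ Fx x' ∧ W m = m})
    (F1 := Fx x1) (T := {i | InF x1 i}) (by
      rintro m ⟨hm, -⟩ hm1
      by_contra hcon
      push Not at hcon
      exact hm1 (mem_Fx hm.1 hcon)) _ ∅ (fun i hi => absurd hi (Finset.notMem_empty i)) le_rfl
  have hd0 : dF {m | m ∈ Fx x' ∧ W m = m} g.E ∅ = c' := by
    have hset : {m | m ∈ {m | m ∈ Fx x' ∧ W m = m} ∧ ∀ i ∈ (∅ : Finset (Fin g.N)),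
        pr m (g.E i) = 0} = {m | m ∈ Fx x' ∧ W m = m} := by
      ext m; simp
    rw [dF, hset, hc']
  have hdS : dF {m | m ∈ Fx x' ∧ W m = m} g.E S = c1 := by
    have hset : {m | m ∈ {m | m ∈ Fx x' ∧ W m = m} ∧ ∀ i ∈ S, pr m (g.E i) = 0} =
        {m | m ∈ Fx x1 ∧ W m = m} := by
      ext m
      constructor
      · rintro ⟨hm, h1⟩
        exact ⟨hSF m hm h1, hm.2⟩
      · rintro ⟨hm, h1⟩
        exact ⟨⟨hxx m hm, h1⟩, fun i hi => hST i hi m hm⟩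
    rw [dF, hset]
  rw [hd0, hdS, Finset.card_empty, zero_add] at hScard
  -- the vector
  have hAR := adj_iter hWR
  set U : Fin n → ℤ := (R : ℤ) • (tv v' : Fin n → ℤ) +
    (r : ℤ) • ∑ i ∈ S, avg (adjH W) R (g.E i) with hUd
  have hprU : ∀ m, pr m U = R * pr m (tv v' : Fin n → ℤ) +
      r * ∑ i ∈ S, pr (avg W R m) (g.E i) := by
    intro m
    rw [hUd, pr_add_right, pr_smul_right, pr_smul_right, pr_sum_right]
    congr 2
    exact Finset.sum_congr rfl fun i _ => pr_avg W R m _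
  have hUW : ∀ m, pr (W m) U = pr m U := by
    intro m
    have h1 : avg W R (W m) = avg W R m := by
      rw [avg, avg]
      have h3 := Finset.sum_range_succ (fun s => W^[s] m) R
      have h4 := Finset.sum_range_succ' (fun s => W^[s] m) R
      rw [h3, hWR] at h4
      exact (add_right_cancel h4).symm
    rw [hprU, hprU, h1, ← pr_adj, hmo.adj_tv hI]
  have hUF : ∀ m ∈ Fx x1, pr m U = 0 := by
    intro m hm
    rw [hprU, over_zero hov' (hxx m hm), mul_zero, zero_add, Finset.sum_eq_zero, mul_zero]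
    intro i hi
    exact hST i hi _ (hfix.avg hcone hm R)
  have hWC : ∀ (s : ℕ) (m : Fin n → ℤ), m ∈ Cn g.E → W^[s] m ∈ Cn g.E := by
    intro s m hm
    induction s with
    | zero => exact hm
    | succ s ih => rw [Function.iterate_succ_apply']; exact W_Cn hcone ih
  have havC : ∀ m ∈ Cn g.E, avg W R m ∈ Cn g.E := by
    intro m hm i
    rw [avg, pr_sum]
    exact Finset.sum_nonneg fun s _ => hWC s m hm i
  have hUC : ∀ m ∈ Cn g.E, m ∉ Fx x1 → 0 < pr m U := by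
    intro m hm hm1
    rw [hprU]
    have h1 : 0 ≤ ∑ i ∈ S, pr (avg W R m) (g.E i) := Finset.sum_nonneg fun i _ => havC m hm i
    have h2 : (0 : ℤ) < R := by exact_mod_cast hR
    have h3 : (0 : ℤ) < r := by exact_mod_cast hr
    by_cases hmx : m ∈ Fx x'
    · have h4 : 0 < ∑ i ∈ S, pr (avg W R m) (g.E i) := by
        have h5 : ∃ i ∈ S, pr (avg W R m) (g.E i) ≠ 0 := by
          by_contra hcon
          push Not at hcon
          have h6 := hSF (avg W R m) ⟨hfix'.avg hcone hmx R, avg_fix hWR m⟩ hcon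
          obtain ⟨m2, hm2, h7⟩ := avg_mem_Cn hcone hm hR
          rw [h7] at h6
          exact hm1 (Fx_face hm hm2 h6)
        obtain ⟨i, hi, hi0⟩ := h5
        exact Finset.sum_pos' (fun j _ => havC m hm j)
          ⟨i, hi, lt_of_le_of_ne (havC m hm i) (Ne.symm hi0)⟩
      rw [over_zero hov' hmx, mul_zero, zero_add]
      exact mul_pos h3 h4
    · have h4 := over_pos hov' hm hmx
      have h5 := mul_pos h2 h4
      have h6 := mul_nonneg h3.le h1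
      linarith
  -- the order and the root of unity
  set N : ℕ := R * r with hNd
  have hN : 0 < N := Nat.mul_pos hR hr
  have hN' : (N : ℝ) ≠ 0 := by exact_mod_cast hN.ne'
  set θ' : ℂ := ee (1 / N) with hθ'
  have hprim' : IsPrimitiveRoot θ' N := by
    rw [hθ', ← ee_root]; exact Complex.isPrimitiveRoot_exp N hN.ne'
  have hθR : θ' ^ R = ee (1 / r) := by
    rw [hθ', ee_pow]
    congr 1
    rw [hNd]
    push_cast
    field_simp
  obtain ⟨κ, hEG, hκ, hκJ⟩ := hEB.gen hr hR hθR hprim.pow_eq_one hUW hUF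
  -- the powers of the root of unity
  have hθU : ∀ m2 : Fin n → ℤ, (∀ i ∈ S, ∀ s, pr (W^[s] m2) (g.E i) = pr m2 (g.E i)) →
      θ' ^ pr m2 U = ee (1 / r) ^ pr m2 (tv v' : Fin n → ℤ) := by
    intro m2 hm2
    have h1 : ∀ i ∈ S, pr (avg W R m2) (g.E i) = R * pr m2 (g.E i) := by
      intro i hi
      rw [avg, pr_sum, Finset.sum_congr rfl fun s _ => hm2 i hi s, Finset.sum_const,
        Finset.card_range, nsmul_eq_mul]
    have h2 : pr m2 U = R * pr m2 (tv v' : Fin n → ℤ) + N * ∑ i ∈ S, pr m2 (g.E i) := by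
      rw [hprU, Finset.sum_congr rfl h1, ← Finset.mul_sum, hNd]
      push_cast
      ring
    rw [h2, zpow_add₀ (hprim'.ne_zero hN.ne'), zpow_mul, zpow_mul, zpow_natCast, zpow_natCast,
      hprim'.pow_eq_one, one_zpow, mul_one, hθR]
  have hcomp : ∀ m1 ∈ Fx x1, ∀ m2 ∈ Fx x1, ∀ m3, W m3 - m3 = m1 - m2 →
      θ' ^ pr m3 U / l m3 * yx x1 m2 = yx x1 m1 := by
    intro m1 hm1 m2 hm2 m3 h3
    have h1 : ∀ i ∈ S, ∀ s, pr (W^[s] m3) (g.E i) = pr m3 (g.E i) := by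
      intro i hi s
      induction s with
      | zero => rfl
      | succ s ih =>
        have h4 : W^[s + 1] m3 = W^[s] m3 + (W^[s] m1 - W^[s] m2) := by
          rw [Function.iterate_succ_apply, ← iterate_map_sub, ← h3, iterate_map_sub]
          abel
        rw [h4, pr_add, pr_sub, ih, hST i hi _ (hfix.iter hcone hm1 s),
          hST i hi _ (hfix.iter hcone hm2 s), sub_self, add_zero]
    rw [hθU m3 h1]
    have h2 := hch.2 _ (ym_ne (K := K) m3)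
    rw [ord_ym] at h2
    have h4 : σ (ym K m3) / ym K m3 = algebraMap ℂ K (l m3) * (ym K m1 / ym K m2) := by
      have h5 : ym K (W m3) = ym K m3 * (ym K m1 * ym K (-m2)) := by
        rw [← ym_add, ← ym_add]
        congr 1
        rw [← sub_eq_add_neg, ← h3]
        abel
      rw [hmo.2, h5, ym_neg]
      have := ym_ne (K := K) m3
      have := ym_ne (K := K) m2
      field_simp
    rw [h4] at h2
    have h5 := ((UC.const (v := v') (hmo.1 m3)).mul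
      ((over_uc hov' (hxx m1 hm1)).div (over_uc hov' (hxx m2 hm2)))).uniq h2
    have h6 := hchar m1 hm1 m2 hm2 m3 h3
    have e1 := hmo.1 m3
    have e2 := (hxx m2 hm2).2
    rw [← h5]
    field_simp
    linear_combination h6
  obtain ⟨ch, hch0, hchm, hchW, hchx⟩ := exists_char2 (hprim'.ne_zero hN.ne') hmo.1 hmo.add
    (F1 := Fx x1) Fx_zero (fun _ h _ h' => Fx_add h h') (χ := yx x1) (fun _ h => h.2)
    (fun _ h _ h' => yx_add x1 h.1 h'.1) hcomp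
  -- nontriviality
  have hU0 : U ≠ 0 ∨ ∃ j, κ j ≠ 0 := mono_ne hn hEG hUC
  obtain ⟨c, v, a1, hc0, hov, ha1, hIv, hChv, hUc, hle⟩ := exists_val2 hmo hN hprim' hEG hUW hU0
    hUF hUC hch0 hchm hchW hchx
  have hl1 : IsLogDisc e1 v (1 + a1 + Φ (tv v)) :=
    (disc_point hΦ hvE htE htor (fun m hm => hm) e1 hov _).2 ⟨a1, ha1, rfl⟩
  obtain ⟨s, hs0, hzs, hmle⟩ := hm v _ _ hov hl1 hIv hChv
  have hdvd : N ∣ c * s := by
    rw [← pow_mul] at hzs
    exact (hprim'.pow_eq_one_iff_dvd _).1 hzs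
  have hNle : N ≤ c * s := Nat.le_of_dvd (Nat.mul_pos hc0 hs0) hdvd
  have hΦUc : Φ U = c * Φ (tv v) := by
    conv_lhs => rw [hUc]
    exact hΦ.smul c (over_FC hov)
  have hΦU : Φ U = R * Φ (tv v') + N * ∑ i ∈ S, (1 - B.mult (vE i)) := by
    have hFCW : ∀ u, FC x1 u → FC x1 (adj W u) := fun u hu => hu.adj hcone hfix
    have hFCv : FC x1 (tv v') := (over_FC hov').mono hxx
    have h1 := phi_sum hΦ S (fun i => avg (adjH W) R (g.E i))
      fun i hi => (avg_ray hΦ hFCW hinv (FC_E (hST i hi)) R).1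
    rw [hUd, hΦ.add (hFCv.smul R) (h1.1.smul r), hΦ.smul R hFCv, hΦ.smul r h1.1, h1.2]
    have h4 : ∀ i ∈ S, Φ (avg (adjH W) R (g.E i)) = R * (1 - B.mult (vE i)) := fun i hi => by
      rw [(avg_ray hΦ hFCW hinv (FC_E (hST i hi)) R).2, hΦ.ray (hST i hi)]
    rw [Finset.sum_congr rfl h4, ← Finset.mul_sum, hNd]
    push_cast
    ring
  have hSle : ∑ i ∈ S, (1 - B.mult (vE i)) ≤ S.card := by
    calc ∑ i ∈ S, (1 - B.mult (vE i)) ≤ ∑ _i ∈ S, (1 : ℝ) :=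
          Finset.sum_le_sum fun i _ => by linarith [hβ i]
      _ = S.card := by simp
  have hs0' : (0 : ℝ) < s := by exact_mod_cast hs0
  have hc0' : (0 : ℝ) < c := by exact_mod_cast hc0
  have hN0' : (0 : ℝ) < N := by exact_mod_cast hN
  rw [le_div_iff₀ hs0'] at hmle
  have h5 : (N : ℝ) ≤ c * s := by exact_mod_cast hNle
  have h6 : (N : ℝ) * m ≤ c * (1 + a1 + Φ (tv v)) := by
    calc (N : ℝ) * m ≤ c * s * m := mul_le_mul_of_nonneg_right h5 hm0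
      _ = c * (m * s) := by ring
      _ ≤ c * (1 + a1 + Φ (tv v)) := mul_le_mul_of_nonneg_left hmle hc0'.le
  have h7 : (c : ℝ) * (a1 + 1) ≤ ∑ j, (κ j : ℝ) := by exact_mod_cast hle
  have h8 : ∑ j, (κ j : ℝ) ≤ R * (∑ j, (k j : ℝ) + r * c1) := by exact_mod_cast hκ
  have h9 : (c : ℝ) * (1 + a1 + Φ (tv v)) ≤ R * (∑ j, (k j : ℝ) + r * c1) + R * Φ (tv v') +
      N * S.card := by
    have h10 : (N : ℝ) * ∑ i ∈ S, (1 - B.mult (vE i)) ≤ N * S.card :=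
      mul_le_mul_of_nonneg_left hSle hN0'.le
    have h11 : (c : ℝ) * (1 + a1 + Φ (tv v)) = c * (a1 + 1) + Φ U := by rw [hΦUc]; ring
    rw [h11, hΦU]
    linarith
  have h10 : (r : ℝ) * m ≤ ∑ j, (k j : ℝ) + r * (c1 + S.card) + Φ (tv v') := by
    have h11 : (N : ℝ) = R * r := by rw [hNd]; push_cast; ring
    rw [h11] at h6 h9
    have h12 : (R : ℝ) * (r * m) ≤ R * (∑ j, (k j : ℝ) + r * (c1 + S.card) + Φ (tv v')) := by
      linarith
    exact le_of_mul_le_mul_left h12 hR0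
  have h11 : (c1 + S.card : ℝ) ≤ c' := by
    have : ((S.card + c1 : ℕ) : ℝ) ≤ (c' : ℕ) := by exact_mod_cast hScard
    push_cast at this
    linarith
  have h12 : (∑ j, (k j : ℝ)) + r * c' ≤ a + 1 := by exact_mod_cast hlow
  rw [le_div_iff₀ hr0, hba]
  have h13 : (r : ℝ) * (c1 + S.card) ≤ r * c' := mul_le_mul_of_nonneg_left h11 hr0.le
  linarith

end one

/-- An étale toric chart for the automorphism `σ` of `(X, B)`: an affine toric variety `g` with a torus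
invariant boundary `B'` and a monomial automorphism `τ`, and an affine variety `U` with function field
`Ω`, an automorphism `ρ` and morphisms `pX : U → X`, `pY : U → g` which are étale at all closed points
(`IsEtale`), such that `ρ` lies over `σ` and `τ`, the pull-backs of `K_X + B` and of the toric one to `U`
agree (`disc`), `u` is a point of `U` fixed by `ρ`, and every `σ`-fixed closed point near `pX u` is the
image of a `ρ`-fixed point near `u`. -/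
structure EtChart (n : ℕ) (K : Type) [Field K] [Algebra ℂ K]
    [Algebra (MvPolynomial (Fin n) ℂ) K] [IsFractionRing (MvPolynomial (Fin n) ℂ) K]
    [IsScalarTower ℂ (MvPolynomial (Fin n) ℂ) K] {L : Type} [Field L] [Algebra ℂ L]
    {X : AffVar L} {B : EffDiv X} (E : ∀ x : Pt X, LocEq B x) (σ : L ≃ₐ[ℂ] L) where
  g : TorAff n K
  B' : EffDiv g.X
  E' : ∀ y : Pt g.X, LocEq B' y
  htor : ∀ v : DVal K, (∀ i : Fin n, v.ord (cv K i) = 0) → B'.mult v = 0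
  τ : K ≃ₐ[ℂ] K
  aut : ∀ c, τ c ∈ g.X.R ↔ c ∈ g.X.R
  mono : IsMono n τ
  ord : ∀ N : ℕ, σ ^ N = 1 → τ ^ N = 1
  Ω : Type
  [fΩ : Field Ω]
  [aΩ : Algebra ℂ Ω]
  U : AffVar Ω
  ρ : Ω ≃ₐ[ℂ] Ω
  autU : ∀ f, ρ f ∈ U.R ↔ f ∈ U.R
  i : L →ₐ[ℂ] Ω
  j : K →ₐ[ℂ] Ω
  comX : ∀ f, ρ (i f) = i (σ f)
  comY : ∀ f, ρ (j f) = j (τ f)
  pX : Pt U → Pt X
  pY : Pt U → Pt g.X
  etX : ∀ u, IsEtale i (pX u) u
  etY : ∀ u, IsEtale j (pY u) u
  disc : ∀ (u : Pt U) (w : DVal Ω) (v : DVal L) (v' : DVal K), IsOverGerm u w → Restr i w v →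
    Restr j w v' → ∀ b, IsLogDisc (E (pX u)) v b ↔ IsLogDisc (E' (pY u)) v' b
  u : Pt U
  fixU : FixesPt u ρ
  near : ∀ h : U.R, u h ≠ 0 → ∃ f : X.R, pX u f ≠ 0 ∧ ∀ x' : Pt X, x' f ≠ 0 → FixesPt x' σ →
    ∃ u' : Pt U, pX u' = x' ∧ FixesPt u' ρ ∧ u' h ≠ 0

attribute [instance] EtChart.fΩ EtChart.aΩ

variable {L : Type} [Field L] [Algebra ℂ L] {X : AffVar L} {B : EffDiv X}
  {E : ∀ x : Pt X, LocEq B x}

theorem lsc_et (G : Subgroup (L ≃ₐ[ℂ] L)) [Finite G] (hG : ∀ σ ∈ G, IsAutX E σ) (x : Pt X)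
    (hx : ∀ σ ∈ G, FixesPt x σ → ∃ C : EtChart n K E σ, C.pX C.u = x) :
    NX x fun x' => ∀ m : ℝ, 0 ≤ m →
      (∀ v b, IsOverGerm x v → IsLogDisc (E x) v b →
        m ≤ b / Nat.card (G ⊓ Ig v : Subgroup (L ≃ₐ[ℂ] L))) →
      ∀ v b, IsOverGerm x' v → IsLogDisc (E x') v b →
        m ≤ b / Nat.card (G ⊓ Ig v : Subgroup (L ≃ₐ[ℂ] L)) := by
  classical
  obtain ⟨R, hR, hRW⟩ := exists_R n
  have hc : 0 < Nat.card G := Nat.card_pos
  have hpow : ∀ σ ∈ G, σ ^ Nat.card G = 1 := by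
    intro σ hσ
    have h1 : (⟨σ, hσ⟩ : G) ^ Nat.card G = 1 := pow_card_eq_one'
    have h2 : (((⟨σ, hσ⟩ : G) ^ Nat.card G : G) : L ≃ₐ[ℂ] L) = 1 := by rw [h1]; rfl
    rw [Subgroup.coe_pow] at h2
    exact h2
  have hmain : ∀ σ : G, NX x fun x' => (FixesPt x' σ.1 → FixesPt x σ.1) ∧
      (FixesPt x σ.1 → FixesPt x' σ.1 → ∃ C : EtChart n K E σ.1, C.pX C.u = x ∧
        ∃ (W : (Fin n → ℤ) →+ (Fin n → ℤ)) (l : (Fin n → ℤ) → ℂ), Mo C.τ W l ∧
        ∃ u' : Pt C.U, C.pX u' = x' ∧ FixesPt u' C.ρ ∧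
        (∀ m ∈ Fx (C.pY C.u), m ∈ Fx (C.pY u')) ∧
        (Fixes (C.pY u') W l → Fixes (C.pY C.u) W l ∧
          ∀ m1 ∈ Fx (C.pY C.u), ∀ m2 ∈ Fx (C.pY C.u), ∀ m', W m' - m' = m1 - m2 →
            yx (C.pY u') m1 * yx (C.pY C.u) m2 = yx (C.pY u') m2 * yx (C.pY C.u) m1)) := by
    intro σ
    refine (nx_fix x σ.1).and ?_
    by_cases hf : FixesPt x σ.1
    · obtain ⟨C, hC⟩ := hx σ.1 σ.2 hf
      obtain ⟨W, l, hmo⟩ := exists_mo C.mono
      have hit : ∀ m, W^[Nat.card G] m = m := hmo.iter_eq (C.ord _ (hpow σ.1 σ.2))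
      obtain ⟨h, hh, hP⟩ := nb_main (l := l) hmo.1 (cone_aut hmo C.aut) hR (hRW W _ hc hit)
        (C.pY C.u)
      obtain ⟨h', hh', hu'⟩ := (C.etY C.u).map h
      obtain ⟨f, hf0, hfn⟩ := C.near h' (by rw [← hu']; exact hh)
      refine ⟨f, by rw [← hC]; exact hf0, fun x' hx' _ hfx' => ?_⟩
      obtain ⟨u', hu1, hu2, hu3⟩ := hfn x' hx' hfx'
      obtain ⟨h'', hh'', hu''⟩ := (C.etY u').map h
      have e1 : h'' = h' := Subtype.ext (hh''.trans hh'.symm)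
      rw [e1] at hu''
      obtain ⟨hp1, hp2⟩ := hP (C.pY u') (by rw [hu'']; exact hu3)
      exact ⟨C, hC, W, l, hmo, u', hu1, hu2, hp1, hp2⟩
    · exact NX.all fun _ h => absurd h hf
  refine (NX.finite hmain).mono ?_
  intro x' hx' m hm0 hm v b hov hb
  obtain ⟨hr, σ, hσG, hI, hσr, hch⟩ := exists_gen G v
  rw [ee_root] at hch
  obtain ⟨h1, h2⟩ := hx' ⟨σ, hσG⟩
  have hfx' := fixesPt_of_InI hov hI
  have hfx := h1 hfx'
  obtain ⟨C, hC, W, l, hmo, u', hu1, hu2, hxx, hfix0⟩ := h2 hfx hfx'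
  have hit : ∀ m, W^[Nat.card G] m = m := hmo.iter_eq (C.ord _ (hpow σ hσG))
  have hcone := cone_aut hmo C.aut
  rw [← hu1] at hov
  obtain ⟨w, v', hw, hwv, hov', hwv', hI', hch'⟩ :=
    transfer (C.etX u') (C.etY u') C.comX C.comY C.autU hu2 hov hI hch
  have hb' : IsLogDisc (C.E' (C.pY u')) v' b := (C.disc u' w v v' hw hwv hwv' b).1 (by
    rw [hu1]; exact hb)
  have hn : 0 < n := by
    rcases Nat.eq_zero_or_pos n with hn | hn
    · subst hn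
      exact (no_dval v').elim
    · exact hn
  have hfix' : Fixes (C.pY u') W l := fixes_of_InI hmo hcone hov' hI'
  obtain ⟨hfix, hchar⟩ := hfix0 hfix'
  choose vE hvE htE using fun i => exists_mon (K := K) (C.g.prim i)
  obtain ⟨Φ, hΦ⟩ := exists_phi3 hvE htE C.htor (C.E' (C.pY C.u))
  have hGA : IsGermAut (E (C.pX C.u)) σ := by
    rw [hC]
    exact fun v b => (hG σ hσG).2 x x hfx v b
  refine lsc_one_et hR hn hvE htE (fun i => mult_nonneg C.B' (vE i)) C.htor hΦ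
    (C.E' (C.pY C.u)) (C.E' (C.pY u')) hov' hb' hr hI' (C.ord _ hσr) hch'
    hmo (hRW W _ hc hit) hcone (fun u hu => phi_inv hvE htE C.htor hΦ
      (C.E' (C.pY C.u)) hn hmo (at_fix_et (C.etX C.u) (C.etY C.u) (C.disc C.u) C.comX C.comY
        C.autU C.fixU hGA) hcone hfix hc hit hu) hxx hfix hchar hm0 ?_
  intro v2 b2 z h3 h4 h5 h6
  obtain ⟨w2, v3, hw2, hwv2, hov3, hwv3, hI3, hch3⟩ :=
    transfer (C.etY C.u) (C.etX C.u) C.comY C.comX C.autU C.fixU h3 h5 h6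
  have h7 := (C.disc C.u w2 v3 v2 hw2 hwv3 hwv2 b2).2 h4
  rw [hC] at h7 hov3
  obtain ⟨hs0, -⟩ := exists_gen G v3
  refine ⟨_, hs0, ?_, hm v3 b2 hov3 h7⟩
  set s := Nat.card (G ⊓ Ig v3 : Subgroup (L ≃ₐ[ℂ] L)) with hsd
  have h8 : σ ^ s = 1 := by
    have h9 : σ ∈ (G ⊓ Ig v3 : Subgroup (L ≃ₐ[ℂ] L)) := ⟨hσG, mem_Ig.2 hI3⟩
    have h10 : (⟨σ, h9⟩ : (G ⊓ Ig v3 : Subgroup (L ≃ₐ[ℂ] L))) ^ s = 1 := pow_card_eq_one'
    have h11 := congrArg Subtype.val h10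
    simpa using h11
  have h9 := Ch.pow' hI3 hch3 s
  rw [h8] at h9
  exact h9.uniq Ch.one

theorem lsc_etale (G : Subgroup (L ≃ₐ[ℂ] L)) [Finite G] (hG : ∀ σ ∈ G, IsAutX E σ) (x : Pt X)
    (hx : ∀ σ ∈ G, FixesPt x σ → ∃ C : EtChart n K E σ, C.pX C.u = x) :
    ∃ f : X.R, x f ≠ 0 ∧ ∀ x' : Pt X, x' f ≠ 0 → quotMld E G x ≤ quotMld E G x' := by
  refine (lsc_et G hG x hx).mono ?_
  intro x' key
  rw [quotMld]
  split_ifs with h1
  · exact bot_le
  push Not at h1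
  set i := sInf {a : EReal | ∃ (v : DVal L) (b : ℝ), IsOverGerm x v ∧ IsLogDisc (E x) v b ∧
    a = ((b / Nat.card {σ : G // ∀ f, v.Reg f → v.Pos ((σ : L ≃ₐ[ℂ] L) f - f)} : ℝ) : EReal)}
    with hi
  have hval : ∀ v b, IsOverGerm x v → IsLogDisc (E x) v b →
      i ≤ ((b / Nat.card (G ⊓ Ig v : Subgroup (L ≃ₐ[ℂ] L)) : ℝ) : EReal) := by
    intro v b hv hb
    rw [← card_inert]
    exact sInf_le ⟨v, b, hv, hb, rfl⟩
  have hle : i ≤ sInf {a : EReal | ∃ (v : DVal L) (b : ℝ), IsOverGerm x' v ∧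
      IsLogDisc (E x') v b ∧
      a = ((b / Nat.card {σ : G // ∀ f, v.Reg f → v.Pos ((σ : L ≃ₐ[ℂ] L) f - f)} : ℝ) :
        EReal)} := by
    refine le_sInf ?_
    rintro _ ⟨v, b, hv, hb, rfl⟩
    rw [card_inert, ← EReal.ge_of_forall_gt_iff_ge]
    intro z hz
    rcases le_total 0 z with h0 | h0
    · have h2 := key z h0 (fun v b hv hb => by
        have h3 := hz.le.trans (hval v b hv hb)
        exact_mod_cast h3) v b hv hb
      exact_mod_cast h2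
    · have h2 := key 0 le_rfl (fun v b hv hb => by
        have h3 := h1.trans (hval v b hv hb)
        exact_mod_cast h3) v b hv hb
      have h3 : z ≤ b / Nat.card (G ⊓ Ig v : Subgroup (L ≃ₐ[ℂ] L)) := h0.trans h2
      exact_mod_cast h3
  rw [quotMld, if_neg (not_lt.2 (h1.trans hle))]
  exact hle

end Q47.TV
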