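import Pool.Agent.TH165.ACC.Germ

/-!
# Affine toric varieties
-/

set_option autoImplicit false
set_option linter.unusedSectionVars false

namespace Q47.TV

open Pool.Agent.H436R3.Fol Pool.Agent.H436R3.KT Pool.Agent.W497.Mld Pool.Agent.TH165.ACC MvPolynomial

variable {n : ℕ} {K : Type} [Field K] [Algebra ℂ K]
  [Algebra (MvPolynomial (Fin n) ℂ) K] [IsFractionRing (MvPolynomial (Fin n) ℂ) K]
  [IsScalarTower ℂ (MvPolynomial (Fin n) ℂ) K]

/-- An affine toric variety `X` of dimension `n`: `X` is the toric variety of a strictly convex cone of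
any dimension `≤ n` whose edges are spanned by the primitive vectors `E 1, ..., E N`, so that `X` may
have torus factors. The canonical divisor is the one of the toric `n`-form
`dy_1 / y_1 ∧ ... ∧ dy_n / y_n`. -/
structure TorAff (n : ℕ) (K : Type) [Field K] [Algebra ℂ K]
    [Algebra (MvPolynomial (Fin n) ℂ) K] [IsFractionRing (MvPolynomial (Fin n) ℂ) K]
    [IsScalarTower ℂ (MvPolynomial (Fin n) ℂ) K] where
  N : ℕ
  /-- the primitive generators of the edges of the cone -/
  E : Fin N → Fin n → ℤ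
  prim : ∀ i, Prim (E i)
  /-- `E i` spans an edge: a face of the cone of dimension one -/
  edge : ∀ i, ∃ Q : Fin n → ℤ, pr Q (E i) = 0 ∧ ∀ j, j ≠ i → 0 < pr Q (E j)
  /-- the cone is strictly convex -/
  pointed : ∃ Q : Fin n → ℤ, ∀ j, 0 < pr Q (E j)
  X : AffVar K
  hR : X.R = LA K (Cn E)
  e : Fin X.d ≃ Fin n
  hT : ∀ i, X.T.D i = tor K (e i)

namespace TorAff

variable (g : TorAff n K)

theorem span_eq : Subalgebra.toSubmodule g.X.R = Submodule.span ℂ (ym K '' Cn g.E) := by
  rw [g.hR, LA, Algebra.adjoin_eq_span]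
  congr 1
  apply subset_antisymm _ Submonoid.subset_closure
  intro x hx
  induction hx using Submonoid.closure_induction with
  | mem x hx => exact hx
  | one => exact ⟨0, Cn_zero, ym_zero⟩
  | mul x y _ _ hx hy =>
    obtain ⟨m, hm, rfl⟩ := hx
    obtain ⟨m', hm', rfl⟩ := hy
    exact ⟨m + m', Cn_add hm hm', ym_add _ _⟩

/-- functions on `X` as Laurent polynomials -/
theorem rep (f : g.X.R) : ∃ (M : Fin n →₀ ℕ) (h : MvPolynomial (Fin n) ℂ),
    (f : K) * ym K (ex M) = jo (Fin n) K h ∧
      ∀ s ∈ h.support, ex s - ex M ∈ Cn g.E := by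
  have key : ∀ x : K, x ∈ Submodule.span ℂ (ym K '' Cn g.E) →
      ∃ (M : Fin n →₀ ℕ) (h : MvPolynomial (Fin n) ℂ), x * ym K (ex M) = jo (Fin n) K h ∧
        ∀ s ∈ h.support, ex s - ex M ∈ Cn g.E := by
    intro x hx
    induction hx using Submodule.span_induction with
    | mem x hx =>
      obtain ⟨m, hm, rfl⟩ := hx
      obtain ⟨s, t, hst⟩ := exists_nat_ex m
      refine ⟨t, monomial s 1, ?_, ?_⟩
      · rw [← ym_ex, ← ym_add, hst, sub_add_cancel]
      · intro r hr
        have : r = s := by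
          have := support_monomial_subset hr
          simpa using this
        rw [this, ← hst]
        exact hm
    | zero =>
      exact ⟨0, 0, by rw [zero_mul, map_zero], by simp⟩
    | add x y hx hy ihx ihy =>
      obtain ⟨M1, h1, e1, s1⟩ := ihx
      obtain ⟨M2, h2, e2, s2⟩ := ihy
      refine ⟨M1 + M2, h1 * monomial M2 1 + h2 * monomial M1 1, ?_, ?_⟩
      · rw [map_add, map_mul, map_mul, ← ym_ex, ← ym_ex, ← e1, ← e2, ex_add, ym_add]
        ring
      · intro s hs
        have h3 := support_add hs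
        rw [Finset.mem_union] at h3
        rcases h3 with h3 | h3
        · rw [mem_support_iff, coeff_mul_monomial'] at h3
          by_cases h4 : M2 ≤ s
          · rw [if_pos h4, mul_one] at h3
            have h5 := s1 _ (mem_support_iff.2 h3)
            have h6 : ex s = ex (s - M2) + ex M2 := by
              rw [← ex_add, tsub_add_cancel_of_le h4]
            rw [h6, ex_add]
            convert h5 using 1
            abel
          · rw [if_neg h4] at h3
            exact absurd rfl h3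
        · rw [mem_support_iff, coeff_mul_monomial'] at h3
          by_cases h4 : M1 ≤ s
          · rw [if_pos h4, mul_one] at h3
            have h5 := s2 _ (mem_support_iff.2 h3)
            have h6 : ex s = ex (s - M1) + ex M1 := by
              rw [← ex_add, tsub_add_cancel_of_le h4]
            rw [h6, ex_add]
            convert h5 using 1
            abel
          · rw [if_neg h4] at h3
            exact absurd rfl h3
    | smul a x hx ihx =>
      obtain ⟨M, h, e, s⟩ := ihx
      refine ⟨M, a • h, ?_, ?_⟩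
      · rw [map_smul, ← e, smul_mul_assoc]
      · intro r hr
        exact s r (support_smul hr)
  exact key f (by rw [← g.span_eq]; exact f.2)

/-- `u` lies in the cone -/
def InCone (u : Fin n → ℤ) : Prop := ∀ m ∈ Cn g.E, 0 ≤ pr m u

variable {g}

theorem inCone_E (i : Fin g.N) : g.InCone (g.E i) := fun _ hm => hm i

theorem R_le {v : DVal K} (h : g.InCone (tv v)) : g.X.R ≤ LA K (Hs (tv v : Fin n → ℤ)) := by
  rw [g.hR]
  exact LA_mono fun m hm => h m hm

/-- the toric prime divisors -/
theorem local_E {v : DVal K} (hv : IsMonomial n v) {i : Fin g.N} (h : (tv v : Fin n → ℤ) = g.E i) :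
    IsLocalRing' g.X.R v := by
  classical
  have hL := local_Hs hv
  refine ⟨fun f hf => hL.1 f (R_le (g := g) (by rw [h]; exact inCone_E i) hf), fun f hf => ?_⟩
  by_cases hf0 : f = 0
  · exact ⟨0, 1, zero_mem _, one_mem _, one_ne_zero, v.ord_one, by rw [hf0, zero_mul]⟩
  obtain ⟨m1, hm1⟩ := prim_of_mon hv
  obtain ⟨a, b, hb, rfl⟩ := exists_frac (MvPolynomial (Fin n) ℂ) f
  have ha : a ≠ 0 := by rintro rfl; simp at hf0
  rw [← jo_apply, ← jo_apply] at hf hf0 ⊢
  have h1 : v.ord (jo (Fin n) K b) ≤ v.ord (jo (Fin n) K a) := by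
    have := v.ord_nonneg hf0 hf
    rw [v.ord_div (jo_ne ha) (jo_ne hb)] at this
    omega
  set k := v.ord (jo (Fin n) K b) with hk
  obtain ⟨Qi, hQi0, hQi1⟩ := g.edge i
  obtain ⟨Q, hQ0, hQ⟩ := clear (E := g.E) Qi
    ((a.support ∪ b.support).image fun s => Pool.Agent.TH165.ACC.ex s + -(k • m1))
  have hQi : pr Q (g.E i) = 0 := hQ0 i hQi0
  have hmem : ∀ s ∈ a.support ∪ b.support, k ≤ pr (ex s) (tv v) →
      ex s + (-(k • m1) + Q) ∈ Cn g.E := by
    intro s hs hks j
    by_cases hj : j = i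
    · subst hj
      rw [h] at hks hm1
      rw [pr_add, pr_add, pr_neg, pr_smul, hm1, hQi]
      omega
    · have := hQ (ex s + -(k • m1)) (Finset.mem_image.2 ⟨s, hs, rfl⟩) j (hQi1 j hj)
      rwa [add_assoc] at this
  rw [g.hR]
  refine ⟨jo (Fin n) K a * ym K (-(k • m1) + Q), jo (Fin n) K b * ym K (-(k • m1) + Q),
    ?_, ?_, ?_, ?_, ?_⟩
  · apply jo_mul_mem_LA
    intro s hs
    exact hmem s (Finset.mem_union_left _ hs) (h1.trans ((hv a ha).2 s hs))
  · apply jo_mul_mem_LA
    intro s hs
    exact hmem s (Finset.mem_union_right _ hs) ((hv b hb).2 s hs)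
  · exact mul_ne_zero (jo_ne hb) (ym_ne _)
  · rw [v.map_mul _ _ (jo_ne hb) (ym_ne _), ord_ym, pr_add, pr_neg, pr_smul, hm1, ← hk, h, hQi]
    omega
  · have h0 : jo (Fin n) K b ≠ 0 := jo_ne hb
    field_simp

/-- the prime divisors which meet the torus -/
theorem local_prime (g : TorAff n K) {p : MvPolynomial (Fin n) ℂ} (hp : Prime p)
    (h0 : ∀ i : Fin n, (valP K p hp).ord (cv K i) = 0) : IsLocalRing' g.X.R (valP K p hp) := by
  classical
  set v := valP K p hp with hv
  have htv : (tv v : Fin n → ℤ) = 0 := funext h0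
  have hym : ∀ m : Fin n → ℤ, v.ord (ym K m) = 0 := by
    intro m
    rw [ord_ym, htv, pr]
    simp
  rw [g.hR]
  refine ⟨fun f hf => reg_LA (C := Cn g.E) (fun m _ => by rw [← ord_ym, hym]) hf, fun f hf => ?_⟩
  obtain ⟨a, b, hb, hpb, rfl⟩ := exists_frac_of_reg hp hf
  obtain ⟨Q0, hQ0⟩ := g.pointed
  obtain ⟨Q, -, hQ⟩ := clear (E := g.E) Q0 ((a.support ∪ b.support).image fun s => ex s)
  rw [← jo_apply, ← jo_apply]
  refine ⟨jo (Fin n) K a * ym K Q, jo (Fin n) K b * ym K Q, ?_, ?_, ?_, ?_, ?_⟩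
  · apply jo_mul_mem_LA
    intro s hs j
    exact hQ _ (Finset.mem_image.2 ⟨s, Finset.mem_union_left _ hs, rfl⟩) j (hQ0 j)
  · apply jo_mul_mem_LA
    intro s hs j
    exact hQ _ (Finset.mem_image.2 ⟨s, Finset.mem_union_right _ hs, rfl⟩) j (hQ0 j)
  · exact mul_ne_zero (jo_ne hb) (ym_ne _)
  · have h1 : v.ord (jo (Fin n) K b) = (multiplicity p b : ℤ) := valP_ord hp hb
    rw [v.map_mul _ _ (jo_ne hb) (ym_ne _), hym, h1, multiplicity_eq_zero.2 hpb]
    rfl
  · have h0 : jo (Fin n) K b ≠ 0 := jo_ne hb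
    field_simp

end TorAff

end Q47.TV
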