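import Pool.Agent.Q47.TV.Loc

/-!
# The finite groups attached to a closed point
-/

set_option autoImplicit false
set_option linter.unusedSectionVars false

namespace Q47.TV

open Pool.Agent.H436R3.Fol Pool.Agent.H436R3.KT Pool.Agent.W497.Mld Pool.Agent.TH165.ACC Q47.QM

variable {n d : ℕ}

/-- the finite group -/
def HP (R : ℕ) (P : (Fin n → ℤ) → Prop) (l : (Fin n → ℤ) → ℂ) (hl : ∀ m, l m ≠ 0)
    (A : Fin d → Fin n → ℤ) : AddSubgroup (Fin (d + 1) → UnitAddCircle) where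
  carrier := {x | ∃ (w : Fin d → ℝ) (j : ℤ), (∀ i, x (Fin.castSucc i) = (w i : UnitAddCircle)) ∧
    x (Fin.last d) = ((j / R : ℝ) : UnitAddCircle) ∧
    ∀ m, P m → (l m) ^ j = ee (∑ i, w i * (pr m (A i) : ℝ))}
  zero_mem' := ⟨0, 0, fun i => by simp, by simp, fun m _ => by simp [ee_zero]⟩
  add_mem' := by
    rintro x x' ⟨w, j, h1, h2, h3⟩ ⟨w', j', h1', h2', h3'⟩
    refine ⟨w + w', j + j', fun i => ?_, ?_, fun m hm => ?_⟩
    · rw [Pi.add_apply, h1, h1', Pi.add_apply, AddCircle.coe_add]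
    · rw [Pi.add_apply, h2, h2', ← AddCircle.coe_add]
      congr 1
      push_cast
      ring
    · rw [zpow_add₀ (hl m), h3 m hm, h3' m hm, ← ee_add, ← Finset.sum_add_distrib]
      congr 1
      exact Finset.sum_congr rfl fun i _ => by rw [Pi.add_apply]; ring
  neg_mem' := by
    rintro x ⟨w, j, h1, h2, h3⟩
    refine ⟨-w, -j, fun i => ?_, ?_, fun m hm => ?_⟩
    · rw [Pi.neg_apply, h1, Pi.neg_apply, AddCircle.coe_neg]
    · rw [Pi.neg_apply, h2, ← AddCircle.coe_neg]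
      congr 1
      push_cast
      ring
    · rw [zpow_neg, h3 m hm, ← ee_neg, ← Finset.sum_neg_distrib]
      congr 1
      exact Finset.sum_congr rfl fun i _ => by rw [Pi.neg_apply]; ring

section

variable {R : ℕ} {P : (Fin n → ℤ) → Prop} {l : (Fin n → ℤ) → ℂ} {hl : ∀ m, l m ≠ 0}
  {A : Fin d → Fin n → ℤ}

theorem HP_last (hR : 0 < R) {x : Fin (d + 1) → UnitAddCircle} (hx : x ∈ HP R P l hl A) :
    R • x (Fin.last d) = 0 := by
  obtain ⟨w, j, h1, h2, h3⟩ := hx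
  have hR' : (R : ℝ) ≠ 0 := by exact_mod_cast hR.ne'
  rw [h2, ← AddCircle.coe_nsmul, nsmul_eq_mul, mul_div_cancel₀ _ hR', coe_int]

/-- the coordinates of the elements of the group are torsion -/
theorem HP_tors {r : ℕ} {D : ℕ} (hlr : ∀ m, P m → l m ^ r = 1)
    (hA : ∀ i, ∃ m, P m ∧ ∀ j, pr m (A j) = if j = i then (D : ℤ) else 0)
    {w : Fin d → ℝ} {j : ℤ}
    (h3 : ∀ m, P m → (l m) ^ j = ee (∑ i, w i * (pr m (A i) : ℝ))) (i : Fin d) :
    ∃ z : ℤ, ((r * D : ℕ) : ℝ) * w i = z := by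
  obtain ⟨m, hm, hmA⟩ := hA i
  have h4 := h3 m hm
  have h5 : ∑ i, w i * (pr m (A i) : ℝ) = w i * D := by
    rw [Finset.sum_eq_single i]
    · rw [hmA, if_pos rfl]; push_cast; rfl
    · intro j _ hj
      rw [hmA, if_neg hj, Int.cast_zero, mul_zero]
    · intro h; exact absurd (Finset.mem_univ _) h
  rw [h5] at h4
  have h6 : ee (w i * D) ^ r = 1 := by
    rw [← h4, ← zpow_natCast, ← zpow_mul, mul_comm, zpow_mul, zpow_natCast, hlr m hm, one_zpow]
  rw [ee_pow] at h6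
  obtain ⟨z, hz⟩ := ee_eq_one h6
  refine ⟨z, ?_⟩
  rw [← hz]
  push_cast
  ring

theorem HP_finite (hR : 0 < R) {r : ℕ} (hr : 0 < r) {D : ℕ} (hD : 0 < D)
    (hlr : ∀ m, P m → l m ^ r = 1)
    (hA : ∀ i, ∃ m, P m ∧ ∀ j, pr m (A j) = if j = i then (D : ℤ) else 0) :
    Finite (HP R P l hl A) := by
  set N : ℕ := r * D * R with hN
  have hN0 : 0 < N := by positivity
  have hfin : (Set.pi Set.univ fun _ : Fin (d + 1) => {x : UnitAddCircle | N • x = 0}).Finite :=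
    Set.Finite.pi fun _ => AddCircle.finite_torsion (1 : ℝ) hN0
  refine Set.Finite.subset hfin ?_
  intro x hx i _
  change N • x i = 0
  induction i using Fin.lastCases with
  | last =>
    rw [hN, mul_comm, mul_nsmul, HP_last hR hx, smul_zero]
  | cast i =>
    obtain ⟨w, j, h1, h2, h3⟩ := hx
    obtain ⟨z, hz⟩ := HP_tors hlr hA h3 i
    rw [h1, hN, mul_nsmul, ← AddCircle.coe_nsmul, nsmul_eq_mul, hz, coe_int, smul_zero]

theorem ext_memP (hR : 0 < R) {w : Fin d → ℝ} (h : ext R w ∈ HP R P l hl A) :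
    ∃ j z : ℤ, j = 1 + z * R ∧
      ∀ m, P m → (l m) ^ j = ee (∑ i, w i * (pr m (A i) : ℝ)) := by
  obtain ⟨w', j, h1, h2, h3⟩ := h
  have hR' : (R : ℝ) ≠ 0 := by exact_mod_cast hR.ne'
  have e1 : ∀ i, ext R w (Fin.castSucc i) = (w i : UnitAddCircle) := by
    intro i
    rw [ext, Fin.snoc_castSucc]
  have e2 : ext R w (Fin.last d) = ((1 / R : ℝ) : UnitAddCircle) := by
    rw [ext, Fin.snoc_last]
  have h4 : ∀ i, ∃ z : ℤ, w i - w' i = z := fun i => sub_int (by rw [← e1, h1])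
  choose z hz using h4
  obtain ⟨q, hq⟩ := sub_int (e2.symm.trans h2)
  refine ⟨j, -q, ?_, fun m hm => ?_⟩
  · have h5 : (1 : ℝ) - j = q * R := by
      field_simp at hq
      linarith
    have h6 : (1 : ℤ) - j = q * R := by exact_mod_cast h5
    linarith
  · rw [h3 m hm]
    have h5 : ∑ i, w i * (pr m (A i) : ℝ) = ∑ i, w' i * (pr m (A i) : ℝ) +
        ((∑ i, z i * pr m (A i) : ℤ) : ℝ) := by
      push_cast
      rw [← Finset.sum_add_distrib]
      refine Finset.sum_congr rfl fun i _ => ?_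
      rw [← hz i]
      ring
    rw [h5, ee_add, ee_int, mul_one]

theorem ext_memP' {w : Fin d → ℝ} (h : ∀ m, P m → l m = ee (∑ i, w i * (pr m (A i) : ℝ))) :
    ext R w ∈ HP R P l hl A := by
  refine ⟨w, 1, fun i => ?_, ?_, fun m hm => ?_⟩
  · rw [ext, Fin.snoc_castSucc]
  · rw [ext, Fin.snoc_last, Int.cast_one]
  · rw [zpow_one]
    exact h m hm

end

end Q47.TV
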