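import Pool.Agent.Q47.TV.Nbd
import Pool.Agent.Q47.TV.Val2

/-!
# Invariance of the log discrepancy function at a fixed point
-/

set_option autoImplicit false
set_option linter.unusedSectionVars false

namespace Q47.TV

open Pool.Agent.H436R3.Fol Pool.Agent.H436R3.KT Pool.Agent.W497.Mld Pool.Agent.TH165.ACC Q47.QM

variable {n : ℕ} {K : Type} [Field K] [Algebra ℂ K]
  [Algebra (MvPolynomial (Fin n) ℂ) K] [IsFractionRing (MvPolynomial (Fin n) ℂ) K]
  [IsScalarTower ℂ (MvPolynomial (Fin n) ℂ) K]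

variable {g : TorAff n K}

/-- vectors in the relative interior of the face of the point -/
def RI (x : Pt g.X) (u : Fin n → ℤ) : Prop := FC x u ∧ ∀ m ∈ Cn g.E, m ∉ Fx x → 0 < pr m u

theorem exists_RI (x : Pt g.X) : ∃ u, RI x u := by
  classical
  refine ⟨∑ i ∈ Finset.univ.filter (fun i => InF x i), g.E i,
    ⟨fun m hm => ?_, fun m hm => ?_⟩, fun m hm hmx => ?_⟩
  · rw [pr_sum_right]
    exact Finset.sum_nonneg fun i _ => hm i
  · rw [pr_sum_right]
    exact Finset.sum_eq_zero fun i hi => (Finset.mem_filter.1 hi).2 m hm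
  · rw [pr_sum_right]
    have h1 : ∃ i, InF x i ∧ pr m (g.E i) ≠ 0 := by
      by_contra hcon
      push Not at hcon
      exact hmx (mem_Fx hm hcon)
    obtain ⟨i, hi, hi0⟩ := h1
    exact Finset.sum_pos' (fun j _ => hm j) ⟨i, Finset.mem_filter.2 ⟨Finset.mem_univ i, hi⟩,
      lt_of_le_of_ne (hm i) (Ne.symm hi0)⟩

theorem RI.add_FC {x : Pt g.X} {u u' : Fin n → ℤ} (h : FC x u) (h' : RI x u') : RI x (u + u') :=
  ⟨h.add h'.1, fun m hm hmx => by
    rw [pr_add_right]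
    exact add_pos_of_nonneg_of_pos (h.1 m hm) (h'.2 m hm hmx)⟩

/-- a nonzero element of the dual cone -/
theorem exists_ne (g : TorAff n K) (hn : 0 < n) : ∃ m ∈ Cn g.E, m ≠ 0 := by
  by_cases hN : Nonempty (Fin g.N)
  · obtain ⟨i⟩ := hN
    obtain ⟨Q, hQ⟩ := g.pointed
    refine ⟨Q, fun i => (hQ i).le, fun h0 => ?_⟩
    have h2 := hQ i
    rw [h0, pr_zero] at h2
    exact lt_irrefl _ h2
  · refine ⟨Pi.single ⟨0, hn⟩ 1, fun i => absurd ⟨i⟩ hN, fun h0 => ?_⟩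
    have h3 := congrFun h0 ⟨0, hn⟩
    rw [Pi.single_eq_same, Pi.zero_apply] at h3
    exact one_ne_zero h3

theorem mono_ne {x : Pt g.X} (hn : 0 < n) {W : (Fin n → ℤ) →+ (Fin n → ℤ)} {θ : ℂ}
    {U : Fin n → ℤ} {κ : Fin n → ℕ} {y : Fin n → Fin n → ℂ} (hEG : EG W θ (Fx x) U κ y)
    (hUC : ∀ m ∈ Cn g.E, m ∉ Fx x → 0 < pr m U) : U ≠ 0 ∨ ∃ j, κ j ≠ 0 := by
  by_contra hcon
  push Not at hcon
  obtain ⟨hU0, hκ0⟩ := hcon
  obtain ⟨m2, hm2, hm20⟩ := exists_ne g hn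
  by_cases hm3 : m2 ∈ Fx x
  · apply hm20
    have h1 : Matrix.mulVec (Matrix.of y) (cst m2) = 0 := by
      funext j
      obtain ⟨u, hu, huF⟩ := hEG.int j (hκ0 j)
      have h2 : dtc m2 (y j) = 0 := by
        rw [hu, dtc_cst, huF m2 hm3, Int.cast_zero]
      rw [Matrix.mulVec, dotProduct, Pi.zero_apply, ← h2, dtc]
      exact Finset.sum_congr rfl fun i _ => by rw [Matrix.of_apply, cst]; ring
    have h2 := Matrix.eq_zero_of_mulVec_eq_zero hEG.det h1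
    funext i
    have h3 := congrFun h2 i
    rw [cst, Pi.zero_apply] at h3
    exact_mod_cast h3
  · have h1 := hUC m2 hm2 hm3
    rw [hU0] at h1
    simp [pr] at h1

section act

variable {τ : K ≃ₐ[ℂ] K} {W : (Fin n → ℤ) →+ (Fin n → ℤ)} {l : (Fin n → ℤ) → ℂ} {x : Pt g.X}

theorem FC.adj (hcone : ∀ u, g.InCone u → g.InCone (adj W u)) (hfix : Fixes x W l)
    {u : Fin n → ℤ} (h : FC x u) : FC x (Q47.QM.adj W u) :=
  ⟨hcone u h.1, fun m hm => by rw [pr_adj]; exact h.2 _ (hfix.mem hcone hm)⟩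

theorem RI.adj (hl : ∀ m, l m ≠ 0) (hcone : ∀ u, g.InCone u → g.InCone (adj W u))
    (hfix : Fixes x W l) {u : Fin n → ℤ} (h : RI x u) : RI x (Q47.QM.adj W u) :=
  ⟨h.1.adj hcone hfix, fun m hm hmx => by
    rw [pr_adj]
    refine h.2 _ (W_Cn hcone hm) fun h1 => hmx ⟨hm, ?_⟩
    rw [← hfix m hm]
    exact mul_ne_zero (hl m) h1.2⟩

variable {B : EffDiv g.X} {vE : Fin g.N → DVal K} {Φ : (Fin n → ℤ) → ℝ}

theorem phi_le (hvE : ∀ i, IsMonomial n (vE i))
    (htE : ∀ i, (tv (vE i) : Fin n → ℤ) = g.E i)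
    (htor : ∀ v : DVal K, (∀ i : Fin n, v.ord (cv K i) = 0) → B.mult v = 0)
    (hΦ : LDX vE B x Φ) (e : LocEq B x) (hn : 0 < n) (hmo : Mo τ W l)
    (hτ : ∀ v b, IsOverGerm x v → IsLogDisc e v b →
      IsOverGerm x (tw v τ) ∧ IsLogDisc e (tw v τ) b)
    {U : Fin n → ℤ} (hU : RI x U) : Φ (adj W U) ≤ Φ U := by
  classical
  set c1 := Module.finrank ℂ (Submodule.span ℂ (cst '' {m | m ∈ Fx x ∧
    (AddMonoidHom.id (Fin n → ℤ)) m = m})) with hc1
  have h1r : IsPrimitiveRoot (1 : ℂ) 1 := IsPrimitiveRoot.one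
  obtain ⟨k, y, J, hEB⟩ := exists_eb2 (W := AddMonoidHom.id (Fin n → ℤ)) h1r one_pos
    (fun m => rfl) (F := Fx x) (fun m hm => by
      rw [avg, Finset.sum_range_one]
      exact hm) hc1.symm
  have hk0 : ∀ j, k j = 0 := fun j => Nat.lt_one_iff.1 (hEB.eb.lt j)
  obtain ⟨κ, hEG, hκ, hκJ⟩ := hEB.gen one_pos one_pos (θ' := 1) (one_pow 1) (one_pow 1) (U := U)
    (fun m => rfl) hU.1.2
  obtain ⟨ch, hch0, hchm, hchW, hchx⟩ := exists_char2 (W := AddMonoidHom.id (Fin n → ℤ))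
    (l := fun _ => 1) (U := U) (θ := 1) one_ne_zero (fun _ => one_ne_zero)
    (fun _ _ => (one_mul 1).symm)
    (F1 := Fx x) Fx_zero (fun _ h _ h' => Fx_add h h') (χ := yx x) (fun _ h => h.2)
    (fun _ h _ h' => yx_add x h.1 h'.1) (fun m1 _ m2 _ m3 h => by
      have h2 : m1 - m2 = 0 := by rw [← h]; exact sub_self _
      rw [sub_eq_zero.1 h2, one_zpow, div_one, one_mul])
  obtain ⟨c, v, a, hc0, hov, ha, -, -, hUc, hle⟩ := exists_val2 (x := x) (Mo.one (K := K)) one_pos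
    h1r hEG (fun m => rfl) (mono_ne hn hEG hU.2) hU.1.2 hU.2 hch0 hchm hchW hchx
  have hb := (disc_point hΦ hvE htE htor (fun m hm => hm) e hov _).2 ⟨a, ha, rfl⟩
  obtain ⟨hov2, hb2⟩ := hτ v _ hov hb
  obtain ⟨a2, ha2, h3⟩ := (disc_point hΦ hvE htE htor (fun m hm => hm) e hov2 _).1 hb2
  have hW := over_FC hov2
  rw [tv_tw hmo] at h3 hW
  obtain ⟨μ, hμF, hμli⟩ := exists_mu {m | m ∈ Fx x ∧ (AddMonoidHom.id (Fin n → ℤ)) m = m}
  have hlow := lower_fix g.e g.hT ha2 (σ := 1) (W := AddMonoidHom.id (Fin n → ℤ))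
    (l := fun _ => 1) (θ := 1) (r := 1) (fun f _ => by
      rw [AlgEquiv.one_apply, sub_self]; exact pos_zero) one_pos (one_pow 1) h1r Ch.one Mo.one
    hEB.eb μ hμli (fun i => rfl) (z := fun i => yx x (μ i)) (fun i => over_uc hov2 (hμF i).1)
  rw [← hc1] at hlow
  have e1 : adj W U = (c : ℤ) • adj W (tv v) := by
    conv_lhs => rw [hUc]
    rw [← adjH_apply, ← adjH_apply, map_zsmul]
  have e2 : Φ U = c * Φ (tv v) := by
    conv_lhs => rw [hUc]
    exact hΦ.smul c (over_FC hov)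
  rw [e1, hΦ.smul c hW, e2]
  have h4 : (c1 : ℝ) ≤ a2 + 1 := by
    have h5 : (c1 : ℤ) ≤ a2 + 1 := by
      have h6 : 0 ≤ ∑ j, (k j : ℤ) := Finset.sum_nonneg fun j _ => Int.natCast_nonneg _
      push_cast at hlow
      linarith
    exact_mod_cast h5
  have h5 : (c : ℝ) * (a + 1) ≤ c1 := by
    have h6 : (c : ℤ) * (a + 1) ≤ c1 := by
      refine hle.trans ?_
      have h7 : ∑ j, κ j ≤ c1 := by
        refine hκ.trans ?_
        rw [Finset.sum_eq_zero fun j _ => hk0 j]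
        omega
      exact_mod_cast h7
    exact_mod_cast h6
  have h6 : (1 : ℝ) ≤ c := by exact_mod_cast hc0
  have h7 : (0 : ℝ) ≤ c1 := Nat.cast_nonneg _
  have h8 : (c : ℝ) * c1 ≤ c * (a2 + 1) := mul_le_mul_of_nonneg_left h4 (by linarith)
  have h9 : (c1 : ℝ) ≤ c * c1 := le_mul_of_one_le_left h7 h6
  have h10 : (c : ℝ) * (1 + a + Φ (tv v)) = c * (1 + a2 + Φ (adj W (tv v))) := by rw [h3]
  nlinarith

theorem phi_inv (hvE : ∀ i, IsMonomial n (vE i))
    (htE : ∀ i, (tv (vE i) : Fin n → ℤ) = g.E i)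
    (htor : ∀ v : DVal K, (∀ i : Fin n, v.ord (cv K i) = 0) → B.mult v = 0)
    (hΦ : LDX vE B x Φ) (e : LocEq B x) (hn : 0 < n) (hmo : Mo τ W l)
    (hτ : ∀ v b, IsOverGerm x v → IsLogDisc e v b →
      IsOverGerm x (tw v τ) ∧ IsLogDisc e (tw v τ) b)
    (hcone : ∀ u, g.InCone u → g.InCone (adj W u)) (hfix : Fixes x W l) {r : ℕ} (hr : 0 < r)
    (hW : ∀ m, W^[r] m = m) {u : Fin n → ℤ} (hu : FC x u) : Φ (adj W u) = Φ u := by
  have h1 : ∀ u, RI x u → Φ (adj W u) = Φ u := by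
    intro u hu
    have h2 : ∀ s : ℕ, RI x ((adjH W)^[s] u) ∧ Φ ((adjH W)^[s + 1] u) ≤ Φ ((adjH W)^[1] u) := by
      intro s
      induction s with
      | zero => exact ⟨hu, le_rfl⟩
      | succ s ih =>
        obtain ⟨h3, h4⟩ := ih
        have h5 := h3.adj hmo.1 hcone hfix
        have h6 : adj W ((adjH W)^[s] u) = (adjH W)^[s + 1] u := by
          rw [Function.iterate_succ_apply']; rfl
        rw [h6] at h5
        have h7 := phi_le hvE htE htor hΦ e hn hmo hτ h5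
        have h8 : adj W ((adjH W)^[s + 1] u) = (adjH W)^[s + 1 + 1] u := by
          rw [Function.iterate_succ_apply' (adjH W) (s + 1)]; rfl
        rw [h8] at h7
        exact ⟨h5, h7.trans h4⟩
    refine le_antisymm (phi_le hvE htE htor hΦ e hn hmo hτ hu) ?_
    have h4 := (h2 (r - 1)).2
    rw [Nat.sub_add_cancel hr] at h4
    have h5 : (adjH W)^[r] u = u := by
      apply pr_ext
      intro m
      rw [pr_adj_iter, hW]
    rw [h5] at h4
    exact h4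
  obtain ⟨U, hU⟩ := exists_RI x
  have h3 := h1 _ (RI.add_FC hu hU)
  have h4 := h1 _ hU
  have h5 : adj W (u + U) = adj W u + adj W U := by
    rw [← adjH_apply, ← adjH_apply, ← adjH_apply, map_add]
  rw [h5, hΦ.add (hu.adj hcone hfix) (hU.1.adj hcone hfix), hΦ.add hu hU.1, h4] at h3
  linarith

end act

end Q47.TV
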