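import Pool.Agent.Q47.TV.Conj

/-!
# Varieties which are locally toric for each element of the group
-/

set_option autoImplicit false
set_option linter.unusedSectionVars false

namespace Q47.TV

open Pool.Agent.H436R3.Fol Pool.Agent.H436R3.KT Pool.Agent.W497.Mld Pool.Agent.TH165.ACC Q47.QM

variable {n : ℕ} {K : Type} [Field K] [Algebra ℂ K]
  [Algebra (MvPolynomial (Fin n) ℂ) K] [IsFractionRing (MvPolynomial (Fin n) ℂ) K]
  [IsScalarTower ℂ (MvPolynomial (Fin n) ℂ) K]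

variable {X : AffVar K} {B : EffDiv X}

/-- `σ` is an automorphism of the variety `X` which preserves log discrepancies: `v` is a divisor over
the closed point `x` with log discrepancy `b` if and only if `v ∘ σ` is one over the image of `x`. -/
def IsAutX (E : ∀ x : Pt X, LocEq B x) (σ : K ≃ₐ[ℂ] K) : Prop :=
  (∀ f, σ f ∈ X.R ↔ f ∈ X.R) ∧
  ∀ x x' : Pt X, (∀ f f' : X.R, (f' : K) = σ f → x' f = x f') → ∀ (v : DVal K) (b : ℝ),
    IsOverGerm x v ∧ IsLogDisc (E x) v b ↔ IsOverGerm x' (tw v σ) ∧ IsLogDisc (E x') (tw v σ) b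

/-- `σ` fixes the closed point `x`. -/
def FixesPt (x : Pt X) (σ : K ≃ₐ[ℂ] K) : Prop := ∀ f f' : X.R, (f' : K) = σ f → x f = x f'

/-- A toric chart for the automorphism `σ`: the isomorphism `γ` of function fields makes `X` the
principal open subset `h ≠ 0` of an affine toric variety with a torus invariant boundary, divisors
over corresponding closed points correspond and have the same log discrepancies, and `σ` becomes a
monomial automorphism of the affine toric variety. -/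
structure Chart (n : ℕ) {K : Type} [Field K] [Algebra ℂ K]
    [Algebra (MvPolynomial (Fin n) ℂ) K] [IsFractionRing (MvPolynomial (Fin n) ℂ) K]
    [IsScalarTower ℂ (MvPolynomial (Fin n) ℂ) K] {X : AffVar K} {B : EffDiv X}
    (E : ∀ x : Pt X, LocEq B x) (σ : K ≃ₐ[ℂ] K) where
  g : TorAff n K
  B' : EffDiv g.X
  E' : ∀ y : Pt g.X, LocEq B' y
  htor : ∀ v : DVal K, (∀ i : Fin n, v.ord (cv K i) = 0) → B'.mult v = 0
  γ : K ≃ₐ[ℂ] K
  h : g.X.R
  h0 : (h : K) ≠ 0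
  isOpen : ∀ q : K, q ∈ X.R ↔ ∃ (N : ℕ) (c : g.X.R), q * γ h ^ N = γ c
  disc : ∀ (x : Pt X) (y : Pt g.X), (∀ (f : X.R) (c : g.X.R), (f : K) = γ c → x f = y c) →
    ∀ (v : DVal K) (b : ℝ), IsOverGerm x v ∧ IsLogDisc (E x) v b ↔
      IsOverGerm y (tw v γ) ∧ IsLogDisc (E' y) (tw v γ) b
  aut : ∀ c, (γ⁻¹ * σ * γ) c ∈ g.X.R ↔ c ∈ g.X.R
  mono : IsMono n (γ⁻¹ * σ * γ)

variable {E : ∀ x : Pt X, LocEq B x}

section chart

variable {σ : K ≃ₐ[ℂ] K}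

theorem Chart.mem (C : Chart n E σ) (c : C.g.X.R) : C.γ (c : K) ∈ X.R :=
  (C.isOpen _).2 ⟨0, c, by rw [pow_zero, mul_one]⟩

/-- the open immersion on closed points -/
noncomputable def Chart.pt (C : Chart n E σ) (x : Pt X) : Pt C.g.X :=
  x.comp (((C.γ : K →ₐ[ℂ] K).comp C.g.X.R.val).codRestrict X.R fun c => C.mem c)

theorem Chart.pt_spec (C : Chart n E σ) (x : Pt X) (f : X.R) (c : C.g.X.R)
    (h : (f : K) = C.γ c) : x f = C.pt x c := by
  have h1 : f = ⟨C.γ c, C.mem c⟩ := Subtype.ext h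
  rw [h1]
  rfl

end chart

/-- the property holds for all closed points of a principal open neighbourhood of `x` -/
def NX (x : Pt X) (P : Pt X → Prop) : Prop :=
  ∃ f : X.R, x f ≠ 0 ∧ ∀ x' : Pt X, x' f ≠ 0 → P x'

theorem NX.and {x : Pt X} {P Q : Pt X → Prop} (h : NX x P) (h' : NX x Q) :
    NX x fun x' => P x' ∧ Q x' := by
  obtain ⟨f, hf, hfP⟩ := h
  obtain ⟨f', hf', hfQ⟩ := h'
  refine ⟨f * f', by rw [map_mul]; exact mul_ne_zero hf hf', fun x' hx' => ?_⟩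
  rw [map_mul] at hx'
  exact ⟨hfP x' (left_ne_zero_of_mul hx'), hfQ x' (right_ne_zero_of_mul hx')⟩

theorem NX.mono {x : Pt X} {P Q : Pt X → Prop} (h : NX x P) (hPQ : ∀ x', P x' → Q x') :
    NX x Q := by
  obtain ⟨f, hf, hfP⟩ := h
  exact ⟨f, hf, fun x' hx' => hPQ x' (hfP x' hx')⟩

theorem NX.finite {x : Pt X} {ι : Type} [Finite ι] {P : ι → Pt X → Prop}
    (h : ∀ i, NX x (P i)) : NX x fun x' => ∀ i, P i x' := by
  choose f hf hfP using h
  have := Fintype.ofFinite ι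
  refine ⟨∏ i, f i, by rw [map_prod]; exact Finset.prod_ne_zero_iff.2 fun i _ => hf i,
    fun x' hx' i => hfP i x' ?_⟩
  rw [map_prod] at hx'
  exact Finset.prod_ne_zero_iff.1 hx' i (Finset.mem_univ i)

theorem NX.all {x : Pt X} {P : Pt X → Prop} (h : ∀ x', P x') : NX x P :=
  ⟨1, by rw [map_one]; exact one_ne_zero, fun x' _ => h x'⟩

theorem nx_fix (x : Pt X) (σ : K ≃ₐ[ℂ] K) : NX x fun x' => FixesPt x' σ → FixesPt x σ := by
  by_cases h : FixesPt x σ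
  · exact NX.all fun _ _ => h
  rw [FixesPt] at h
  push Not at h
  obtain ⟨f, f', hff, hne⟩ := h
  refine ⟨f - f', by rw [map_sub]; exact sub_ne_zero.2 hne, fun x' hx' hfix => ?_⟩
  rw [map_sub, hfix f f' hff, sub_self] at hx'
  exact absurd rfl hx'

theorem Chart.pull {σ : K ≃ₐ[ℂ] K} (C : Chart n E σ) {x : Pt X} {P : Pt C.g.X → Prop}
    (hP : Nb (C.pt x) P) : NX x fun x' => P (C.pt x') := by
  obtain ⟨f, hf, hfP⟩ := hP
  exact ⟨⟨C.γ f, C.mem f⟩, hf, fun x' hx' => hfP _ hx'⟩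

/-- the inertia group fixes the centre -/
theorem fixesPt_of_InI {σ : K ≃ₐ[ℂ] K} {x : Pt X} {v : DVal K} (hov : IsOverGerm x v)
    (hI : InI v σ) : FixesPt x σ := by
  intro f f' hff
  have hreg : v.Reg (f : K) := by
    obtain ⟨⟨S, -, hRS, hSv⟩, -⟩ := hov
    exact hSv.1 _ (hRS f.2)
  have h1 := hI _ hreg
  rw [← hff] at h1
  have h2 := (hov.2 (f' - f)).1 h1
  rw [map_sub] at h2
  exact (sub_eq_zero.1 h2).symm

theorem Chart.at_fix {σ : K ≃ₐ[ℂ] K} (C : Chart n E σ) (hσ : IsAutX E σ) {x : Pt X}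
    (hx : FixesPt x σ) (v : DVal K) (b : ℝ) (h1 : IsOverGerm (C.pt x) v)
    (h2 : IsLogDisc (C.E' (C.pt x)) v b) :
    IsOverGerm (C.pt x) (tw v (C.γ⁻¹ * σ * C.γ)) ∧
      IsLogDisc (C.E' (C.pt x)) (tw v (C.γ⁻¹ * σ * C.γ)) b := by
  have h3 := C.disc x (C.pt x) (C.pt_spec x) (tw v C.γ⁻¹) b
  rw [tw_tw, inv_mul_cancel, tw_one] at h3
  have h4 := (hσ.2 x x hx _ b).1 (h3.2 ⟨h1, h2⟩)
  have h5 := (C.disc x (C.pt x) (C.pt_spec x) _ b).1 h4
  rw [tw_tw, tw_tw, ← mul_assoc] at h5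
  exact h5

theorem lsc_chart (G : Subgroup (K ≃ₐ[ℂ] K)) [Finite G] (hG : ∀ σ ∈ G, IsAutX E σ) (x : Pt X)
    (hx : ∀ σ ∈ G, FixesPt x σ → Nonempty (Chart n E σ)) :
    NX x fun x' => ∀ m : ℝ, 0 ≤ m →
      (∀ v b, IsOverGerm x v → IsLogDisc (E x) v b →
        m ≤ b / Nat.card (G ⊓ Ig v : Subgroup (K ≃ₐ[ℂ] K))) →
      ∀ v b, IsOverGerm x' v → IsLogDisc (E x') v b →
        m ≤ b / Nat.card (G ⊓ Ig v : Subgroup (K ≃ₐ[ℂ] K)) := by
  classical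
  rcases Nat.eq_zero_or_pos n with hn | hn
  · subst hn
    exact NX.all fun _ _ _ _ v _ _ _ => (no_dval v).elim
  obtain ⟨R, hR, hRW⟩ := exists_R n
  have hc : 0 < Nat.card G := Nat.card_pos
  have hpow : ∀ σ ∈ G, σ ^ Nat.card G = 1 := by
    intro σ hσ
    have h1 : (⟨σ, hσ⟩ : G) ^ Nat.card G = 1 := pow_card_eq_one'
    have h2 : (((⟨σ, hσ⟩ : G) ^ Nat.card G : G) : K ≃ₐ[ℂ] K) = 1 := by rw [h1]; rfl
    rw [Subgroup.coe_pow] at h2
    exact h2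
  have hfin : ∀ σ ∈ G, ∀ C : Chart n E σ, (C.γ⁻¹ * σ * C.γ) ^ Nat.card G = 1 := by
    intro σ hσ C
    have h3 := conj_pow (i := Nat.card G) (a := C.γ⁻¹) (b := σ)
    rw [inv_inv] at h3
    rw [h3, hpow σ hσ, mul_one, inv_mul_cancel]
  have hmain : ∀ σ : G, NX x fun x' => (FixesPt x' σ.1 → FixesPt x σ.1) ∧
      ∀ hf : FixesPt x σ.1, ∃ (C : Chart n E σ.1) (W : (Fin n → ℤ) →+ (Fin n → ℤ))
        (l : (Fin n → ℤ) → ℂ), Mo (C.γ⁻¹ * σ.1 * C.γ) W l ∧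
        (∀ m ∈ Fx (C.pt x), m ∈ Fx (C.pt x')) ∧
        (Fixes (C.pt x') W l → Fixes (C.pt x) W l ∧
          ∀ m1 ∈ Fx (C.pt x), ∀ m2 ∈ Fx (C.pt x), ∀ m', W m' - m' = m1 - m2 →
            yx (C.pt x') m1 * yx (C.pt x) m2 = yx (C.pt x') m2 * yx (C.pt x) m1) := by
    intro σ
    refine (nx_fix x σ.1).and ?_
    by_cases hf : FixesPt x σ.1
    · obtain ⟨C⟩ := hx σ.1 σ.2 hf
      obtain ⟨W, l, hmo⟩ := exists_mo C.mono
      have hit : ∀ m, W^[Nat.card G] m = m := hmo.iter_eq (hfin σ.1 σ.2 C)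
      exact (C.pull (nb_main (l := l) hmo.1 (cone_aut hmo C.aut) hR (hRW W _ hc hit)
        (C.pt x))).mono fun x' hx' _ => ⟨C, W, l, hmo, hx'⟩
    · exact NX.all fun _ h => absurd h hf
  refine (NX.finite hmain).mono ?_
  intro x' hx' m hm0 hm v b hov hb
  obtain ⟨hr, σ, hσG, hI, hσr, hch⟩ := exists_gen G v
  rw [ee_root] at hch
  obtain ⟨h1, h2⟩ := hx' ⟨σ, hσG⟩
  have hfx := h1 (fixesPt_of_InI hov hI)
  obtain ⟨C, W, l, hmo, hxx, hfix0⟩ := h2 hfx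
  have hit : ∀ m, W^[Nat.card G] m = m := hmo.iter_eq (hfin σ hσG C)
  have hcone := cone_aut hmo C.aut
  have hI' := tw_InI (γ := C.γ) hI
  have hch' := tw_Ch (γ := C.γ) hch
  obtain ⟨hov', hb'⟩ := (C.disc x' (C.pt x') (C.pt_spec x') v b).1 ⟨hov, hb⟩
  have hfix' : Fixes (C.pt x') W l := fixes_of_InI hmo hcone hov' hI'
  obtain ⟨hfix, hchar⟩ := hfix0 hfix'
  have hfinite := cg_finite G C.γ
  choose vE hvE htE using fun i => exists_mon (K := K) (C.g.prim i)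
  obtain ⟨Φ, hΦ⟩ := exists_phi3 hvE htE C.htor (C.E' (C.pt x))
  refine lsc_one (G := cg G C.γ) hR hn hvE htE (fun i => mult_nonneg C.B' (vE i)) C.htor hΦ
    (C.E' (C.pt x)) (C.E' (C.pt x')) hov' hb' hr ?_ hI' ?_ hch'
    hmo (hRW W _ hc hit) hcone (fun u hu => phi_inv hvE htE C.htor hΦ
      (C.E' (C.pt x)) hn hmo (C.at_fix (hG σ hσG) hfx) hcone hfix hc hit hu) hxx hfix hchar hm0 ?_
  · rw [mem_cg]
    have h1 : C.γ * (C.γ⁻¹ * σ * C.γ) * C.γ⁻¹ = σ := by group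
    rw [h1]
    exact hσG
  · have h3 := conj_pow (i := Nat.card (G ⊓ Ig v : Subgroup (K ≃ₐ[ℂ] K))) (a := C.γ⁻¹) (b := σ)
    rw [inv_inv] at h3
    rw [h3, hσr, mul_one, inv_mul_cancel]
  · intro v b h1 h2
    have h3 := C.disc x (C.pt x) (C.pt_spec x) (tw v C.γ⁻¹) b
    rw [tw_tw, inv_mul_cancel, tw_one] at h3
    obtain ⟨h4, h5⟩ := h3.2 ⟨h1, h2⟩
    rw [card_cg]
    exact hm _ _ h4 h5

open Classical in
/-- the minimal log discrepancy at the image of `x` of the quotient by `G` -/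
noncomputable def quotMld (E : ∀ x : Pt X, LocEq B x)
    (G : Subgroup (K ≃ₐ[ℂ] K)) (x : Pt X) : EReal :=
  if (sInf {a : EReal | ∃ (v : DVal K) (b : ℝ), IsOverGerm x v ∧ IsLogDisc (E x) v b ∧
    a = ((b / Nat.card {σ : G // ∀ f, v.Reg f → v.Pos ((σ : K ≃ₐ[ℂ] K) f - f)} : ℝ) : EReal)}) < 0
  then ⊥
  else sInf {a : EReal | ∃ (v : DVal K) (b : ℝ), IsOverGerm x v ∧ IsLogDisc (E x) v b ∧
    a = ((b / Nat.card {σ : G // ∀ f, v.Reg f → v.Pos ((σ : K ≃ₐ[ℂ] K) f - f)} : ℝ) : EReal)}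

theorem lsc_loc (G : Subgroup (K ≃ₐ[ℂ] K)) [Finite G] (hG : ∀ σ ∈ G, IsAutX E σ) (x : Pt X)
    (hx : ∀ σ ∈ G, FixesPt x σ → Nonempty (Chart n E σ)) :
    ∃ f : X.R, x f ≠ 0 ∧ ∀ x' : Pt X, x' f ≠ 0 → quotMld E G x ≤ quotMld E G x' := by
  refine (lsc_chart G hG x hx).mono ?_
  intro x' key
  rw [quotMld]
  split_ifs with h1
  · exact bot_le
  push Not at h1
  set i := sInf {a : EReal | ∃ (v : DVal K) (b : ℝ), IsOverGerm x v ∧ IsLogDisc (E x) v b ∧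
    a = ((b / Nat.card {σ : G // ∀ f, v.Reg f → v.Pos ((σ : K ≃ₐ[ℂ] K) f - f)} : ℝ) : EReal)}
    with hi
  have hval : ∀ v b, IsOverGerm x v → IsLogDisc (E x) v b →
      i ≤ ((b / Nat.card (G ⊓ Ig v : Subgroup (K ≃ₐ[ℂ] K)) : ℝ) : EReal) := by
    intro v b hv hb
    rw [← card_inert]
    exact sInf_le ⟨v, b, hv, hb, rfl⟩
  have hle : i ≤ sInf {a : EReal | ∃ (v : DVal K) (b : ℝ), IsOverGerm x' v ∧
      IsLogDisc (E x') v b ∧
      a = ((b / Nat.card {σ : G // ∀ f, v.Reg f → v.Pos ((σ : K ≃ₐ[ℂ] K) f - f)} : ℝ) :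
        EReal)} := by
    refine le_sInf ?_
    rintro _ ⟨v, b, hv, hb, rfl⟩
    rw [card_inert, ← EReal.ge_of_forall_gt_iff_ge]
    intro z hz
    rcases le_total 0 z with h0 | h0
    · have h2 := key z h0 (fun v b hv hb => by
        have h3 := hz.le.trans (hval v b hv hb)
        exact_mod_cast h3) v b hv hb
      exact_mod_cast h2
    · have h2 := key 0 le_rfl (fun v b hv hb => by
        have h3 := h1.trans (hval v b hv hb)
        exact_mod_cast h3) v b hv hb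
      have h3 : z ≤ b / Nat.card (G ⊓ Ig v : Subgroup (K ≃ₐ[ℂ] K)) := h0.trans h2
      exact_mod_cast h3
  rw [quotMld, if_neg (not_lt.2 (h1.trans hle))]
  exact hle

end Q47.TV
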