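import Pool.Agent.Q47.TV.Pt2

/-!
# Neighbourhoods of closed points
-/

set_option autoImplicit false
set_option linter.unusedSectionVars false

namespace Q47.TV

open Pool.Agent.H436R3.Fol Pool.Agent.H436R3.KT Pool.Agent.W497.Mld Pool.Agent.TH165.ACC Q47.QM

variable {n : ℕ} {K : Type} [Field K] [Algebra ℂ K]
  [Algebra (MvPolynomial (Fin n) ℂ) K] [IsFractionRing (MvPolynomial (Fin n) ℂ) K]
  [IsScalarTower ℂ (MvPolynomial (Fin n) ℂ) K]

variable {g : TorAff n K}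

/-- the property holds for all closed points of a principal open neighbourhood of `x` -/
def Nb (x : Pt g.X) (P : Pt g.X → Prop) : Prop :=
  ∃ f : g.X.R, x f ≠ 0 ∧ ∀ x' : Pt g.X, x' f ≠ 0 → P x'

theorem Nb.and {x : Pt g.X} {P Q : Pt g.X → Prop} (h : Nb x P) (h' : Nb x Q) :
    Nb x fun x' => P x' ∧ Q x' := by
  obtain ⟨f, hf, hfP⟩ := h
  obtain ⟨f', hf', hfQ⟩ := h'
  refine ⟨f * f', by rw [map_mul]; exact mul_ne_zero hf hf', fun x' hx' => ?_⟩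
  rw [map_mul] at hx'
  exact ⟨hfP x' (left_ne_zero_of_mul hx'), hfQ x' (right_ne_zero_of_mul hx')⟩

theorem Nb.mono {x : Pt g.X} {P Q : Pt g.X → Prop} (h : Nb x P) (hPQ : ∀ x', P x' → Q x') :
    Nb x Q := by
  obtain ⟨f, hf, hfP⟩ := h
  exact ⟨f, hf, fun x' hx' => hPQ x' (hfP x' hx')⟩

theorem Nb.finite {x : Pt g.X} {ι : Type} [Finite ι] {P : ι → Pt g.X → Prop}
    (h : ∀ i, Nb x (P i)) : Nb x fun x' => ∀ i, P i x' := by
  choose f hf hfP using h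
  have := Fintype.ofFinite ι
  refine ⟨∏ i, f i, by rw [map_prod]; exact Finset.prod_ne_zero_iff.2 fun i _ => hf i,
    fun x' hx' i => hfP i x' ?_⟩
  rw [map_prod] at hx'
  exact Finset.prod_ne_zero_iff.1 hx' i (Finset.mem_univ i)

theorem Nb.all {x : Pt g.X} {P : Pt g.X → Prop} (h : ∀ x', P x') : Nb x P :=
  ⟨1, by rw [map_one]; exact one_ne_zero, fun x' _ => h x'⟩

theorem nb_face (x : Pt g.X) : Nb x fun x' => ∀ m ∈ Fx x, m ∈ Fx x' := by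
  obtain ⟨m0, hm0, hpos⟩ := exists_m0 x
  refine ⟨⟨ym K m0, ym_mem hm0.1⟩, ?_, fun x' hx' m hm => ?_⟩
  · rw [← yx_eq x (ym_mem hm0.1)]
    exact hm0.2
  · rw [← yx_eq x' (ym_mem hm0.1)] at hx'
    exact Fx_mono hm0 hpos ⟨hm0.1, hx'⟩ hm

theorem yx_sum (x : Pt g.X) {f : ℕ → Fin n → ℤ} (h : ∀ s, f s ∈ Cn g.E) (R : ℕ) :
    yx x (∑ s ∈ Finset.range R, f s) = ∏ s ∈ Finset.range R, yx x (f s) := by
  induction R with
  | zero => rw [Finset.sum_range_zero, Finset.prod_range_zero, yx_zero]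
  | succ R ih =>
    have hS : ∀ R, ∑ s ∈ Finset.range R, f s ∈ Cn g.E := by
      intro R
      induction R with
      | zero => rw [Finset.sum_range_zero]; exact Cn_zero
      | succ R ih => rw [Finset.sum_range_succ]; exact Cn_add ih (h R)
    rw [Finset.sum_range_succ, Finset.prod_range_succ, yx_add x (hS R) (h R), ih]

section act

variable {W : (Fin n → ℤ) →+ (Fin n → ℤ)} {l : (Fin n → ℤ) → ℂ}

theorem nb_fix (hcone : ∀ u, g.InCone u → g.InCone (adj W u)) (x : Pt g.X) :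
    Nb x fun x' => Fixes x' W l → Fixes x W l := by
  by_cases h : Fixes x W l
  · exact Nb.all fun _ _ => h
  rw [Fixes] at h
  push Not at h
  obtain ⟨m, hm, hne⟩ := h
  have hWm := W_Cn hcone hm
  have hev : ∀ x' : Pt g.X, x' (algebraMap ℂ g.X.R (l m) * ⟨ym K (W m), ym_mem hWm⟩ -
      ⟨ym K m, ym_mem hm⟩) = l m * yx x' (W m) - yx x' m := by
    intro x'
    rw [map_sub, map_mul, AlgHom.commutes, yx_eq x' (ym_mem hm), yx_eq x' (ym_mem hWm)]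
    rfl
  refine ⟨algebraMap ℂ g.X.R (l m) * ⟨ym K (W m), ym_mem hWm⟩ - ⟨ym K m, ym_mem hm⟩, ?_,
    fun x' hx' hfix => ?_⟩
  · rw [hev]
    exact sub_ne_zero.2 hne
  · rw [hev, hfix m hm, sub_self] at hx'
    exact absurd rfl hx'

/-- the products of the constants -/
def lam (W : (Fin n → ℤ) →+ (Fin n → ℤ)) (l : (Fin n → ℤ) → ℂ) (s : ℕ) (m : Fin n → ℤ) : ℂ :=
  ∏ t ∈ Finset.range s, l (W^[t] m)

theorem Fixes.iter_val {x : Pt g.X} (h : Fixes x W l)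
    (hcone : ∀ u, g.InCone u → g.InCone (adj W u)) {m : Fin n → ℤ} (hm : m ∈ Fx x) (s : ℕ) :
    yx x (W^[s] m) * lam W l s m = yx x m := by
  induction s with
  | zero => rw [lam, Finset.prod_range_zero, mul_one]; rfl
  | succ s ih =>
    have h1 := h _ (h.iter hcone hm s).1
    rw [lam, Finset.prod_range_succ, Function.iterate_succ_apply', ← ih, ← h1, lam]
    ring

theorem Fixes.avg_val {x : Pt g.X} (h : Fixes x W l)
    (hcone : ∀ u, g.InCone u → g.InCone (adj W u)) {m : Fin n → ℤ} (hm : m ∈ Fx x) (R : ℕ) :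
    yx x (Q47.QM.avg W R m) * ∏ s ∈ Finset.range R, lam W l s m = yx x m ^ R := by
  rw [Q47.QM.avg, yx_sum x (fun s => (h.iter hcone hm s).1), ← Finset.prod_mul_distrib,
    Finset.prod_congr rfl fun s _ => h.iter_val hcone hm s, Finset.prod_const, Finset.card_range]

theorem avg_eq {R : ℕ} (hR : ∀ m, W^[R] m = m) {m1 m2 m' : Fin n → ℤ}
    (h : W m' - m' = m1 - m2) : avg W R m1 = avg W R m2 := by
  have h1 : ∀ m, avg W R m = avg W R (W m) := by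
    intro m
    rw [avg, avg]
    have h3 := Finset.sum_range_succ (fun s => W^[s] m) R
    have h4 := Finset.sum_range_succ' (fun s => W^[s] m) R
    rw [h3, hR] at h4
    exact add_right_cancel h4
  have h2 : ∀ a b, avg W R (a - b) = avg W R a - avg W R b := by
    intro a b
    rw [avg, avg, avg, ← Finset.sum_sub_distrib]
    exact Finset.sum_congr rfl fun s _ => iterate_map_sub W s a b
  have h3 := h2 m1 m2
  rw [← h, h2, ← h1, sub_self] at h3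
  exact (sub_eq_zero.1 h3.symm)

/-- the quotients of values are roots of unity -/
theorem root_val (hl : ∀ m, l m ≠ 0) (hcone : ∀ u, g.InCone u → g.InCone (adj W u)) {R : ℕ}
    (hR : ∀ m, W^[R] m = m) {x x' : Pt g.X} (h : Fixes x W l) (h' : Fixes x' W l)
    (hxx : ∀ m ∈ Fx x, m ∈ Fx x') {m1 m2 m' : Fin n → ℤ} (hm1 : m1 ∈ Fx x) (hm2 : m2 ∈ Fx x)
    (hmm : W m' - m' = m1 - m2) :
    (yx x' m1 * yx x m2) ^ R = (yx x' m2 * yx x m1) ^ R := by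
  have hne : ∀ m, ∏ s ∈ Finset.range R, lam W l s m ≠ 0 := fun m =>
    Finset.prod_ne_zero_iff.2 fun s _ => Finset.prod_ne_zero_iff.2 fun t _ => hl _
  rw [mul_pow, mul_pow, ← h'.avg_val hcone (hxx _ hm1), ← h.avg_val hcone hm2,
    ← h'.avg_val hcone (hxx _ hm2), ← h.avg_val hcone hm1, avg_eq hR hmm]
  ring

theorem nb_one (hl : ∀ m, l m ≠ 0) (hcone : ∀ u, g.InCone u → g.InCone (adj W u)) {R : ℕ}
    (hR0 : 0 < R) (hR : ∀ m, W^[R] m = m) {x : Pt g.X} (h : Fixes x W l)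
    {m1 m2 m' : Fin n → ℤ} (hm1 : m1 ∈ Fx x) (hm2 : m2 ∈ Fx x) (hmm : W m' - m' = m1 - m2) :
    Nb x fun x' => Fixes x' W l → (∀ m ∈ Fx x, m ∈ Fx x') →
      yx x' m1 * yx x m2 = yx x' m2 * yx x m1 := by
  classical
  let Z : Finset ℂ := (Polynomial.nthRootsFinset R (1 : ℂ)).erase 1
  have hev : ∀ (ζ : ℂ) (x' : Pt g.X), x' (algebraMap ℂ g.X.R (yx x m2) *
      ⟨ym K m1, ym_mem hm1.1⟩ - algebraMap ℂ g.X.R (ζ * yx x m1) * ⟨ym K m2, ym_mem hm2.1⟩) =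
      yx x m2 * yx x' m1 - ζ * yx x m1 * yx x' m2 := by
    intro ζ x'
    rw [map_sub, map_mul, map_mul, AlgHom.commutes, AlgHom.commutes, yx_eq x' (ym_mem hm1.1),
      yx_eq x' (ym_mem hm2.1)]
    rfl
  refine ⟨∏ ζ ∈ Z, (algebraMap ℂ g.X.R (yx x m2) * ⟨ym K m1, ym_mem hm1.1⟩ -
    algebraMap ℂ g.X.R (ζ * yx x m1) * ⟨ym K m2, ym_mem hm2.1⟩), ?_, fun x' hx' h' hxx => ?_⟩
  · rw [map_prod, Finset.prod_ne_zero_iff]
    intro ζ hζ
    rw [hev]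
    have h1 : yx x m2 * yx x m1 - ζ * yx x m1 * yx x m2 = (1 - ζ) * (yx x m1 * yx x m2) := by ring
    rw [h1]
    exact mul_ne_zero (sub_ne_zero.2 (Finset.ne_of_mem_erase hζ).symm) (mul_ne_zero hm1.2 hm2.2)
  · rw [map_prod, Finset.prod_ne_zero_iff] at hx'
    have h1 := root_val hl hcone hR h h' hxx hm1 hm2 hmm
    have h2 : yx x' m2 * yx x m1 ≠ 0 := mul_ne_zero (hxx _ hm2).2 hm1.2
    set ζ := yx x' m1 * yx x m2 / (yx x' m2 * yx x m1) with hζ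
    have h3 : ζ ^ R = 1 := by
      rw [hζ, div_pow, h1, div_self (pow_ne_zero _ h2)]
    have h4 : ζ * (yx x' m2 * yx x m1) = yx x' m1 * yx x m2 := div_mul_cancel₀ _ h2
    by_cases h5 : ζ = 1
    · rw [h5, one_mul] at h4
      exact h4.symm
    · exfalso
      apply hx' ζ (Finset.mem_erase.2 ⟨h5, (Polynomial.mem_nthRootsFinset hR0 _).2 h3⟩)
      rw [hev]
      linear_combination -h4

theorem nb_char (hl : ∀ m, l m ≠ 0) (hcone : ∀ u, g.InCone u → g.InCone (adj W u)) {R : ℕ}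
    (hR0 : 0 < R) (hR : ∀ m, W^[R] m = m) {x : Pt g.X} (h : Fixes x W l) :
    Nb x fun x' => Fixes x' W l → (∀ m ∈ Fx x, m ∈ Fx x') → ∀ m1 ∈ Fx x, ∀ m2 ∈ Fx x, ∀ m',
      W m' - m' = m1 - m2 → yx x' m1 * yx x m2 = yx x' m2 * yx x m1 := by
  classical
  let f : (Fin n → ℤ) →+ (Fin n → ℤ) := W - AddMonoidHom.id _
  have hf : ∀ m, f m = W m - m := fun m => rfl
  let D : AddSubgroup (Fin n → ℤ) := D1 (Fx x) Fx_zero (fun _ ha _ hb => Fx_add ha hb) ⊓ f.range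
  obtain ⟨T, hT⟩ := IsNoetherian.noetherian (AddSubgroup.toIntSubmodule D)
  have hTD : ∀ δ ∈ T, ∃ m1 ∈ Fx x, ∃ m2 ∈ Fx x, δ = m1 - m2 ∧ ∃ m', W m' - m' = m1 - m2 := by
    intro δ hδ
    have h1 : δ ∈ AddSubgroup.toIntSubmodule D := by
      rw [← hT]
      exact Submodule.subset_span hδ
    obtain ⟨⟨m1, hm1, m2, hm2, h2⟩, m', hm'⟩ := h1
    exact ⟨m1, hm1, m2, hm2, h2, m', by rw [← hf, hm', h2]⟩
  have hTD' : ∀ δ : T, ∃ m1 ∈ Fx x, ∃ m2 ∈ Fx x, (δ : Fin n → ℤ) = m1 - m2 ∧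
      ∃ m', W m' - m' = m1 - m2 := fun δ => hTD δ δ.2
  choose m1 hm1 m2 hm2 hδ m' hm' using hTD'
  refine (Nb.finite fun δ : T => nb_one hl hcone hR0 hR h (hm1 δ) (hm2 δ) (hm' δ)).mono ?_
  intro x' hx' h' hxx a ha b hb c hc
  have hχ : ∀ m ∈ Fx x, ∀ m' ∈ Fx x, yx x (m + m') = yx x m * yx x m' := fun _ hm _ hm' =>
    yx_add x hm.1 hm'.1
  have hχ' : ∀ m ∈ Fx x, ∀ m' ∈ Fx x, yx x' (m + m') = yx x' m * yx x' m' := fun _ hm _ hm' =>
    yx_add x' hm.1 hm'.1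
  let E' : AddSubgroup (Fin n → ℤ) :=
    { carrier := {δ | ∃ m1 ∈ Fx x, ∃ m2 ∈ Fx x, δ = m1 - m2 ∧
        yx x' m1 * yx x m2 = yx x' m2 * yx x m1}
      zero_mem' := ⟨0, Fx_zero, 0, Fx_zero, (sub_self _).symm, rfl⟩
      add_mem' := by
        rintro _ _ ⟨a, ha, b, hb, rfl, h1⟩ ⟨c, hc, d, hd, rfl, h2⟩
        refine ⟨a + c, Fx_add ha hc, b + d, Fx_add hb hd, by abel, ?_⟩
        rw [hχ _ hb _ hd, hχ _ ha _ hc, hχ' _ hb _ hd, hχ' _ ha _ hc]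
        linear_combination (yx x' c * yx x d) * h1 + (yx x' b * yx x a) * h2
      neg_mem' := by
        rintro _ ⟨a, ha, b, hb, rfl, h1⟩
        exact ⟨b, hb, a, ha, by abel, h1.symm⟩ }
  have hDE : AddSubgroup.toIntSubmodule D ≤ AddSubgroup.toIntSubmodule E' := by
    rw [← hT, Submodule.span_le]
    intro δ hδT
    exact ⟨m1 ⟨δ, hδT⟩, hm1 _, m2 ⟨δ, hδT⟩, hm2 _, hδ ⟨δ, hδT⟩, hx' ⟨δ, hδT⟩ h' hxx⟩
  have hmem : a - b ∈ AddSubgroup.toIntSubmodule E' := by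
    apply hDE
    exact ⟨⟨a, ha, b, hb, rfl⟩, c, by rw [hf, hc]⟩
  obtain ⟨p, hp, q, hq, h1, h2⟩ := hmem
  have e1 := chi_well hχ ha hb hp hq h1
  have e2 := chi_well hχ' ha hb hp hq h1
  have hne : yx x' q * yx x q ≠ 0 := mul_ne_zero (hxx _ hq).2 hq.2
  apply mul_right_cancel₀ hne
  linear_combination (yx x b * yx x q) * e2 - (yx x' b * yx x' q) * e1 +
    (yx x' b * yx x b) * h2

/-- the neighbourhood used for one automorphism -/
theorem nb_main (hl : ∀ m, l m ≠ 0) (hcone : ∀ u, g.InCone u → g.InCone (adj W u)) {R : ℕ}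
    (hR0 : 0 < R) (hR : ∀ m, W^[R] m = m) (x : Pt g.X) :
    Nb x fun x' => (∀ m ∈ Fx x, m ∈ Fx x') ∧ (Fixes x' W l → Fixes x W l ∧
      ∀ m1 ∈ Fx x, ∀ m2 ∈ Fx x, ∀ m', W m' - m' = m1 - m2 →
        yx x' m1 * yx x m2 = yx x' m2 * yx x m1) := by
  by_cases h : Fixes x W l
  · refine ((nb_face x).and (nb_char hl hcone hR0 hR h)).mono ?_
    rintro x' ⟨h1, h2⟩
    exact ⟨h1, fun h' => ⟨h, h2 h' h1⟩⟩
  · refine ((nb_face x).and (nb_fix (l := l) hcone x)).mono ?_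
    rintro x' ⟨h1, h2⟩
    exact ⟨h1, fun h' => absurd (h2 h') h⟩

end act

end Q47.TV
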