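import Pool.Agent.Q47.QM.Conj
import Pool.Agent.Q47.TV.Germ

/-!
# Closed points of affine toric varieties
-/

set_option autoImplicit false
set_option linter.unusedSectionVars false

namespace Q47.TV

open Pool.Agent.H436R3.Fol Pool.Agent.H436R3.KT Pool.Agent.W497.Mld Pool.Agent.TH165.ACC Q47.QM

variable {n : ℕ} {K : Type} [Field K] [Algebra ℂ K]
  [Algebra (MvPolynomial (Fin n) ℂ) K] [IsFractionRing (MvPolynomial (Fin n) ℂ) K]
  [IsScalarTower ℂ (MvPolynomial (Fin n) ℂ) K]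

variable {g : TorAff n K}

theorem ym_mem {m : Fin n → ℤ} (hm : m ∈ Cn g.E) : ym K m ∈ g.X.R := by
  rw [g.hR]; exact ym_mem_LA hm

open Classical in
/-- the value of a monomial at a closed point -/
noncomputable def yx (x : Pt g.X) (m : Fin n → ℤ) : ℂ :=
  if h : ym K m ∈ g.X.R then x ⟨ym K m, h⟩ else 0

theorem yx_eq (x : Pt g.X) {m : Fin n → ℤ} (h : ym K m ∈ g.X.R) : yx x m = x ⟨ym K m, h⟩ :=
  dif_pos h

theorem yx_add (x : Pt g.X) {m m' : Fin n → ℤ} (h : m ∈ Cn g.E) (h' : m' ∈ Cn g.E) :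
    yx x (m + m') = yx x m * yx x m' := by
  rw [yx_eq x (ym_mem h), yx_eq x (ym_mem h'), yx_eq x (ym_mem (Cn_add h h')), ← map_mul]
  congr 1
  exact Subtype.ext (ym_add m m')

/-- the monomials which do not vanish at the point -/
def Fx (x : Pt g.X) : Set (Fin n → ℤ) := {m | m ∈ Cn g.E ∧ yx x m ≠ 0}

theorem Fx_add {x : Pt g.X} {m m' : Fin n → ℤ} (h : m ∈ Fx x) (h' : m' ∈ Fx x) :
    m + m' ∈ Fx x :=
  ⟨Cn_add h.1 h'.1, by rw [yx_add x h.1 h'.1]; exact mul_ne_zero h.2 h'.2⟩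

theorem Fx_face {x : Pt g.X} {m m' : Fin n → ℤ} (h : m ∈ Cn g.E) (h' : m' ∈ Cn g.E)
    (hs : m + m' ∈ Fx x) : m ∈ Fx x := by
  refine ⟨h, fun h0 => hs.2 ?_⟩
  rw [yx_add x h h', h0, zero_mul]

theorem yx_zero (x : Pt g.X) : yx x 0 = 1 := by
  rw [yx_eq x (ym_mem Cn_zero)]
  have : (⟨ym K (0 : Fin n → ℤ), ym_mem Cn_zero⟩ : g.X.R) = 1 := Subtype.ext ym_zero
  rw [this, map_one]

theorem Fx_zero {x : Pt g.X} : (0 : Fin n → ℤ) ∈ Fx x :=
  ⟨Cn_zero, by rw [yx_zero]; exact one_ne_zero⟩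

theorem over_reg {x : Pt g.X} {v : DVal K} (h : IsOverGerm x v) {f : K} (hf : f ∈ g.X.R) :
    v.Reg f := by
  obtain ⟨⟨S, -, hRS, hSv⟩, -⟩ := h
  exact hSv.1 _ (hRS hf)

theorem over_uc {x : Pt g.X} {v : DVal K} (h : IsOverGerm x v) {m : Fin n → ℤ} (hm : m ∈ Fx x) :
    UC v (ym K m) (yx x m) := by
  refine ⟨hm.2, ?_⟩
  have h1 := (h.2 (⟨ym K m, ym_mem hm.1⟩ - algebraMap ℂ g.X.R (yx x m))).2 (by
    rw [map_sub, AlgHom.commutes]
    exact sub_eq_zero.2 (yx_eq x (ym_mem hm.1)).symm)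
  exact h1

theorem over_zero {x : Pt g.X} {v : DVal K} (h : IsOverGerm x v) {m : Fin n → ℤ} (hm : m ∈ Fx x) :
    pr m (tv v) = 0 := by
  rw [← ord_ym (K := K)]
  exact (over_uc h hm).ord

theorem over_pos {x : Pt g.X} {v : DVal K} (h : IsOverGerm x v) {m : Fin n → ℤ}
    (hm : m ∈ Cn g.E) (hm' : m ∉ Fx x) : 0 < pr m (tv v) := by
  rw [← ord_ym (K := K)]
  have h1 : yx x m = 0 := by
    by_contra h0
    exact hm' ⟨hm, h0⟩
  have h2 := (h.2 ⟨ym K m, ym_mem hm⟩).2 (by rw [← yx_eq x (ym_mem hm), h1])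
  exact h2.resolve_left (ym_ne m)

theorem over_inCone {x : Pt g.X} {v : DVal K} (h : IsOverGerm x v) : g.InCone (tv v) := by
  intro m hm
  by_cases hm' : m ∈ Fx x
  · rw [over_zero h hm']
  · exact (over_pos h hm hm').le

/-- functions which do not vanish at the point -/
theorem exists_rep (x : Pt g.X) (f : g.X.R) (hf : x f ≠ 0) : ∃ (M : Fin n →₀ ℕ)
    (h : MvPolynomial (Fin n) ℂ), (f : K) * ym K (ex M) = jo (Fin n) K h ∧
      (∀ s ∈ h.support, ex s - ex M ∈ Cn g.E) ∧ ∃ s ∈ h.support, ex s - ex M ∈ Fx x := by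
  obtain ⟨M, h, h1, h3⟩ := g.rep f
  refine ⟨M, h, h1, h3, ?_⟩
  by_contra hcon
  push Not at hcon
  apply hf
  have h4 : (f : K) = ∑ s ∈ h.support, algebraMap ℂ K (h.coeff s) * ym K (ex s - ex M) := by
    have h5 : (f : K) = jo (Fin n) K h * ym K (-ex M) := by
      rw [← h1, mul_assoc, ym_mul_neg, mul_one]
    rw [h5, jo_eq_sum, Finset.sum_mul]
    refine Finset.sum_congr rfl fun s _ => ?_
    rw [sub_eq_add_neg, ym_add]
    ring
  have h5 : f = ∑ s ∈ h.support.attach, algebraMap ℂ g.X.R (h.coeff s.1) *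
      ⟨ym K (ex s.1 - ex M), ym_mem (h3 s.1 s.2)⟩ := by
    apply Subtype.ext
    rw [h4, ← Finset.sum_attach]
    push_cast
    rfl
  rw [h5, map_sum]
  refine Finset.sum_eq_zero fun s _ => ?_
  rw [map_mul, ← yx_eq x (ym_mem (h3 s.1 s.2))]
  have h6 : yx x (ex s.1 - ex M) = 0 := by
    by_contra h0
    exact hcon s.1 s.2 ⟨h3 s.1 s.2, h0⟩
  rw [h6, mul_zero]

/-- `E i` lies in the face of the point -/
def InF (x : Pt g.X) (i : Fin g.N) : Prop := ∀ m ∈ Fx x, pr m (g.E i) = 0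

theorem ordE_zero {x : Pt g.X} {i : Fin g.N} (hi : InF x i) {v : DVal K} (hv : IsMonomial n v)
    (ht : (tv v : Fin n → ℤ) = g.E i) {f : g.X.R} (hf : x f ≠ 0) :
    (f : K) ≠ 0 ∧ v.ord (f : K) = 0 := by
  have hf0 : (f : K) ≠ 0 := by
    intro h0
    apply hf
    have : f = 0 := Subtype.ext h0
    rw [this, map_zero]
  refine ⟨hf0, ?_⟩
  obtain ⟨M, p, h1, h2, s, hs, hsx⟩ := exists_rep x f hf
  have hp : p ≠ 0 := by
    rintro rfl
    simp at hs
  have h4 := (hv p hp).2 s hs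
  rw [← h1, v.map_mul _ _ hf0 (ym_ne _), ord_ym, ht] at h4
  have h5 := hi _ hsx
  rw [pr_sub] at h5
  have h6 := v.ord_nonneg hf0 ((local_Hs hv).1 _ (TorAff.R_le (g := g)
    (by rw [ht]; exact TorAff.inCone_E i) f.2))
  omega

theorem onAt_F {x : Pt g.X} {i : Fin g.N} (hi : InF x i) {v : DVal K} (hv : IsMonomial n v)
    (ht : (tv v : Fin n → ℤ) = g.E i) : OnAt x v := by
  refine ⟨TorAff.local_E hv ht, fun f hf => ?_⟩
  by_contra h0
  obtain ⟨h1, h2⟩ := ordE_zero hi hv ht h0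
  rcases hf with hf | hf
  · exact h1 hf
  · omega

/-- the face of the cone which belongs to the point -/
def FC (x : Pt g.X) (u : Fin n → ℤ) : Prop := g.InCone u ∧ ∀ m ∈ Fx x, pr m u = 0

theorem over_FC {x : Pt g.X} {v : DVal K} (h : IsOverGerm x v) : FC x (tv v) :=
  ⟨over_inCone h, fun _ hm => over_zero h hm⟩

theorem FC_E {x : Pt g.X} {i : Fin g.N} (hi : InF x i) : FC x (g.E i) :=
  ⟨TorAff.inCone_E i, hi⟩

theorem FC_zero (x : Pt g.X) : FC x 0 := ⟨fun m _ => by simp [pr], fun m _ => by simp [pr]⟩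

theorem FC.add {x : Pt g.X} {u u' : Fin n → ℤ} (h : FC x u) (h' : FC x u') : FC x (u + u') :=
  ⟨fun m hm => by rw [pr_add_right]; exact add_nonneg (h.1 m hm) (h'.1 m hm),
    fun m hm => by rw [pr_add_right, h.2 m hm, h'.2 m hm, add_zero]⟩

theorem FC.smul {x : Pt g.X} {u : Fin n → ℤ} (h : FC x u) (k : ℕ) : FC x ((k : ℤ) • u) :=
  ⟨fun m hm => by rw [pr_smul_right]; exact mul_nonneg (Int.natCast_nonneg k) (h.1 m hm),
    fun m hm => by rw [pr_smul_right, h.2 m hm, mul_zero]⟩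

theorem FC.mono {x x' : Pt g.X} (hxx : ∀ m ∈ Fx x, m ∈ Fx x') {u : Fin n → ℤ} (h : FC x' u) :
    FC x u := ⟨h.1, fun m hm => h.2 m (hxx m hm)⟩

theorem exists_coord {u : Fin n → ℤ} (h : g.InCone u) :
    ∃ w : Fin g.N → ℝ, (∀ i, 0 ≤ w i) ∧ Coord g.E w u := by
  classical
  obtain ⟨d, a, w, hw, hwu, -⟩ := exists_simplex (E := g.E) h
  refine ⟨fun i => ∑ j, if a j = i then w j else 0, fun i => Finset.sum_nonneg fun j _ => ?_,
    fun k => ?_⟩
  · split_ifs
    · exact (hw j).le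
    · exact le_rfl
  · rw [← hwu k]
    simp only [Finset.sum_mul]
    rw [Finset.sum_comm]
    refine Finset.sum_congr rfl fun j _ => ?_
    rw [Finset.sum_eq_single (a j)]
    · rw [if_pos rfl]
    · intro i _ hi
      rw [if_neg (fun h => hi h.symm), zero_mul]
    · intro h; exact absurd (Finset.mem_univ _) h

/-- coordinates supported on the face -/
theorem coord_face {x : Pt g.X} {u : Fin n → ℤ} (h : FC x u) {w : Fin g.N → ℝ}
    (hw : ∀ i, 0 ≤ w i) (hc : Coord g.E w u) {i : Fin g.N} (hi : ¬ InF x i) : w i = 0 := by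
  rw [InF] at hi
  push Not at hi
  obtain ⟨m, hm, hm0⟩ := hi
  have h1 := coord_pr hc m
  rw [h.2 m hm, Int.cast_zero] at h1
  have h2 := (Finset.sum_eq_zero_iff_of_nonneg fun j _ =>
    mul_nonneg (hw j) (by exact_mod_cast hm.1 j)).1 h1.symm i (Finset.mem_univ i)
  exact (mul_eq_zero.1 h2).resolve_right (by exact_mod_cast hm0)

theorem conc' {vE : Fin g.N → DVal K} (hvE : ∀ i, IsMonomial n (vE i))
    (htE : ∀ i, (tv (vE i) : Fin n → ℤ) = g.E i) (v : DVal K) {w : Fin g.N → ℝ}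
    (hw : ∀ i, 0 ≤ w i) (hc : Coord g.E w (tv v)) {p : MvPolynomial (Fin n) ℂ} (hp : p ≠ 0) :
    ∑ i, w i * ((vE i).ord (jo (Fin n) K p) : ℝ) ≤ (v.ord (jo (Fin n) K p) : ℝ) := by
  obtain ⟨s, hs, h1⟩ := ord_ge_min v hp
  have h2 : ((pr (ex s) (tv v) : ℤ) : ℝ) ≤ (v.ord (jo (Fin n) K p) : ℝ) := by exact_mod_cast h1
  refine le_trans ?_ h2
  rw [coord_pr hc]
  refine Finset.sum_le_sum fun i _ => mul_le_mul_of_nonneg_left ?_ (hw i)
  have := (hvE i p hp).2 s hs
  rw [htE] at this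
  exact_mod_cast this

theorem lin_point {vE : Fin g.N → DVal K} (hvE : ∀ i, IsMonomial n (vE i))
    (htE : ∀ i, (tv (vE i) : Fin n → ℤ) = g.E i) {x : Pt g.X} {v : DVal K}
    (hun : ∀ f : g.X.R, x f ≠ 0 → v.ord (f : K) = 0) {w : Fin g.N → ℝ} (hw : ∀ i, 0 ≤ w i)
    (hwF : ∀ i, ¬ InF x i → w i = 0) (hc : Coord g.E w (tv v))
    {p : MvPolynomial (Fin n) ℂ} (hp : Prime p)
    (h : ¬ ∃ hp : Prime p, (∀ i : Fin n, (valP K p hp).ord (cv K i) = 0) ∧
      OnAt x (valP K p hp)) :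
    (v.ord (jo (Fin n) K p) : ℝ) = ∑ i, w i * ((vE i).ord (jo (Fin n) K p) : ℝ) := by
  by_cases h0 : ∀ i : Fin n, (valP K p hp).ord (cv K i) = 0
  · have hL := g.local_prime hp h0
    have h1 : ¬ OnAt x (valP K p hp) := fun h1 => h ⟨hp, h0, h1⟩
    have h2 : ∃ f : g.X.R, (valP K p hp).Pos (f : K) ∧ x f ≠ 0 := by
      by_contra h3
      push Not at h3
      exact h1 ⟨hL, h3⟩
    obtain ⟨f, hf, hPf⟩ := h2
    obtain ⟨M, q, e1, e2, s0, hs0, -⟩ := exists_rep x f hPf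
    have hf0 : (f : K) ≠ 0 := by
      intro h3
      apply hPf
      have : f = 0 := Subtype.ext h3
      rw [this, map_zero]
    have hq : q ≠ 0 := by
      rintro rfl
      simp at hs0
    have hpq : p ∣ q := by
      by_contra h3
      have h4 := valP_other (K := K) hp hq h3
      have h7 : (tv (valP K p hp) : Fin n → ℤ) = 0 := funext h0
      rw [← e1, (valP K p hp).map_mul _ _ hf0 (ym_ne _), ord_ym, h7, pr] at h4
      simp only [Pi.zero_apply, mul_zero, Finset.sum_const_zero, add_zero] at h4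
      rcases hf with hf | hf
      · exact hf0 hf
      · omega
    obtain ⟨q', rfl⟩ := hpq
    have hq' : q' ≠ 0 := right_ne_zero_of_mul hq
    have hvf : v.ord (f : K) = 0 := hun f hPf
    have h8 : (v.ord (jo (Fin n) K p) : ℝ) + (v.ord (jo (Fin n) K q') : ℝ) =
        (pr (ex M) (tv v) : ℝ) := by
      have h5 : v.ord (jo (Fin n) K (p * q')) = pr (ex M) (tv v) := by
        rw [← e1, v.map_mul _ _ hf0 (ym_ne _), hvf, zero_add, ord_ym]
      rw [map_mul, v.map_mul _ _ (jo_ne hp.ne_zero) (jo_ne hq')] at h5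
      exact_mod_cast h5
    have h9 : (pr (ex M) (tv v) : ℝ) = ∑ i, w i * ((vE i).ord (jo (Fin n) K p) : ℝ) +
        ∑ i, w i * ((vE i).ord (jo (Fin n) K q') : ℝ) := by
      rw [coord_pr hc, ← Finset.sum_add_distrib]
      refine Finset.sum_congr rfl fun i _ => ?_
      by_cases hi : InF x i
      · obtain ⟨-, h4⟩ := ordE_zero hi (hvE i) (htE i) hPf
        have h5 : (vE i).ord (jo (Fin n) K (p * q')) = pr (ex M) (g.E i) := by
          rw [← e1, (vE i).map_mul _ _ hf0 (ym_ne _), h4, zero_add, ord_ym, htE]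
        rw [map_mul, (vE i).map_mul _ _ (jo_ne hp.ne_zero) (jo_ne hq')] at h5
        rw [← h5]
        push_cast
        ring
      · rw [hwF i hi]
        ring
    have h11 := conc' hvE htE v hw hc hp.ne_zero
    have h12 := conc' hvE htE v hw hc hq'
    linarith
  · push Not at h0
    obtain ⟨k, hk⟩ := h0
    have h1 : p ∣ MvPolynomial.X k := by
      by_contra h3
      exact hk (valP_other (K := K) hp (MvPolynomial.X_ne_zero k) h3)
    have h2 : Associated p (MvPolynomial.X k) := hp.associated_of_dvd MvPolynomial.X_prime h1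
    have h3 : ∀ v' : DVal K, v'.ord (jo (Fin n) K p) = v'.ord (cv K k) := fun v' =>
      ord_assoc v' hp.ne_zero h2
    rw [h3]
    have h4 := hc k
    change _ = ((v.ord (cv K k) : ℤ) : ℝ) at h4
    rw [← h4]
    refine Finset.sum_congr rfl fun i _ => ?_
    rw [h3]
    have h5 := congrFun (htE i) k
    change (vE i).ord (cv K k) = g.E i k at h5
    rw [h5]

theorem over_un {x : Pt g.X} {v : DVal K} (hov : IsOverGerm x v) (f : g.X.R) (hf : x f ≠ 0) :
    v.ord (f : K) = 0 := by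
  have hf0 : (f : K) ≠ 0 := by
    intro h3
    apply hf
    have : f = 0 := Subtype.ext h3
    rw [this, map_zero]
  have h5 := v.ord_nonneg hf0 (over_reg hov f.2)
  have h6 : ¬ v.Pos (f : K) := fun h7 => hf ((hov.2 f).1 h7)
  by_contra h7
  exact h6 (Or.inr (by omega))

theorem mon_un {x : Pt g.X} {v : DVal K} (hv : IsMonomial n v) (hu : FC x (tv v)) (f : g.X.R)
    (hf : x f ≠ 0) : v.ord (f : K) = 0 := by
  have hf0 : (f : K) ≠ 0 := by
    intro h0
    apply hf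
    have : f = 0 := Subtype.ext h0
    rw [this, map_zero]
  obtain ⟨M, p, h1, h2, s, hs, hsx⟩ := exists_rep x f hf
  have hp : p ≠ 0 := by
    rintro rfl
    simp at hs
  have h4 := (hv p hp).2 s hs
  rw [← h1, v.map_mul _ _ hf0 (ym_ne _), ord_ym] at h4
  have h5 := hu.2 _ hsx
  rw [pr_sub] at h5
  have h6 := v.ord_nonneg hf0 ((local_Hs hv).1 _ (TorAff.R_le (g := g) hu.1 f.2))
  omega

/-- the sums attached to the local equation of the boundary at a point -/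
theorem sum_point {B : EffDiv g.X} {vE : Fin g.N → DVal K} (hvE : ∀ i, IsMonomial n (vE i))
    (htE : ∀ i, (tv (vE i) : Fin n → ℤ) = g.E i)
    (htor : ∀ v : DVal K, (∀ i : Fin n, v.ord (cv K i) = 0) → B.mult v = 0)
    {x : Pt g.X} (e' : LocEq B x) {v : DVal K}
    (hun : ∀ f : g.X.R, x f ≠ 0 → v.ord (f : K) = 0) {w : Fin g.N → ℝ} (hw : ∀ i, 0 ≤ w i)
    (hwF : ∀ i, ¬ InF x i → w i = 0) (hco : Coord g.E w (tv v)) :
    ∑ k, e'.ρ k * (v.ord (e'.g k) : ℝ) = -∑ i, w i * (1 - B.mult (vE i)) := by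
  classical
  obtain ⟨F, c, hFp, hFd, hc⟩ := fact (n := n) e'.ρ e'.g e'.ne
  have h1 : ∀ i, InF x i → -1 + B.mult (vE i) =
      ∑ p ∈ F, c p * ((vE i).ord (jo (Fin n) K p) : ℝ) := by
    intro i hi
    obtain ⟨b, hb, h2⟩ := e'.eq (vE i) (onAt_F hi (hvE i) (htE i))
    have h3 : b = -1 := hb.unique (can_mon g.e g.hT (hvE i))
    rw [← hc, ← h2, h3]
    push_cast
    rfl
  have h2 : ∀ p ∈ F, (∃ hp : Prime p, (∀ i : Fin n, (valP K p hp).ord (cv K i) = 0) ∧
      OnAt x (valP K p hp)) → c p = 0 := by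
    rintro p hp ⟨hpp, hcv, hon⟩
    obtain ⟨b, hb, h3⟩ := e'.eq _ hon
    have hL := g.local_prime hpp hcv
    have h4 : b = 0 := hb.unique (can_unit g.e g.hT (by rw [← g.hR]; exact hL) hcv)
    have h5 : ∑ q ∈ F, c q * ((valP K p hpp).ord (jo (Fin n) K q) : ℝ) = c p := by
      rw [Finset.sum_eq_single p]
      · rw [valP_self]; push_cast; ring
      · intro q hq hqp
        rw [valP_other hpp (hFp q hq).ne_zero fun h => hqp (hFd p hp q hq h).symm]
        push_cast; ring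
      · intro h; exact absurd hp h
    rw [hc, h5, h4, Int.cast_zero, zero_add, htor _ hcv] at h3
    exact h3.symm
  rw [hc, ← Finset.sum_neg_distrib]
  have h4 : ∀ p ∈ F, c p * (v.ord (jo (Fin n) K p) : ℝ) =
      ∑ i, w i * (c p * ((vE i).ord (jo (Fin n) K p) : ℝ)) := by
    intro p hp
    by_cases h5 : ∃ hp : Prime p, (∀ i : Fin n, (valP K p hp).ord (cv K i) = 0) ∧
        OnAt x (valP K p hp)
    · rw [h2 p hp h5, zero_mul]
      exact (Finset.sum_eq_zero fun i _ => by rw [zero_mul, mul_zero]).symm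
    · rw [lin_point hvE htE hun hw hwF hco (hFp p hp) h5, Finset.mul_sum]
      exact Finset.sum_congr rfl fun i _ => by ring
  rw [Finset.sum_congr rfl h4, Finset.sum_comm]
  refine Finset.sum_congr rfl fun i _ => ?_
  rw [← Finset.mul_sum]
  by_cases hi : InF x i
  · rw [← h1 i hi]
    ring
  · rw [hwF i hi]
    ring

/-- the log discrepancy function at a point -/
structure LDX (vE : Fin g.N → DVal K) (B : EffDiv g.X) (x : Pt g.X) (Φ : (Fin n → ℤ) → ℝ) :
    Prop where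
  lin : ∀ (w : Fin g.N → ℝ) (u : Fin n → ℤ), (∀ i, 0 ≤ w i) → (∀ i, ¬ InF x i → w i = 0) →
    Coord g.E w u → Φ u = ∑ i, w i * (1 - B.mult (vE i))

theorem coord_inCone {w : Fin g.N → ℝ} (hw : ∀ i, 0 ≤ w i) {u : Fin n → ℤ}
    (hco : Coord g.E w u) : g.InCone u := by
  intro m hm
  have h1 := coord_pr hco m
  have h2 : (0 : ℝ) ≤ (pr m u : ℝ) := by
    rw [h1]
    exact Finset.sum_nonneg fun i _ => mul_nonneg (hw i) (by exact_mod_cast hm i)
  exact_mod_cast h2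

theorem coord_FC {x : Pt g.X} {w : Fin g.N → ℝ} (hw : ∀ i, 0 ≤ w i)
    (hwF : ∀ i, ¬ InF x i → w i = 0) {u : Fin n → ℤ} (hco : Coord g.E w u) : FC x u := by
  refine ⟨coord_inCone hw hco, fun m hm => ?_⟩
  have h1 := coord_pr hco m
  have h2 : (pr m u : ℝ) = 0 := by
    rw [h1]
    refine Finset.sum_eq_zero fun i _ => ?_
    by_cases hi : InF x i
    · rw [hi m hm, Int.cast_zero, mul_zero]
    · rw [hwF i hi, zero_mul]
  exact_mod_cast h2

theorem exists_phi3 {B : EffDiv g.X} {vE : Fin g.N → DVal K} (hvE : ∀ i, IsMonomial n (vE i))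
    (htE : ∀ i, (tv (vE i) : Fin n → ℤ) = g.E i)
    (htor : ∀ v : DVal K, (∀ i : Fin n, v.ord (cv K i) = 0) → B.mult v = 0)
    {x : Pt g.X} (e : LocEq B x) : ∃ Φ, LDX vE B x Φ := by
  classical
  let Fw : (Fin g.N → ℝ) → ℝ := fun w => ∑ i, w i * (1 - B.mult (vE i))
  have hFs : ∀ (t : ℝ) w, Fw (t • w) = t * Fw w := by
    intro t w
    simp only [Fw, Finset.mul_sum]
    exact Finset.sum_congr rfl fun i _ => by rw [Pi.smul_apply, smul_eq_mul]; ring
  have hsc : ∀ (k : ℤ) (u' : Fin n → ℤ) (w : Fin g.N → ℝ), 0 < k → Coord g.E w (k • u') →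
      Coord g.E ((k : ℝ)⁻¹ • w) u' := by
    intro k u' w hk hco j
    have h3 := hco j
    have hk' : (0 : ℝ) < k := by exact_mod_cast hk
    simp only [Pi.smul_apply, smul_eq_mul] at h3 ⊢
    push_cast at h3
    have h4 : ∑ i, (k : ℝ)⁻¹ * w i * (g.E i j : ℝ) = (k : ℝ)⁻¹ * ∑ i, w i * (g.E i j : ℝ) := by
      rw [Finset.mul_sum]
      exact Finset.sum_congr rfl fun i _ => by ring
    rw [h4, h3]
    field_simp
  have hwell : ∀ (u : Fin n → ℤ) (w w' : Fin g.N → ℝ), (∀ i, 0 ≤ w i) → (∀ i, 0 ≤ w' i) →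
      (∀ i, ¬ InF x i → w i = 0) → (∀ i, ¬ InF x i → w' i = 0) →
      Coord g.E w u → Coord g.E w' u → Fw w = Fw w' := by
    intro u w w' hw hw' hwF hwF' hco hco'
    by_cases hu : u = 0
    · obtain ⟨Q, hQ⟩ := g.pointed
      have h0 : ∀ w : Fin g.N → ℝ, (∀ i, 0 ≤ w i) → Coord g.E w u → Fw w = 0 := by
        intro w hw hco
        have h3 := coord_pr hco Q
        have h4 : pr Q u = 0 := by rw [hu, pr]; simp
        rw [h4, Int.cast_zero] at h3
        have h5 := (Finset.sum_eq_zero_iff_of_nonneg fun i _ =>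
          mul_nonneg (hw i) (by exact_mod_cast (hQ i).le)).1 h3.symm
        refine Finset.sum_eq_zero fun i _ => ?_
        have h6 := h5 i (Finset.mem_univ i)
        have h7 : ((pr Q (g.E i) : ℤ) : ℝ) ≠ 0 := by exact_mod_cast (hQ i).ne'
        rw [(mul_eq_zero.1 h6).resolve_right h7, zero_mul]
      rw [h0 w hw hco, h0 w' hw' hco']
    · obtain ⟨k, u', hk, hu', rfl⟩ := exists_prim hu
      obtain ⟨v, hv, rfl⟩ := exists_mon (K := K) hu'
      have hk' : (0 : ℝ) < k := by exact_mod_cast hk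
      have key : ∀ w : Fin g.N → ℝ, (∀ i, 0 ≤ w i) → (∀ i, ¬ InF x i → w i = 0) →
          Coord g.E w (k • (tv v : Fin n → ℤ)) →
          ∑ j, e.ρ j * (v.ord (e.g j) : ℝ) = -((k : ℝ)⁻¹ * Fw w) := by
        intro w hw hwF hco
        have h1 : ∀ i, 0 ≤ ((k : ℝ)⁻¹ • w) i := fun i => mul_nonneg (inv_pos.2 hk').le (hw i)
        have h2 : ∀ i, ¬ InF x i → ((k : ℝ)⁻¹ • w) i = 0 := fun i hi => by
          rw [Pi.smul_apply, hwF i hi, smul_zero]
        rw [sum_point hvE htE htor e (mon_un hv (coord_FC h1 h2 (hsc k _ w hk hco))) h1 h2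
          (hsc k _ w hk hco), ← hFs]
      have h3 := key w hw hwF hco
      have h4 := key w' hw' hwF' hco'
      have h5 : (k : ℝ)⁻¹ * Fw w = (k : ℝ)⁻¹ * Fw w' := by linarith
      exact mul_left_cancel₀ (inv_pos.2 hk').ne' h5
  let Φ : (Fin n → ℤ) → ℝ := fun u =>
    if h : ∃ w : Fin g.N → ℝ, (∀ i, 0 ≤ w i) ∧ (∀ i, ¬ InF x i → w i = 0) ∧ Coord g.E w u
    then Fw h.choose else 0
  refine ⟨Φ, ⟨fun w u hw hwF hco => ?_⟩⟩
  have h3 : ∃ w : Fin g.N → ℝ, (∀ i, 0 ≤ w i) ∧ (∀ i, ¬ InF x i → w i = 0) ∧ Coord g.E w u :=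
    ⟨w, hw, hwF, hco⟩
  simp only [Φ]
  rw [dif_pos h3]
  exact hwell u _ _ h3.choose_spec.1 hw h3.choose_spec.2.1 hwF h3.choose_spec.2.2 hco

section ldx

variable {vE : Fin g.N → DVal K} {B : EffDiv g.X} {x : Pt g.X} {Φ : (Fin n → ℤ) → ℝ}

theorem LDX.ray (h : LDX vE B x Φ) {i : Fin g.N} (hi : InF x i) : Φ (g.E i) = 1 - B.mult (vE i) := by
  classical
  rw [h.lin (Pi.single i 1) (g.E i) (fun j => by
    by_cases h : j = i
    · subst h; simp
    · simp [h]) (fun j hj => by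
    rw [Pi.single_eq_of_ne]
    rintro rfl
    exact hj hi) (fun k => by
    rw [Finset.sum_eq_single i]
    · simp
    · intro j _ hj
      simp [hj]
    · intro h; exact absurd (Finset.mem_univ _) h)]
  rw [Finset.sum_eq_single i]
  · simp
  · intro j _ hj
    simp [hj]
  · intro h; exact absurd (Finset.mem_univ _) h

theorem LDX.add (h : LDX vE B x Φ) {u u' : Fin n → ℤ} (hu : FC x u) (hu' : FC x u') :
    Φ (u + u') = Φ u + Φ u' := by
  obtain ⟨w, hw, hc⟩ := exists_coord hu.1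
  obtain ⟨w', hw', hc'⟩ := exists_coord hu'.1
  rw [h.lin w u hw (fun i hi => coord_face hu hw hc hi) hc,
    h.lin w' u' hw' (fun i hi => coord_face hu' hw' hc' hi) hc', h.lin (w + w') (u + u')
    (fun i => add_nonneg (hw i) (hw' i))
    (fun i hi => by rw [Pi.add_apply, coord_face hu hw hc hi, coord_face hu' hw' hc' hi, add_zero])
    (fun k => by
      simp only [Pi.add_apply, add_mul, Finset.sum_add_distrib]
      rw [hc k, hc' k]
      push_cast
      rfl), ← Finset.sum_add_distrib]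
  exact Finset.sum_congr rfl fun i _ => by rw [Pi.add_apply]; ring

theorem LDX.zero (h : LDX vE B x Φ) : Φ 0 = 0 := by
  rw [h.lin 0 0 (fun _ => le_rfl) (fun _ _ => rfl) (fun k => by simp)]
  simp

theorem LDX.smul (h : LDX vE B x Φ) (k : ℕ) {u : Fin n → ℤ} (hu : FC x u) :
    Φ ((k : ℤ) • u) = k * Φ u := by
  induction k with
  | zero => rw [Nat.cast_zero, zero_smul, h.zero]; simp
  | succ k ih =>
    have h1 : ((k + 1 : ℕ) : ℤ) • u = (k : ℤ) • u + u := by
      rw [Nat.cast_succ, add_smul, one_smul]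
    rw [h1, h.add (hu.smul k) hu, ih]
    push_cast
    ring

end ldx

/-- the log discrepancies at the closed points near `x` -/
theorem disc_point {B : EffDiv g.X} {Φ : (Fin n → ℤ) → ℝ} {vE : Fin g.N → DVal K} {x : Pt g.X}
    (hΦ : LDX vE B x Φ) (hvE : ∀ i, IsMonomial n (vE i))
    (htE : ∀ i, (tv (vE i) : Fin n → ℤ) = g.E i)
    (htor : ∀ v : DVal K, (∀ i : Fin n, v.ord (cv K i) = 0) → B.mult v = 0)
    {x' : Pt g.X} (hxx : ∀ m ∈ Fx x, m ∈ Fx x') (e' : LocEq B x') {v : DVal K}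
    (hov : IsOverGerm x' v) (m : ℝ) :
    IsLogDisc e' v m ↔ ∃ a : ℤ, IsCanOrd g.X.T v a ∧ m = 1 + a + Φ (tv v) := by
  obtain ⟨w, hw, hco⟩ := exists_coord (over_inCone hov)
  have h1 : ∀ i, ¬ InF x' i → w i = 0 := fun i hi => coord_face (over_FC hov) hw hco hi
  have h3 : ∑ k, e'.ρ k * (v.ord (e'.g k) : ℝ) = -Φ (tv v) := by
    rw [sum_point hvE htE htor e' (over_un hov) hw h1 hco, hΦ.lin w _ hw (fun i hi =>
      h1 i fun h2 => hi fun m hm => h2 m (hxx m hm)) hco]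
  constructor
  · rintro ⟨a, ha, rfl⟩
    exact ⟨a, ha, by rw [h3]; ring⟩
  · rintro ⟨a, ha, rfl⟩
    exact ⟨a, ha, by rw [h3]; ring⟩

end Q47.TV
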